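import Pool.Agent.H72.KC.Base4
import Pool.Agent.H72.KB.DetR
import Pool.Agent.H72.KB.PairR

/-!
# Row DtL: the modulation determinant for `k = 4`, test functions `-ρ` and `Q'`

`rho = Q^3 Q'^2`, `nrh = -rho`, `Dt 4 φ W = IA 4 W φ * IB W Q' - IA 4 W Q' * IB W φ`.
`IA 4 W φ = ∫ W ((2/4 - 1) φ - y φ')`, `IB W φ = ∫ W φ'`.
Proof.  `nrh_cl`: products of the class `Cl` (`Q_cl`, `Cl_deriv`, `Cl_pow`, `Cl_mul`, `Cl_smul`, `Cl_mono`: `Q^3 Q'^2` is `Cl 5 5`, weaken to `Cl 1 1`;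
or `Cl_pow` then `Cl_mul`).
`Dt_Q4`: `IB Q φ = ∫ Q φ' = -∫ Q' φ = ∫ Q' Q^3 Q'^2 = 0` (odd integrand: `Q` even, `Q'` odd: `integral_comp_neg`/`integral_neg_eq_self`-type
argument, or `∫ Q^3 Q'^3`: substitute `y → -y`), `IB Q Q' = ∫ Q Q'' = -∫ Q'^2` (as in `Det_Q`, file `KB/DetR.lean`), and
`IA 4 Q φ = -∫ (1/2) Q φ - ∫ Q y φ' = ∫ (Q/2 + y Q') φ` (by parts `∫ Q y φ' = -∫ (Q + y Q') φ`) `= -∫ (ΛQ) ρ`.
Now `∫ (ΛQ) ρ = (1/2) ∫ Q'^2`: `4 ρ = L Q'' = -Q'''' + Q'' - Q^4 Q''` (differentiate `-Q''' + Q' - Q^4 Q' = 0`, i.e. `Q_ode`: `Q'' = Q - Q^5/5`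
twice; all functions are polynomials in `t = tanh(2y)` times `Q`, see `qbas_poly`), and `L (ΛQ) = -2 Q` (same), `L` symmetric:
`4∫ ΛQ ρ = ∫ ΛQ L Q'' = ∫ (L ΛQ) Q'' = -2 ∫ Q Q'' = 2 ∫ Q'^2`.
ALTERNATIVE without the operator: with `Q' = -t Q`, `Q^4 = 15 (1-t^2)` (`Q_der`, `Q_pow`), `t' = 2(1-t^2)`; `∫ (Q/2 + yQ') Q^3 Q'^2 = (1/2)∫ Q^4 Q'^2 + ∫ y Q' Q^3 Q'^2`;
`Q'^3 Q^3 = -t^3 Q^6 = (15/4) d/dy[ ... ]`: find `G` with `G' = Q^3 Q'^3` and integrate by parts; then compare with `∫ Q'^2 = ∫ t^2 Q^2`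
using `∫ d/dy (t^n Q^m) = 0` (`d/dy (t^n Q^m) = 2n t^{n-1}(1-t^2) Q^m - m t^{n+1} Q^m`).
`Dt_low4`: each of the four functionals is `∫ W ψ` with `ψ` of class `Cl (1/2) (1/2)`, so `|∫ e ψ| ≤ g ∫ |ψ|` if `|e| ≤ g`; expand the determinant
(`DetR_alg` in `KB/DetR.lean` with `r = g`, `d = d4`): `Dt(Q+e) > d4` for `g` small.
-/

open MeasureTheory Filter Topology Set
open scoped ContDiff

namespace H72KC

open H98KB H72KB H68KC

/-- minus the test function `ρ = Q³Q'²` -/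
noncomputable def nrh (y : ℝ) : ℝ := -rho y

/-- half of the determinant at `Q` -/
noncomputable def d4 : ℝ := (∫ y, (deriv (Qf 4) y) ^ 2) ^ 2 / 4

theorem DtL_Q : Cl 1 1 (Qf 4) := Q_cl (by norm_num)

theorem DtL_Qd : Cl 1 1 (deriv (Qf 4)) := Cl_deriv DtL_Q

theorem DtL_rho : Cl 1 1 rho := by
  have h1 : Cl 1 1 (fun y => Qf 4 y ^ 3) := Cl_pow (by norm_num) (by norm_num) DtL_Q 3 (by norm_num)
  have h2 : Cl 1 1 (fun y => deriv (Qf 4) y ^ 2) :=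
    Cl_pow (by norm_num) (by norm_num) DtL_Qd 2 (by norm_num)
  exact Cl_mono (by norm_num) (by norm_num) (Cl_mul h1 h2)

theorem nrh_cl : Cl 1 1 nrh := by
  have h := Cl_smul (-1) DtL_rho
  have e : nrh = fun y => -1 * rho y := by
    funext y
    unfold nrh
    ring
  rw [e]
  exact h

theorem d4_pos : 0 < d4 := by
  have h := Q'sq_pos (k := 4) (by norm_num)
  unfold d4
  positivity

theorem DtL_ode (y : ℝ) : deriv (deriv (Qf 4)) y = Qf 4 y - (Qf 4 y) ^ 5 / 5 := by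
  rw [Q_ode (by norm_num) y]
  unfold fl
  norm_num

theorem DtL_sq (y : ℝ) : (deriv (Qf 4) y) ^ 2 = (Qf 4 y) ^ 2 - (Qf 4 y) ^ 6 / 15 := by
  have h := Q_pow (k := 4) (by norm_num) y
  have e : deriv (Qf 4) y = -(th 4 y) * Qf 4 y := congrFun (qbas_deriv (by norm_num)) y
  norm_num at h
  have e2 : (Qf 4 y) ^ 6 = (Qf 4 y) ^ 4 * (Qf 4 y) ^ 2 := by ring
  rw [e, e2, h]
  ring

theorem DtL_h1 (y : ℝ) : HasDerivAt (Qf 4) (deriv (Qf 4) y) y := DetR_cd DtL_Q y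

theorem DtL_h2 (y : ℝ) : HasDerivAt (deriv (Qf 4)) (Qf 4 y - (Qf 4 y) ^ 5 / 5) y := by
  rw [← DtL_ode]
  exact DetR_cd DtL_Qd y

/-- the primitive -/
noncomputable def DtL_H (y : ℝ) : ℝ :=
  y * ((Qf 4 y) ^ 6 / 6 - (Qf 4 y) ^ 10 / 150) +
    Qf 4 y * deriv (Qf 4) y * (-1 / 4 + (Qf 4 y) ^ 4 / 20)

theorem DtL_Hcl : Cl (1 / 2) (1 / 2) DtL_H := by
  have h6 := Cl_smul (1 / 6) (Cl_pow (by norm_num) (by norm_num) DtL_Q 6 (by norm_num))
  have h10 := Cl_smul (1 / 150) (Cl_pow (by norm_num) (by norm_num) DtL_Q 10 (by norm_num))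
  have hy : Cl (1 / 2) (1 / 2) (fun y => y * (1 / 6 * Qf 4 y ^ 6 - 1 / 150 * Qf 4 y ^ 10)) :=
    Cl_ymul (by norm_num) (by norm_num) (Cl_sub h6 h10)
  have hq := Cl_mul DtL_Q DtL_Qd
  have h4 := Cl_pow (by norm_num) (by norm_num) DtL_Q 4 (by norm_num)
  have a1 : Cl (1 / 2) (1 / 2) (fun y => -1 / 4 * (Qf 4 y * deriv (Qf 4) y)) :=
    Cl_mono (by norm_num) (by norm_num) (Cl_smul (-1 / 4) hq)
  have a2 : Cl (1 / 2) (1 / 2) (fun y => 1 / 20 * (Qf 4 y * deriv (Qf 4) y * Qf 4 y ^ 4)) :=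
    Cl_mono (by norm_num) (by norm_num) (Cl_smul (1 / 20) (Cl_mul hq h4))
  have h := Cl_add hy (Cl_add a1 a2)
  have e : DtL_H = fun y => y * (1 / 6 * Qf 4 y ^ 6 - 1 / 150 * Qf 4 y ^ 10) +
      (-1 / 4 * (Qf 4 y * deriv (Qf 4) y) + 1 / 20 * (Qf 4 y * deriv (Qf 4) y * Qf 4 y ^ 4)) := by
    funext y
    unfold DtL_H
    ring
  rw [e]
  exact h

theorem DtL_Hd (y : ℝ) : HasDerivAt DtL_H
    ((1 / 2 * Qf 4 y + y * deriv (Qf 4) y) * rho y - 1 / 2 * (deriv (Qf 4) y) ^ 2) y := by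
  have q1 := DtL_h1 y
  have q2 := DtL_h2 y
  have h := ((hasDerivAt_id y).mul (((q1.pow 6).div_const 6).sub ((q1.pow 10).div_const 150))).add
    ((q1.mul q2).mul (((q1.pow 4).div_const 20).const_add (-1 / 4)))
  have hs := DtL_sq y
  refine (h.congr_deriv ?_)
  unfold rho
  simp only [id, Pi.pow_apply, Pi.mul_apply, Pi.sub_apply]
  push_cast
  generalize deriv (Qf 4) y = d at *
  generalize Qf 4 y = q at *
  linear_combination (exp := 1) (-(y * d * q ^ 3) - (q ^ 4) / 2 + 1 / 2 + (-1 / 4 + q ^ 4 / 20) + q ^ 4 / 5) * hs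

theorem DtL_int0 : ∫ y, ((1 / 2 * Qf 4 y + y * deriv (Qf 4) y) * rho y -
    1 / 2 * (deriv (Qf 4) y) ^ 2) = 0 := by
  have hd : deriv DtL_H = fun y => (1 / 2 * Qf 4 y + y * deriv (Qf 4) y) * rho y -
      1 / 2 * (deriv (Qf 4) y) ^ 2 := by
    funext y
    exact (DtL_Hd y).deriv
  have hi : Integrable (deriv DtL_H) := Cl_int (by norm_num) (by norm_num) (Cl_deriv DtL_Hcl)
  have ht := Cl_tendsto (by norm_num) (by norm_num) DtL_Hcl
  have h := integral_of_hasDerivAt_of_tendsto (fun y => DetR_cd DtL_Hcl y) hi ht.2 ht.1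
  rw [sub_zero, hd] at h
  exact h

theorem DtL_odd (y : ℝ) : deriv (Qf 4) (-y) = -deriv (Qf 4) y := by
  have e : deriv (Qf 4) (-y) = -(th 4 (-y)) * Qf 4 (-y) := congrFun (qbas_deriv (by norm_num)) (-y)
  have e2 : deriv (Qf 4) y = -(th 4 y) * Qf 4 y := congrFun (qbas_deriv (by norm_num)) y
  have e3 : th 4 (-y) = -th 4 y := by
    unfold th
    rw [show (((4 : ℕ) : ℝ)) * (-y) / 2 = -(((4 : ℕ) : ℝ) * y / 2) by ring, Real.tanh_neg]
  rw [e, e2, e3, Q_even]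
  ring

theorem DtL_IB : IB (Qf 4) nrh = 0 := by
  have h := Cl_ibp (by norm_num) (by norm_num) DtL_Q nrh_cl
  unfold IB
  have e : ∫ y, deriv (Qf 4) y * nrh y = 0 := by
    have h1 : ∫ y, deriv (Qf 4) (-y) * nrh (-y) = ∫ y, deriv (Qf 4) y * nrh y :=
      integral_neg_eq_self (fun y => deriv (Qf 4) y * nrh y) volume
    have h2 : (fun y => deriv (Qf 4) (-y) * nrh (-y)) = fun y => -(deriv (Qf 4) y * nrh y) := by
      funext y
      unfold nrh rho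
      rw [DtL_odd, Q_even]
      ring
    rw [h2, integral_neg] at h1
    linarith
  rw [e] at h
  linarith

theorem DtL_IA : IA 4 (Qf 4) nrh = -(1 / 2 * ∫ y, (deriv (Qf 4) y) ^ 2) := by
  have hφ := nrh_cl
  have hyQ : Cl (1 / 2) (1 / 2) (fun y => y * Qf 4 y) := Cl_ymul (by norm_num) (by norm_num) DtL_Q
  have hyQ' : Cl (1 / 2) (1 / 2) (fun y => y * deriv (Qf 4) y) :=
    Cl_ymul (by norm_num) (by norm_num) DtL_Qd
  have hyφ : Cl (1 / 2) (1 / 2) (fun y => y * nrh y) := Cl_ymul (by norm_num) (by norm_num) hφ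
  have hyφ' : Cl (1 / 2) (1 / 2) (fun y => y * deriv nrh y) :=
    Cl_ymul (by norm_num) (by norm_num) (Cl_deriv hφ)
  have i1 : Integrable (fun y => Qf 4 y * nrh y) :=
    Cl_int (by norm_num) (by norm_num) (Cl_mul DtL_Q hφ)
  have i2 : Integrable (fun y => Qf 4 y * (y * deriv nrh y)) :=
    Cl_int (by norm_num) (by norm_num) (Cl_mul DtL_Q hyφ')
  have i3 : Integrable (fun y => deriv (Qf 4) y * (y * nrh y)) :=
    Cl_int (by norm_num) (by norm_num) (Cl_mul DtL_Qd hyφ)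
  have i4 : Integrable (fun y => (deriv (Qf 4) y) ^ 2) := qbas_sq_int DtL_Qd
  have hb := Cl_ibp (by norm_num) (by norm_num) DtL_Q hyφ
  have hd : ∀ y, deriv (fun y => y * nrh y) y = nrh y + y * deriv nrh y := by
    intro y
    exact congrFun (PairR_y hφ) y
  have e1 : ∫ y, Qf 4 y * deriv (fun y => y * nrh y) y =
      (∫ y, Qf 4 y * nrh y) + ∫ y, Qf 4 y * (y * deriv nrh y) := by
    rw [← integral_add i1 i2]
    refine integral_congr_ae (Eventually.of_forall fun y => ?_)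
    show Qf 4 y * deriv (fun y => y * nrh y) y = Qf 4 y * nrh y + Qf 4 y * (y * deriv nrh y)
    rw [hd]
    ring
  rw [e1] at hb
  have e2 : IA 4 (Qf 4) nrh = -(1 / 2) * (∫ y, Qf 4 y * nrh y) -
      ∫ y, Qf 4 y * (y * deriv nrh y) := by
    unfold IA
    rw [← integral_const_mul, ← integral_sub (i1.const_mul _) i2]
    refine integral_congr_ae (Eventually.of_forall fun y => ?_)
    show Qf 4 y * ((2 / ((4 : ℕ) : ℝ) - 1) * nrh y - y * deriv nrh y) =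
      -(1 / 2) * (Qf 4 y * nrh y) - Qf 4 y * (y * deriv nrh y)
    push_cast
    ring
  have e3 : (0 : ℝ) = -(1 / 2) * (∫ y, Qf 4 y * nrh y) - (∫ y, deriv (Qf 4) y * (y * nrh y)) -
      1 / 2 * ∫ y, (deriv (Qf 4) y) ^ 2 := by
    have i5 : Integrable (fun y => -(1 / 2) * (Qf 4 y * nrh y) - deriv (Qf 4) y * (y * nrh y)) :=
      (i1.const_mul _).sub i3
    rw [← DtL_int0, ← integral_const_mul, ← integral_const_mul,
      ← integral_sub (i1.const_mul _) i3, ← integral_sub i5 (i4.const_mul _)]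
    refine integral_congr_ae (Eventually.of_forall fun y => ?_)
    show (1 / 2 * Qf 4 y + y * deriv (Qf 4) y) * rho y - 1 / 2 * (deriv (Qf 4) y) ^ 2 =
      -(1 / 2) * (Qf 4 y * nrh y) - deriv (Qf 4) y * (y * nrh y) - 1 / 2 * (deriv (Qf 4) y) ^ 2
    unfold nrh
    ring
  rw [e2]
  linarith

theorem DtL_IB2 : IB (Qf 4) (deriv (Qf 4)) = -∫ y, (deriv (Qf 4) y) ^ 2 := by
  have h := Cl_ibp (by norm_num) (by norm_num) DtL_Qd DtL_Q
  have e : ∫ y, deriv (deriv (Qf 4)) y * Qf 4 y = ∫ y, Qf 4 y * deriv (deriv (Qf 4)) y :=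
    integral_congr_ae (Eventually.of_forall fun y => mul_comm _ _)
  have e2 : ∫ y, deriv (Qf 4) y * deriv (Qf 4) y = ∫ y, (deriv (Qf 4) y) ^ 2 :=
    integral_congr_ae (Eventually.of_forall fun y => (pow_two _).symm)
  unfold IB
  rw [← e, h, e2]

theorem Dt_Q4 : Dt 4 nrh (Qf 4) = 2 * d4 := by
  unfold Dt d4
  rw [DtL_IB, DtL_IA, DtL_IB2]
  ring

theorem DtL_psi {ψ : ℝ → ℝ} (hψ : Cl (1 / 2) (1 / 2) ψ) : ∃ C₁ : ℝ, 0 ≤ C₁ ∧
    ∀ (g : ℝ) (p q : ℝ) (e : ℝ → ℝ), 0 < p → 0 < q → Cl p q e → (∀ y, |e y| ≤ g) →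
      |∫ y, e y * ψ y| ≤ C₁ * g := by
  refine ⟨∫ y, |ψ y|, integral_nonneg fun y => abs_nonneg _, ?_⟩
  intro g p q e hp hq he hg
  have hi : Integrable ψ := Cl_int (by norm_num) (by norm_num) hψ
  obtain ⟨C, hC⟩ := Cl_bdd (by norm_num) (by norm_num) hψ
  have hi2 : Integrable (fun y => e y * ψ y) := Cl_int_mul hp hq he hψ.1.continuous C hC
  calc |∫ y, e y * ψ y| ≤ ∫ y, |e y * ψ y| := abs_integral_le_integral_abs
    _ ≤ ∫ y, g * |ψ y| := by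
        refine integral_mono hi2.abs (hi.abs.const_mul g) fun y => ?_
        show |e y * ψ y| ≤ g * |ψ y|
        rw [abs_mul]
        exact mul_le_mul_of_nonneg_right (hg y) (abs_nonneg _)
    _ = (∫ y, |ψ y|) * g := by rw [integral_const_mul, mul_comm]

theorem Dt_low4 : ∃ g : ℝ, 0 < g ∧ ∀ (p q : ℝ) (e : ℝ → ℝ), 0 < p → 0 < q → Cl p q e →
    (∀ y, |e y| ≤ g) → d4 < Dt 4 nrh (fun y => Qf 4 y + e y) := by
  have hφ := nrh_cl
  have hQ := DtL_Q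
  have hQ' := DtL_Qd
  have w1 := DetR_wA (k := 4) hφ
  have w2 := DetR_wA (k := 4) hQ'
  have w3 : Cl (1 / 2) (1 / 2) (deriv nrh) := Cl_mono (by norm_num) (by norm_num) (Cl_deriv hφ)
  have w4 : Cl (1 / 2) (1 / 2) (deriv (deriv (Qf 4))) :=
    Cl_mono (by norm_num) (by norm_num) (Cl_deriv hQ')
  obtain ⟨c1, c10, hc1⟩ := DtL_psi w1
  obtain ⟨c2, c20, hc2⟩ := DtL_psi w2
  obtain ⟨c3, c30, hc3⟩ := DtL_psi w3
  obtain ⟨c4, c40, hc4⟩ := DtL_psi w4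
  have hd := d4_pos
  obtain ⟨c, hcd⟩ : ∃ c : ℝ, c = c1 + c2 + c3 + c4 := ⟨_, rfl⟩
  obtain ⟨M, hMd⟩ : ∃ M : ℝ, M = |IA 4 (Qf 4) nrh| + |IA 4 (Qf 4) (deriv (Qf 4))| +
    |IB (Qf 4) nrh| + |IB (Qf 4) (deriv (Qf 4))| := ⟨_, rfl⟩
  have n1 := abs_nonneg (IA 4 (Qf 4) nrh)
  have n2 := abs_nonneg (IA 4 (Qf 4) (deriv (Qf 4)))
  have n3 := abs_nonneg (IB (Qf 4) nrh)
  have n4 := abs_nonneg (IB (Qf 4) (deriv (Qf 4)))
  have hc0 : 0 ≤ c := by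
    rw [hcd]
    positivity
  have hM0 : 0 ≤ M := by
    rw [hMd]
    positivity
  obtain ⟨S, hSd⟩ : ∃ S : ℝ, S = 4 * M * c + 2 * c ^ 2 + 1 := ⟨_, rfl⟩
  have hS0 : 0 < S := by
    rw [hSd]
    positivity
  refine ⟨min 1 (d4 / (2 * S)), lt_min one_pos (by positivity), ?_⟩
  intro p q e hp hq he hg
  obtain ⟨g, hgd⟩ : ∃ g : ℝ, g = min 1 (d4 / (2 * S)) := ⟨_, rfl⟩
  rw [← hgd] at hg
  have hg0 : 0 < g := by
    rw [hgd]
    exact lt_min one_pos (by positivity)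
  have hg1 : g ≤ 1 := by
    rw [hgd]
    exact min_le_left _ _
  have hg2 : g ≤ d4 / (2 * S) := by
    rw [hgd]
    exact min_le_right _ _
  have hsmall : (4 * M * c + 2 * c ^ 2) * g < d4 := by
    have h1 : (4 * M * c + 2 * c ^ 2) * g ≤ S * g := by
      refine mul_le_mul_of_nonneg_right ?_ hg0.le
      linarith
    have h2 : S * g ≤ S * (d4 / (2 * S)) := mul_le_mul_of_nonneg_left hg2 hS0.le
    have h3 : S * (d4 / (2 * S)) = d4 / 2 := by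
      field_simp
    linarith
  have hcc : ∀ ci : ℝ, 0 ≤ ci → ci ≤ c → ∀ z : ℝ, |z| ≤ ci * g → |z| ≤ c * g := by
    intro ci _ hle z hz
    exact hz.trans (mul_le_mul_of_nonneg_right hle hg0.le)
  have a1 : IA 4 (fun y => Qf 4 y + e y) nrh = IA 4 (Qf 4) nrh + IA 4 e nrh :=
    DetR_add one_pos one_pos hp hq hQ he w1
  have a2 : IA 4 (fun y => Qf 4 y + e y) (deriv (Qf 4)) =
      IA 4 (Qf 4) (deriv (Qf 4)) + IA 4 e (deriv (Qf 4)) :=
    DetR_add one_pos one_pos hp hq hQ he w2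
  have a3 : IB (fun y => Qf 4 y + e y) nrh = IB (Qf 4) nrh + IB e nrh :=
    DetR_add one_pos one_pos hp hq hQ he w3
  have a4 : IB (fun y => Qf 4 y + e y) (deriv (Qf 4)) =
      IB (Qf 4) (deriv (Qf 4)) + IB e (deriv (Qf 4)) :=
    DetR_add one_pos one_pos hp hq hQ he w4
  have hDQ := Dt_Q4
  unfold Dt at hDQ ⊢
  rw [a1, a2, a3, a4]
  exact DetR_alg (M := M) (c := c) (r := g) hM0 hc0 hg0.le hg1 hsmall
    (by rw [hMd]; linarith) (by rw [hMd]; linarith) (by rw [hMd]; linarith) (by rw [hMd]; linarith)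
    (hcc c1 c10 (by linarith) _ (hc1 g p q e hp hq he hg))
    (hcc c2 c20 (by linarith) _ (hc2 g p q e hp hq he hg))
    (hcc c3 c30 (by linarith) _ (hc3 g p q e hp hq he hg))
    (hcc c4 c40 (by linarith) _ (hc4 g p q e hp hq he hg)) hDQ

end H72KC
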