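import Pool.Agent.H68.KC.Stat4
import Pool.Agent.H72.KB.Scal
import Pool.Agent.H72.KB.IniB
import Pool.Agent.H72.KC.DtL

/-! # Scaling identities for `k = 4` -/

open MeasureTheory Filter Topology Set
open scoped ContDiff

namespace H72KC

open H98KB H72KB H68KC

theorem scl_44 : (4 : ℝ) / ((4 : ℕ) : ℝ) = 1 := by norm_num

/-- `∫ W² = ∫ U²` -/
theorem scl_sq (U : ℝ → ℝ) {l : ℝ} (hl : 0 < l) (x : ℝ) :
    ∫ y, (Wf 4 U l x y) ^ 2 = ∫ z, (U z) ^ 2 := by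
  rw [Wf_sq U hl x, scl_44, sub_self, Real.rpow_zero, one_mul]

/-- `∫ W'² = l² ∫ U'²` -/
theorem scl_X {U : ℝ → ℝ} (hU : ContDiff ℝ ∞ U) {l : ℝ} (hl : 0 < l) (x : ℝ) :
    Xn (Wf 4 U l x) = l ^ 2 * ∫ z, (deriv U z) ^ 2 := by
  rw [Wf_X hU hl x, scl_44]
  have : (1 : ℝ) + 1 = ((2 : ℕ) : ℝ) := by norm_num
  rw [this, Real.rpow_natCast]

theorem scl_ne {V : ℝ → ℝ} (hV : ContDiff ℝ ∞ V)
    (hi : Integrable (fun x => wt 1 x * ((V x) ^ 2 + (deriv V x) ^ 2))) {l : ℝ} (hl : 0 < l)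
    (hl1 : l ≤ 1) (x : ℝ) : ne2 (Wf 4 V l x) ≤ nw 1 V ∧ ne2 (ef 4 V l x) ≤ nw 1 V := by
  have hw : ∀ z, 1 ≤ wt 1 z := one_le_wt zero_le_one
  obtain ⟨Φ, hΦ⟩ : ∃ Φ : ℝ → ℝ, Φ = fun z => wt 1 z * ((V z) ^ 2 + (deriv V z) ^ 2) := ⟨_, rfl⟩
  have hi' : Integrable (fun y => l * Φ (l * y + x)) := by
    rw [hΦ]
    exact (Scal_int hi hl x).const_mul l
  have hI : ∫ y, l * Φ (l * y + x) = nw 1 V := by
    rw [integral_const_mul, Scal_cv Φ hl x, hΦ]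
    unfold nw
    field_simp
  have hs : (l ^ (2 / ((4 : ℕ) : ℝ))) ^ 2 = l := by
    rw [Scal_sq 4 hl, scl_44, Real.rpow_one]
  have hpt : ∀ y, (Wf 4 V l x y) ^ 2 + (deriv (Wf 4 V l x) y) ^ 2 ≤ l * Φ (l * y + x) := by
    intro y
    rw [Scal_der hV, hΦ]
    unfold Wf
    rw [mul_pow, mul_pow, mul_pow, hs]
    have h1 := hw (l * y + x)
    have h2 : l ^ 2 ≤ 1 := pow_le_one₀ hl.le hl1
    have h3 := sq_nonneg (V (l * y + x))
    have h4 := sq_nonneg (deriv V (l * y + x))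
    have h5 : l ^ 2 * (deriv V (l * y + x)) ^ 2 ≤ (deriv V (l * y + x)) ^ 2 :=
      mul_le_of_le_one_left h4 h2
    have h6 : (V (l * y + x)) ^ 2 + (deriv V (l * y + x)) ^ 2 ≤
        wt 1 (l * y + x) * ((V (l * y + x)) ^ 2 + (deriv V (l * y + x)) ^ 2) :=
      le_mul_of_one_le_left (by positivity) h1
    have h7 : l * (V (l * y + x)) ^ 2 + l * l ^ 2 * (deriv V (l * y + x)) ^ 2 =
        l * ((V (l * y + x)) ^ 2 + l ^ 2 * (deriv V (l * y + x)) ^ 2) := by ring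
    rw [h7]
    exact mul_le_mul_of_nonneg_left (by linarith) hl.le
  constructor
  · rw [← hI]
    refine integral_mono_of_nonneg (Eventually.of_forall fun y => by positivity) hi'
      (Eventually.of_forall hpt)
  · rw [← hI]
    refine integral_mono_of_nonneg (Eventually.of_forall fun y => by positivity) hi'
      (Eventually.of_forall fun y => ?_)
    show (ef 4 V l x y) ^ 2 + (deriv (ef 4 V l x) y) ^ 2 ≤ _
    rw [Scal_ef]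
    unfold ef
    have h4 : l ^ 4 ≤ 1 := pow_le_one₀ hl.le hl1
    have h5 : 0 ≤ (Wf 4 V l x y) ^ 2 + (deriv (Wf 4 V l x) y) ^ 2 := by positivity
    have h6 : (l ^ 2 * Wf 4 V l x y) ^ 2 + (l ^ 2 * deriv (Wf 4 V l x) y) ^ 2 =
        l ^ 4 * ((Wf 4 V l x y) ^ 2 + (deriv (Wf 4 V l x) y) ^ 2) := by ring
    rw [h6]
    exact (mul_le_of_le_one_left h5 h4).trans (hpt y)

/-- the rescaled datum -/
theorem scl_dat (Pp Ee : ℝ → ℝ) (w1 : ℝ) {r : ℝ} (hr : 0 < r) (y : ℝ) :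
    Wf 4 (dat4 Pp Ee w1 r) (r ^ 8) 0 y = W0 Pp Ee w1 r y := by
  have h1 : (r ^ 8) ^ (2 / ((4 : ℕ) : ℝ)) = r ^ 4 := by
    rw [← Real.rpow_natCast r 8, ← Real.rpow_mul hr.le, ← Real.rpow_natCast r 4]
    norm_num
  unfold Wf dat4
  rw [h1, add_zero]
  have h2 : r ^ 8 * y / r ^ 8 = y := by field_simp
  rw [h2]
  field_simp

/-- `λ` is bounded below -/
theorem scl_low {U : ℝ → ℝ} (hU : ContDiff ℝ ∞ U)
    (hi : Integrable (fun x => wt 1 x * ((U x) ^ 2 + (deriv U x) ^ 2))) {r rm K x : ℝ}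
    (hr : 0 < r) (hrm : 0 < rm) (hK : nw 1 U ≤ K)
    (hrmK : rm ^ 16 * K ≤ 1 / 4 * ∫ y, (deriv (Qf 4) y) ^ 2) (hK0 : 0 < K)
    (hx : 1 / 4 * (∫ y, (deriv (Qf 4) y) ^ 2) ≤ ∫ y, (deriv (Wf 4 U (r ^ 8) x) y) ^ 2) :
    rm ≤ r := by
  have h1 : ∫ y, (deriv (Wf 4 U (r ^ 8) x) y) ^ 2 = (r ^ 8) ^ 2 * ∫ z, (deriv U z) ^ 2 :=
    scl_X hU (by positivity) x
  have h2 := (sq_le_nw zero_le_one hU hi).2.1
  rw [h1] at hx
  have h3 : (r ^ 8) ^ 2 * ∫ z, (deriv U z) ^ 2 ≤ r ^ 16 * K := by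
    have : (r ^ 8) ^ 2 = r ^ 16 := by ring
    rw [this]
    exact mul_le_mul_of_nonneg_left (h2.trans hK) (by positivity)
  have h4 : rm ^ 16 * K ≤ r ^ 16 * K := by linarith
  have h5 : rm ^ 16 ≤ r ^ 16 := le_of_mul_le_mul_right h4 hK0
  exact (pow_le_pow_iff_left₀ hrm.le hr.le (by norm_num)).1 h5

end H72KC
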