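import Pool.Agent.H72.KC.Core4
import Pool.Agent.H72.KC.Scl4
import Pool.Agent.H72.KB.Mass
import Pool.Agent.H72.KB.SupR
import Pool.Agent.H37.KB.N8

/-! # Final theorem for `k = 4` from the static blocks -/

open MeasureTheory Filter Topology Set
open scoped ContDiff

namespace H72KC

open H98KB H72KB H68KC

/-- the gradient of `W` is not small -/
theorem fin_x1 {p q : ℝ} (hp : 0 < p) (hq : 0 < q) (hp1 : p ≤ 1) (hq1 : q ≤ 1) {W : ℝ → ℝ}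
    (hW : Cl p q (fun y => W y - Qf 4 y))
    (hx : Xn (fun y => W y - Qf 4 y) ≤ 1 / 4 * ∫ y, (deriv (Qf 4) y) ^ 2) :
    1 / 4 * (∫ y, (deriv (Qf 4) y) ^ 2) ≤ ∫ y, (deriv W y) ^ 2 := by
  have hQ1 : Cl 1 1 (Qf 4) := Q_cl (by norm_num)
  have hQ : Cl p q (Qf 4) := Cl_mono hp1 hq1 hQ1
  have hWc : Cl p q W := by
    have h := H72KB.Cl_add hW hQ
    have e : (fun y => (W y - Qf 4 y) + Qf 4 y) = W := by
      funext y
      ring
    rwa [e] at h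
  have hder : ∀ y, deriv (fun y => W y - Qf 4 y) y = deriv W y - deriv (Qf 4) y := fun y =>
    deriv_fun_sub ((hWc.1.differentiable (by simp)) y) ((hQ.1.differentiable (by simp)) y)
  have hiW : Integrable (fun y => (deriv W y) ^ 2) := SupR_sq hp hq (Cl_deriv hWc)
  have hiQ : Integrable (fun y => (deriv (Qf 4) y) ^ 2) := SupR_sq hp hq (Cl_deriv hQ)
  have hiE : Integrable (fun y => (deriv (fun y => W y - Qf 4 y) y) ^ 2) :=
    SupR_sq hp hq (Cl_deriv hW)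
  have h1 : ∫ y, (deriv (Qf 4) y) ^ 2 ≤ 2 * (∫ y, (deriv W y) ^ 2) +
      2 * Xn (fun y => W y - Qf 4 y) := by
    unfold Xn
    rw [← integral_const_mul, ← integral_const_mul,
      ← integral_add (hiW.const_mul 2) (hiE.const_mul 2)]
    refine integral_mono hiQ ((hiW.const_mul 2).add (hiE.const_mul 2)) fun y => ?_
    change (deriv (Qf 4) y) ^ 2 ≤ 2 * (deriv W y) ^ 2 + 2 * (deriv (fun y => W y - Qf 4 y) y) ^ 2
    rw [hder]
    nlinarith [sq_nonneg (2 * deriv W y - deriv (Qf 4) y)]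
  linarith

theorem blowup4 (hTr : ThmTrap) (hIn : ThmIni)
    (hG : ∃ (Pp Ee : ℝ → ℝ) (γ η δ M B c C : ℝ), Prof Pp Ee ∧ GoodA Pp Ee γ η δ M B c C ∧
      GoodB Pp Ee γ B c ∧ GoodC Pp Ee γ B c C) :
    ∃ φ p₀ : ℝ → ℝ, IsH1 φ p₀ ∧ ¬ ∃ u p : ℝ → ℝ → ℝ, IsGlobalSol 4 φ u p := by
  obtain ⟨Pp, Ee, γ, η, δ, M, B, c, C, hpr, hGA, hGB, hGC⟩ := hG
  have hc0 := core4_c0
  have hB : 0 < B := by linarith [hGA.hB]
  obtain ⟨g, hg0, hg⟩ := Dt_low4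
  obtain ⟨w1, Ca, KI, hw1, hw1', hCa, hKI, hIn2⟩ := hIn Pp Ee γ η δ M B c C hpr hGA
  obtain ⟨K0, K9, KE, KN, K5, σ0, δ0, r1, hK0, hK9, hKE, hKN, hK5, hσ0, hδ0, hr1, hr1', htrap⟩ :=
    hTr Pp Ee γ η δ M B c C hpr hGA hGB hGC Ca KI hCa hKI
  obtain ⟨r2, hr2, hr2', hIn3⟩ := hIn2 K0 K9 KE KN K5 hK0 hK9 hKE hK5
  have hK9' : 0 < K9 := lt_of_lt_of_le (by positivity) hK9
  have hKE' : 0 < KE := by linarith
  set q1 : ℝ := ∫ y, (deriv (Qf 4) y) ^ 2 with hq1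
  have hq1' : 0 < q1 := Q'sq_pos (by norm_num)
  -- choice of `r₀`
  obtain ⟨r₀, hr₀, a1, a2, a3, a4, a5, a6⟩ : ∃ r₀ : ℝ, 0 < r₀ ∧ r₀ ≤ r1 / 2 ∧ r₀ ≤ r2 ∧
      KN * r₀ ≤ 2 * c0 ∧ 2 * K5 * r₀ ≤ σ0 ∧ 4 * r₀ ≤ g ^ 2 ∧ 16 * r₀ ≤ q1 := by
    have h1 : 0 < min (min (r1 / 2) r2) (min (min (2 * c0 / KN) (σ0 / (2 * K5)))
        (min (g ^ 2 / 4) (q1 / 16))) := by
      refine lt_min (lt_min (by positivity) hr2) (lt_min (lt_min (by positivity) (by positivity))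
        (lt_min (by positivity) (by positivity)))
    refine ⟨_, h1, ?_, ?_, ?_, ?_, ?_, ?_⟩
    · exact (min_le_left _ _).trans (min_le_left _ _)
    · exact (min_le_left _ _).trans (min_le_right _ _)
    · have h2 : min (min (r1 / 2) r2) (min (min (2 * c0 / KN) (σ0 / (2 * K5)))
        (min (g ^ 2 / 4) (q1 / 16))) ≤ 2 * c0 / KN :=
        (min_le_right _ _).trans ((min_le_left _ _).trans (min_le_left _ _))
      rw [le_div_iff₀ hKN] at h2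
      linarith
    · have h2 : min (min (r1 / 2) r2) (min (min (2 * c0 / KN) (σ0 / (2 * K5)))
        (min (g ^ 2 / 4) (q1 / 16))) ≤ σ0 / (2 * K5) :=
        (min_le_right _ _).trans ((min_le_left _ _).trans (min_le_right _ _))
      rw [le_div_iff₀ (by positivity)] at h2
      linarith
    · have h2 : min (min (r1 / 2) r2) (min (min (2 * c0 / KN) (σ0 / (2 * K5)))
        (min (g ^ 2 / 4) (q1 / 16))) ≤ g ^ 2 / 4 :=
        (min_le_right _ _).trans ((min_le_right _ _).trans (min_le_left _ _))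
      linarith
    · have h2 : min (min (r1 / 2) r2) (min (min (2 * c0 / KN) (σ0 / (2 * K5)))
        (min (g ^ 2 / 4) (q1 / 16))) ≤ q1 / 16 :=
        (min_le_right _ _).trans ((min_le_right _ _).trans (min_le_right _ _))
      linarith
  have hr₀2 : r₀ ≤ 1 / 2 := a2.trans hr2'
  have hr₀8 : r₀ ^ 8 ≤ (1 / 2) ^ 8 := pow_le_pow_left₀ hr₀.le hr₀2 8
  have hr₀8' : 0 < r₀ ^ 8 := by positivity
  have hhi : 2 * r₀ ^ 8 ≤ 1 := by norm_num at hr₀8 ⊢; linarith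
  obtain ⟨hdat, νs, C', hνs, hC', hini⟩ := hIn3 r₀ hr₀ a2
  set T : ℝ := r₀ ^ 20 / (2 * c0) with hT
  have hT0 : 0 < T := by positivity
  have hKT : KN * T ≤ 1 := by
    have h1 : r₀ ^ 20 ≤ r₀ := by
      calc r₀ ^ 20 ≤ r₀ ^ 1 := pow_le_pow_of_le_one hr₀.le (by linarith) (by norm_num)
        _ = r₀ := pow_one _
    rw [hT, ← mul_div_assoc, div_le_one (by positivity)]
    exact (mul_le_mul_of_nonneg_left h1 hKN.le).trans a3
  refine ⟨dat4 Pp Ee w1 r₀, deriv (dat4 Pp Ee w1 r₀), ?_, ?_⟩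
  · refine ⟨inib_mem (by norm_num) (by norm_num) hdat,
      inib_mem (by norm_num) (by norm_num) (Cl_deriv hdat), fun x y => ?_⟩
    rw [intervalIntegral.integral_deriv_eq_sub]
    · intro z _
      exact (hdat.1.differentiable (by simp)) z
    · exact ((Cl_deriv hdat).1.continuous).intervalIntegrable x y
  rintro ⟨u, p, hsol⟩
  obtain ⟨K, hK0', hK⟩ := H37KB.thm1 4 (by norm_num) hT0 (α := 1) le_rfl
    (by rw [mul_one]; exact hdat) hsol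
  set K' : ℝ := max K (q1 / (4 * r₀ ^ 16)) with hK'
  have hK'0 : 0 < K' := lt_of_lt_of_le hK0' (le_max_left _ _)
  -- lower bound of `r`
  obtain ⟨rm, hrm, hrm16⟩ : ∃ rm : ℝ, 0 < rm ∧ rm ^ 16 = q1 / (4 * K') := by
    have h1 : 0 < q1 / (4 * K') := by positivity
    refine ⟨(q1 / (4 * K')) ^ ((1:ℝ) / 16), Real.rpow_pos_of_pos h1 _, ?_⟩
    rw [← Real.rpow_natCast, ← Real.rpow_mul h1.le]
    norm_num
  have hrmK : rm ^ 16 * K' ≤ 1 / 4 * q1 := by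
    rw [hrm16]
    have : q1 / (4 * K') * K' = 1 / 4 * q1 := by field_simp
    exact this.le
  have hrm' : rm ≤ r₀ := by
    have h1 : rm ^ 16 ≤ r₀ ^ 16 := by
      have h2 : q1 / (4 * r₀ ^ 16) ≤ K' := le_max_right _ _
      rw [div_le_iff₀ (by positivity)] at h2
      rw [hrm16, div_le_iff₀ (by positivity)]
      linarith
    exact (pow_le_pow_iff_left₀ hrm.le hr₀.le (by norm_num)).1 h1
  -- choice of `ν`
  obtain ⟨ν, hν0, b1, b2, b3, b4⟩ : ∃ ν : ℝ, 0 < ν ∧ ν ≤ rm ^ 60 ∧ ν ≤ νs ∧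
      C' * √ν < rm ^ 30 ∧ T * ν ≤ 1 / 4 := by
    have h1 : 0 < min (min (rm ^ 60) νs) (min ((rm ^ 30 / (2 * C')) ^ 2) (1 / (4 * T))) :=
      lt_min (lt_min (by positivity) hνs) (lt_min (by positivity) (by positivity))
    refine ⟨_, h1, (min_le_left _ _).trans (min_le_left _ _),
      (min_le_left _ _).trans (min_le_right _ _), ?_, ?_⟩
    · have h2 : min (min (rm ^ 60) νs) (min ((rm ^ 30 / (2 * C')) ^ 2) (1 / (4 * T))) ≤
          (rm ^ 30 / (2 * C')) ^ 2 := (min_le_right _ _).trans (min_le_left _ _)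
      have h3 := Real.sqrt_le_sqrt h2
      rw [Real.sqrt_sq (by positivity)] at h3
      have h4 := mul_le_mul_of_nonneg_left h3 hC'.le
      have h5 : C' * (rm ^ 30 / (2 * C')) = rm ^ 30 / 2 := by field_simp
      have h6 : 0 < rm ^ 30 := by positivity
      linarith
    · have h2 : min (min (rm ^ 60) νs) (min ((rm ^ 30 / (2 * C')) ^ 2) (1 / (4 * T))) ≤
          1 / (4 * T) := (min_le_right _ _).trans (min_le_right _ _)
      rw [le_div_iff₀ (by positivity)] at h2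
      linarith
  obtain ⟨U, e, happ, hnw, hi0, hnw0⟩ := hK ν hν0
  obtain ⟨X₀, hX₀⟩ : ∃ X₀ : ℝ, X₀ = 2 + 2 / (rm ^ 8) ^ 2 * T := ⟨_, rfl⟩
  have hX0 : 0 ≤ X₀ := by rw [hX₀]; positivity
  have hle8 : rm ^ 8 ≤ r₀ ^ 8 := pow_le_pow_left₀ hrm.le hrm' 8
  have hlo : 0 < rm ^ 8 / 2 := by positivity
  have hlh : rm ^ 8 / 2 ≤ 2 * r₀ ^ 8 := by linarith
  obtain ⟨P, L, hP, hL⟩ := tr_exists (X₀ := X₀) (r₀ ^ 8) (k := 4) (by norm_num) nrh_cl d4_pos hT0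
    zero_le_one hlo hlh hhi happ
  have h0 : (0:ℝ) ∈ Icc 0 T := ⟨le_rfl, hT0.le⟩
  -- initial state
  have hlt0 : lt (rm ^ 8 / 2) (2 * r₀ ^ 8) P 0 = r₀ ^ 8 := by
    unfold lt
    rw [hP.init]
    exact FlowR_clp (by show rm ^ 8 / 2 < r₀ ^ 8; linarith) (by show r₀ ^ 8 < 2 * r₀ ^ 8; linarith)
  have hxt0 : xt X₀ P 0 = 0 := by
    unfold xt
    rw [hP.init]
    unfold clp
    rw [min_eq_left hX0, max_eq_right (by linarith)]
  have hW0 : Wt 4 (rm ^ 8 / 2) (2 * r₀ ^ 8) X₀ U P 0 = Wf 4 (U 0) (r₀ ^ 8) 0 := by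
    unfold Wt
    rw [hlt0, hxt0]
  have hcl : ∀ t ∈ Icc 0 T, Cl ((1:ℝ) / 2) (1 / 16) (U t) ∧ Cl ((1:ℝ) / 2) (1 / 16) (e t) := by
    intro t ht
    refine ⟨⟨happ.smooth t ht, fun j => ?_⟩, ⟨happ.smooth' t ht, fun j => ?_⟩⟩
    · obtain ⟨D, hD⟩ := happ.bound j
      exact ⟨D, hD t ht⟩
    · obtain ⟨D, hD⟩ := happ.bound' j
      exact ⟨D, hD t ht⟩
  have hQ : Cl 1 1 (Qf 4) := Q_cl (by norm_num)
  have hadm : ∀ t ∈ Icc 0 T, ∀ l x : ℝ, 0 < l → l ≤ 1 →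
      Cl (l * (1 / 2)) (l * (1 / 16)) (fun y => Wf 4 (U t) l x y - Qf 4 y) ∧
      Cl (l * (1 / 2)) (l * (1 / 16)) (ef 4 (e t) l x) := by
    intro t ht l x hl hl1
    refine ⟨?_, ef_cl zero_le_one hl.le x (hcl t ht).2⟩
    exact H72KB.Cl_sub (Wf_cl zero_le_one hl.le x (hcl t ht).1)
      (Cl_mono (by linarith) (by linarith) hQ)
  obtain ⟨i1, i2, i3, i4⟩ := hini (Wf 4 (U 0) (r₀ ^ 8) 0)
    ⟨r₀ ^ 8 * (1 / 2), r₀ ^ 8 * (1 / 16), by positivity, by linarith, by positivity, by linarith,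
      (hadm 0 h0 (r₀ ^ 8) 0 hr₀8' (by linarith)).1⟩ (by
      have e1 : (fun y => Wf 4 (U 0) (r₀ ^ 8) 0 y - W0 Pp Ee w1 r₀ y) =
          Wf 4 (fun x => U 0 x - dat4 Pp Ee w1 r₀ x) (r₀ ^ 8) 0 := by
        funext y
        rw [← scl_dat Pp Ee w1 hr₀ y]
        unfold Wf
        ring
      rw [e1]
      exact ((scl_ne ((happ.smooth 0 h0).sub hdat.1) hi0 hr₀8' (by linarith) 0).1.trans hnw0).trans
        b2)
  have hne0 : ne2 (fun y => Wf 4 (U 0) (r₀ ^ 8) 0 y - W0 Pp Ee w1 r₀ y) ≤ ν := by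
    have e1 : (fun y => Wf 4 (U 0) (r₀ ^ 8) 0 y - W0 Pp Ee w1 r₀ y) =
        Wf 4 (fun x => U 0 x - dat4 Pp Ee w1 r₀ x) (r₀ ^ 8) 0 := by
      funext y
      rw [← scl_dat Pp Ee w1 hr₀ y]
      unfold Wf
      ring
    rw [e1]
    exact (scl_ne ((happ.smooth 0 h0).sub hdat.1) hi0 hr₀8' (by linarith) 0).1.trans hnw0
  have hsq : C' * √(ne2 (fun y => Wf 4 (U 0) (r₀ ^ 8) 0 y - W0 Pp Ee w1 r₀ y)) < rm ^ 30 :=
    lt_of_le_of_lt (mul_le_mul_of_nonneg_left (Real.sqrt_le_sqrt hne0) hC'.le) b3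
  have hmass0 : ∫ x, (U 0 x) ^ 2 ≤ (∫ y, (Qf 4 y) ^ 2) + 1 / 4 := by
    rw [← scl_sq (U 0) hr₀8' 0]
    exact i2
  have hmass := mass (ν := ν) (by norm_num : 1 ≤ 4) hT0 (by norm_num : (0:ℝ) < 1) happ
    (fun t ht => (hnw t ht).2) (fun t ht => happ.int' t ht)
  refine core4 hpr hB hGA.hδ hK9' hKE' hδ0 (ν₁ := rm ^ 30) (by positivity) hr₀ hhi hT
    (le_refl (1:ℝ)) hrm hrm' hX₀ happ hP L hL (K0 := K0) (K9 := K9) (KE := KE) (Ca := Ca)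
    (KN := KN) (K5 := K5) (σ := 2 * K5 * r₀) (δ0 := δ0) (η := η) (γ := γ) (M := M) ?_ ?_
  · intro t ht g1 g2 g3 htrd hq hrr
    have hlt : lt (rm ^ 8 / 2) (2 * r₀ ^ 8) P t = (P t).1 := FlowR_clp g1 g2
    obtain ⟨hrp, hr8⟩ := rt_pow (hi := 2 * r₀ ^ 8) hlo P t
    rw [hlt] at hr8
    have hxt : xt X₀ P t = (P t).2 := FlowR_clp (abs_lt.1 g3).1 (abs_lt.1 g3).2
    have hWt : Wt 4 (rm ^ 8 / 2) (2 * r₀ ^ 8) X₀ U P t = Wf 4 (U t)
        ((rt (rm ^ 8 / 2) (2 * r₀ ^ 8) P t) ^ 8) (P t).2 := by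
      unfold Wt
      rw [hlt, hxt, hr8]
    have hft : ft 4 (rm ^ 8 / 2) (2 * r₀ ^ 8) X₀ e P t = ef 4 (e t)
        ((rt (rm ^ 8 / 2) (2 * r₀ ^ 8) P t) ^ 8) (P t).2 := by
      unfold ft
      rw [hlt, hxt, hr8]
    have hwt : wt' 4 nrh d4 (rm ^ 8 / 2) (2 * r₀ ^ 8) X₀ U e P t = wfn 4 nrh d4
        ((rt (rm ^ 8 / 2) (2 * r₀ ^ 8) P t) ^ 8) (Wt 4 (rm ^ 8 / 2) (2 * r₀ ^ 8) X₀ U P t)
        (ft 4 (rm ^ 8 / 2) (2 * r₀ ^ 8) X₀ e P t) := by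
      unfold wt'
      rw [hlt, hr8]
    have hmt : mt' 4 nrh d4 (rm ^ 8 / 2) (2 * r₀ ^ 8) X₀ U e P t = nfn 4 nrh d4
        ((rt (rm ^ 8 / 2) (2 * r₀ ^ 8) P t) ^ 8) (Wt 4 (rm ^ 8 / 2) (2 * r₀ ^ 8) X₀ U P t)
        (ft 4 (rm ^ 8 / 2) (2 * r₀ ^ 8) X₀ e P t) := by
      unfold mt'
      rw [hlt, hr8]
    rw [hwt, hmt]
    have hr20 : rt (rm ^ 8 / 2) (2 * r₀ ^ 8) P t < 2 * r₀ := by
      have h1 : (rt (rm ^ 8 / 2) (2 * r₀ ^ 8) P t) ^ 8 < (2 * r₀) ^ 8 := by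
        rw [hr8, mul_pow]
        refine lt_of_lt_of_le g2 (mul_le_mul_of_nonneg_right (by norm_num) hr₀8'.le)
      exact lt_of_pow_lt_pow_left₀ 8 (by positivity) h1
    obtain ⟨r, hr⟩ : ∃ r : ℝ, r = rt (rm ^ 8 / 2) (2 * r₀ ^ 8) P t := ⟨_, rfl⟩
    obtain ⟨W, hW⟩ : ∃ W : ℝ → ℝ, W = Wt 4 (rm ^ 8 / 2) (2 * r₀ ^ 8) X₀ U P t := ⟨_, rfl⟩
    obtain ⟨F, hF⟩ : ∃ F : ℝ → ℝ, F = ft 4 (rm ^ 8 / 2) (2 * r₀ ^ 8) X₀ e P t := ⟨_, rfl⟩
    rw [← hr] at hrp hr8 hWt hft htrd hr20 ⊢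
    rw [← hW] at hWt htrd hq hrr ⊢
    rw [← hF] at hft ⊢
    have hl0 : 0 < r ^ 8 := by positivity
    have hl1 : r ^ 8 ≤ 1 := by
      rw [hr8]
      linarith
    have hr1le : r ≤ 1 := by linarith
    obtain ⟨k1, k2⟩ := hadm t ht (r ^ 8) (P t).2 hl0 hl1
    rw [← hWt] at k1
    rw [← hft] at k2
    have hp0 : 0 < r ^ 8 * (1 / 2) := by positivity
    have hq0 : 0 < r ^ 8 * (1 / 16) := by positivity
    have hp2 : r ^ 8 * (1 / 2) ≤ 1 / 2 := by linarith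
    have hq2 : r ^ 8 * (1 / 16) ≤ 1 / 2 := by linarith
    -- the gradient is not small, `rm ≤ r`
    have hrr1 : r ^ 2 ≤ 2 * r₀ * 1 := by
      rw [sq]
      exact mul_le_mul hr20.le hr1le hrp.le (by positivity)
    have hX1 : Xn (fun y => W y - Qf 4 y) ≤ 1 / 4 * q1 := by
      have := htrd.g8
      linarith
    have hx1 := fin_x1 hp0 hq0 (by linarith) (by linarith) k1 hX1
    have hrml : rm ≤ r := by
      refine scl_low (happ.smooth t ht) (happ.int t ht) hrp hrm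
        ((hnw t ht).1.trans (le_max_left _ _)) hrmK hK'0 (x := (P t).2) ?_
      rw [← hWt]
      exact hx1
    -- the determinant
    have hsup : ∀ y, |W y - Qf 4 y| ≤ g := by
      intro y
      have h1 := Cl_sup hp0 hq0 k1 y
      have h2 : (∫ z, (W z - Qf 4 z) ^ 2) ≤ 1 := htrd.g9.le
      have h3 : (∫ z, (deriv (fun y => W y - Qf 4 y) z) ^ 2) ≤ r ^ 2 := htrd.g8.le
      have h30 : 0 ≤ ∫ z, (deriv (fun y => W y - Qf 4 y) z) ^ 2 :=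
        integral_nonneg fun z => sq_nonneg _
      have h4 : |W y - Qf 4 y| ^ 4 ≤ 4 * 1 * r ^ 2 := by
        refine h1.trans (mul_le_mul (mul_le_mul_of_nonneg_left h2 (by norm_num)) h3 h30
          (by norm_num))
      have h5 : 4 * 1 * r ^ 2 ≤ g ^ 4 := by
        have h6 : r ^ 2 ≤ (2 * r₀) ^ 2 := pow_le_pow_left₀ hrp.le hr20.le 2
        have h7 : (4 * r₀) ^ 2 ≤ (g ^ 2) ^ 2 := pow_le_pow_left₀ (by positivity) a5 2
        have h8 : (g ^ 2) ^ 2 = g ^ 4 := by ring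
        linarith only [h6, h7, h8, sq_nonneg r₀]
      exact (pow_le_pow_iff_left₀ (abs_nonneg _) hg0.le (by norm_num)).1 (h4.trans h5)
    have hdet : d4 < Dt 4 nrh W := by
      have h1 := hg (r ^ 8 * (1 / 2)) (r ^ 8 * (1 / 16)) (fun y => W y - Qf 4 y) hp0 hq0 k1 hsup
      have e1 : (fun y => Qf 4 y + (W y - Qf 4 y)) = W := by
        funext y
        ring
      rwa [e1] at h1
    obtain ⟨o1, o2⟩ := orth4 hp0 hq0 (by linarith) (by linarith) k1 k2 (r ^ 8) hdet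
    have hr30 : rm ^ 30 ≤ r ^ 30 := pow_le_pow_left₀ hrm.le hrml 30
    have hr60 : rm ^ 60 ≤ r ^ 60 := pow_le_pow_left₀ hrm.le hrml 60
    have hfac : Fac Pp Ee r (wfn 4 nrh d4 (r ^ 8) W F) (nfn 4 nrh d4 (r ^ 8) W F) W F := by
      refine ⟨hpr, hrp, ⟨_, _, hp0, hp2, hq0, hq2, k1, k2⟩, o1, o2, ?_, hq.le.trans hr30,
        hrr.le.trans hr30, ?_⟩
      · rw [hft]
        exact (((scl_ne (happ.smooth' t ht) (happ.int' t ht) hl0 hl1 (P t).2).2.trans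
          (hnw t ht).2).trans b1).trans hr60
      · rw [hWt, scl_sq (U t) hl0 (P t).2]
        have := hmass t ht
        linarith
    refine ⟨hrml, htrap (2 * K5 * r₀) t r _ _ W F (by linarith) ht.1 ?_ a4 hfac htrd, o1, o2⟩
    exact (mul_le_mul_of_nonneg_left ht.2 hKN.le).trans hKT
  · rw [hW0]
    exact ⟨i1, lt_of_le_of_lt i3 hsq, lt_of_le_of_lt i4 hsq⟩

end H72KC
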