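import Pool.Agent.H72.KC.CJc

/-!
# Row CAl: continuity of `α = alf (r^2) W`

`alf s W = ∫ ξ in 1..2, W (ξ/s) * pw ξ`, `pw` is a polynomial.
Proof.  `(t,ξ) ↦ W t (ξ/(r t)^2) * pw ξ` is continuous on `S × [1,2]` (`fa_jc` with `j = 0`, `iteratedDeriv_zero`; `r` is continuous
and `≥ θ > 0` on `S`), bounded by `C * K` (`|W| ≤ C` by `F.bd 0`, `bd ≤ 1`; `|pw| ≤ K := 630` on `[1,2]`).  Use
`intervalIntegral.continuousWithinAt_of_dominated_interval` (or `continuousWithinAt_of_dominated` for the measure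
restricted to `Ioc 1 2`) at each `t ∈ S`.  `bnd_al'`: `|∫_1^2 f| ≤ sup |f|` (`intervalIntegral.norm_integral_le_of_norm_le_const`).
-/

open MeasureTheory Filter Topology Set
open scoped ContDiff

namespace H72KC

open H98KB H72KB H68KC

theorem CAl_bd_le_one {θ : ℝ} (h : 0 ≤ θ) (y : ℝ) : H98KB.bd θ θ y ≤ 1 := by
  unfold H98KB.bd
  rw [Real.exp_le_one_iff]
  have h1 : 0 ≤ θ * max y 0 := mul_nonneg h (le_max_right _ _)
  have h2 : 0 ≤ θ * max (-y) 0 := mul_nonneg h (le_max_right _ _)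
  linarith

theorem CAl_pw {ξ : ℝ} (h : ξ ∈ Set.uIoc (1 : ℝ) 2) : |pw ξ| ≤ 630 := by
  rw [Set.uIoc_of_le (by norm_num)] at h
  obtain ⟨h1, h2⟩ := h
  unfold pw
  have h3 : (ξ - 1) ^ 4 ≤ 1 := pow_le_one₀ (by linarith) (by linarith)
  have h4 : (2 - ξ) ^ 4 ≤ 1 := pow_le_one₀ (by linarith) (by linarith)
  have h5 : 0 ≤ (ξ - 1) ^ 4 := by positivity
  have h6 : 0 ≤ (2 - ξ) ^ 4 := by positivity
  rw [abs_of_nonneg (by positivity)]
  have h7 : (ξ - 1) ^ 4 * (2 - ξ) ^ 4 ≤ 1 := by nlinarith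
  nlinarith

theorem CAl_bnd {θ : ℝ} {S : Set ℝ} {r : ℝ → ℝ} {W : ℝ → ℝ → ℝ} (F : Fa θ S r W) :
    ∃ C : ℝ, 0 ≤ C ∧ ∀ t ∈ S, ∀ y, |W t y| ≤ C := by
  obtain ⟨C, hC, hb⟩ := F.bd 0
  refine ⟨C, hC, fun t ht y => ?_⟩
  have h1 := hb t ht y
  rw [iteratedDeriv_zero] at h1
  have h2 := CAl_bd_le_one F.θ0.le y
  calc |W t y| ≤ C * H98KB.bd θ θ y := h1
    _ ≤ C * 1 := mul_le_mul_of_nonneg_left h2 hC
    _ = C := mul_one C

theorem con_alf {θ : ℝ} {S : Set ℝ} {r : ℝ → ℝ} {W : ℝ → ℝ → ℝ} (F : Fa θ S r W) :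
    ContinuousOn (fun t => alf ((r t) ^ 2) (W t)) S := by
  obtain ⟨C, hC, hb⟩ := CAl_bnd F
  intro t ht
  unfold alf
  refine intervalIntegral.continuousWithinAt_of_dominated_interval (bound := fun _ => C * 630) ?_ ?_ ?_ ?_
  · filter_upwards [self_mem_nhdsWithin] with τ hτ
    refine Continuous.aestronglyMeasurable ?_
    have h1 : Continuous (W τ) := (F.sm τ hτ).continuous
    have h2 : Continuous pw := by
      unfold pw
      fun_prop
    exact (h1.comp (continuous_id.div_const _)).mul h2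
  · filter_upwards [self_mem_nhdsWithin] with τ hτ
    refine Eventually.of_forall fun ξ hξ => ?_
    rw [Real.norm_eq_abs, abs_mul]
    exact mul_le_mul (hb τ hτ _) (CAl_pw hξ) (abs_nonneg _) hC
  · exact intervalIntegrable_const
  · refine Eventually.of_forall fun ξ _ => ?_
    refine ContinuousWithinAt.mul ?_ continuousWithinAt_const
    have h1 := fa_jc F 0
    have h2 : ContinuousWithinAt (fun q : ℝ × ℝ => iteratedDeriv 0 (W q.1) q.2) (S ×ˢ univ) (t, ξ / (r t) ^ 2) :=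
      h1 (t, ξ / (r t) ^ 2) ⟨ht, mem_univ _⟩
    have h3 : ContinuousWithinAt (fun τ : ℝ => (τ, ξ / (r τ) ^ 2)) S t := by
      refine continuousWithinAt_id.prodMk ?_
      refine continuousWithinAt_const.div ((F.cr t ht).pow 2) ?_
      have : 0 < r t := F.θ0.trans_le (F.lo t ht)
      positivity
    have h4 := ContinuousWithinAt.comp (g := fun q : ℝ × ℝ => iteratedDeriv 0 (W q.1) q.2)
      (f := fun τ : ℝ => (τ, ξ / (r τ) ^ 2)) (x := t) h2 h3 (fun τ hτ => ⟨hτ, mem_univ _⟩)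
    refine h4.congr (fun τ _ => ?_) ?_
    · simp [Function.comp, iteratedDeriv_zero]
    · simp [Function.comp, iteratedDeriv_zero]

theorem bnd_al' {θ : ℝ} {S : Set ℝ} {r : ℝ → ℝ} {W : ℝ → ℝ → ℝ} (F : Fa θ S r W) :
    ∃ K : ℝ, 0 ≤ K ∧ ∀ t ∈ S, |alf ((r t) ^ 2) (W t)| ≤ K := by
  obtain ⟨C, hC, hb⟩ := CAl_bnd F
  refine ⟨C * 630, by positivity, fun t ht => ?_⟩
  unfold alf
  have h1 := intervalIntegral.norm_integral_le_of_norm_le_const (a := 1) (b := 2) (C := C * 630)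
    (f := fun ξ => W t (ξ / (r t) ^ 2) * pw ξ) (fun ξ hξ => by
      rw [Real.norm_eq_abs, abs_mul]
      exact mul_le_mul (hb t ht _) (CAl_pw hξ) (abs_nonneg _) hC)
  rw [Real.norm_eq_abs] at h1
  have h2 : C * 630 * |(2 : ℝ) - 1| = C * 630 := by norm_num
  rwa [h2] at h1

end H72KC
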