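import Pool.Agent.H72.KC.CJc
import Pool.Agent.H72.KB.FlowR

/-!
# Row DAl: time derivative of `α = alf (r^2) W`

`alf s W = ∫ ξ in 1..2, W (ξ/s) * pw ξ`, `alD s w W Z = ∫ ξ in 1..2, (Z (ξ/s) + 1/4*w*(ξ/s)*deriv W (ξ/s)) * pw ξ`.
Proof.  For fixed `ξ`, `z(τ) = ξ / (r τ)^2` has derivative `-2 ξ r' / r^3 = (w/4) (ξ/r^2) / r^24` (`F.dr`: `r' = -(w r/8)/r^24`).
CHAIN RULE `FlowR_chain` (in `KB/FlowR.lean`) with `V τ y = W τ y`, `V' τ y = deriv (W τ) y` (`h1` = `F.ev 0`, `h2` from smoothness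
`F.sm`, `h3` = `flo_jc F 1`, with `iteratedDeriv_zero`, `iteratedDeriv_one`):
 `d/dτ W τ (z τ) = Z/r^24 + deriv W (z) * (w/4)(ξ/r^2)/r^24 = (Z(z) + 1/4 w z W'(z)) / r^24`.
Then `intervalIntegral.hasDerivAt_integral_of_dominated_loc_of_deriv_le` on the open set `J` (`∈ 𝓝 t`); all integrands are
continuous in `ξ` on `[1,2]` (compositions; `(r τ)^2 > 0`), the derivative is bounded by
`(C + 1/4 Cw (2/θ^2) C)/θ^24 * 630`.  Finally `∫ (..)/r^24 = alD / r^24`.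
`bnd_al`: `|∫_1^2 f| ≤ sup|f|` (`intervalIntegral.norm_integral_le_of_norm_le_const`), `|pw| ≤ 630` on `[1,2]`,
`|ξ/s| ≤ 2/θ^2`.
-/

open MeasureTheory Filter Topology Set
open scoped ContDiff

namespace H72KC

open H98KB H72KB H68KC

theorem DAl_pw {ξ : ℝ} (h1 : 1 ≤ ξ) (h2 : ξ ≤ 2) : |pw ξ| ≤ 630 := by
  unfold pw
  have a0 : 0 ≤ ξ - 1 := by linarith
  have a1 : ξ - 1 ≤ 1 := by linarith
  have b0 : 0 ≤ 2 - ξ := by linarith
  have b1 : 2 - ξ ≤ 1 := by linarith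
  have c1 : (ξ - 1) ^ 4 ≤ 1 := pow_le_one₀ a0 a1
  have c2 : (2 - ξ) ^ 4 ≤ 1 := pow_le_one₀ b0 b1
  have d1 : 0 ≤ (ξ - 1) ^ 4 := by positivity
  have d2 : 0 ≤ (2 - ξ) ^ 4 := by positivity
  rw [abs_of_nonneg (by positivity)]
  have : (ξ - 1) ^ 4 * (2 - ξ) ^ 4 ≤ 1 := mul_le_one₀ c1 d2 c2
  calc 630 * (ξ - 1) ^ 4 * (2 - ξ) ^ 4 = 630 * ((ξ - 1) ^ 4 * (2 - ξ) ^ 4) := by ring
    _ ≤ 630 * 1 := by linarith
    _ = 630 := by norm_num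

theorem DAl_cpw : Continuous pw := by
  unfold pw
  fun_prop

theorem DAl_bds {θ : ℝ} {J : Set ℝ} {r w : ℝ → ℝ} {W Z : ℝ → ℝ → ℝ} (F : Flo θ J r w W Z) :
    ∃ C : ℝ, 0 ≤ C ∧ ∀ t ∈ J, |w t| ≤ C ∧
      ∀ y, |W t y| ≤ C ∧ |Z t y| ≤ C ∧ |deriv (W t) y| ≤ C := by
  obtain ⟨C0, h0, hC0⟩ := F.bd 0
  obtain ⟨C1, h1, hC1⟩ := F.bd 1
  obtain ⟨Cw, hw, hCw⟩ := F.bw
  have hb : ∀ y, H98KB.bd θ θ y ≤ 1 := fun y => bd_le_one F.θ0.le F.θ0.le y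
  have hb0 : ∀ y, 0 ≤ H98KB.bd θ θ y := fun y => (bd_pos _ _ _).le
  refine ⟨C0 + C1 + Cw, by linarith, fun t ht => ⟨by linarith [hCw t ht], fun y => ?_⟩⟩
  have a := hC0 t ht y
  have b := hC1 t ht y
  rw [iteratedDeriv_zero, iteratedDeriv_zero] at a
  rw [iteratedDeriv_one] at b
  have c : C0 * H98KB.bd θ θ y ≤ C0 := mul_le_of_le_one_right h0 (hb y)
  have d : C1 * H98KB.bd θ θ y ≤ C1 := mul_le_of_le_one_right h1 (hb y)
  exact ⟨by linarith [a.1], by linarith [a.2], by linarith [b.1]⟩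

theorem DAl_q {θ : ℝ} {J : Set ℝ} {r w : ℝ → ℝ} {W Z : ℝ → ℝ → ℝ} (F : Flo θ J r w W Z)
    {t : ℝ} (ht : t ∈ J) {ξ : ℝ} (h1 : 1 ≤ ξ) (h2 : ξ ≤ 2) : |ξ / (r t) ^ 2| ≤ 2 / θ ^ 2 := by
  have h3 := F.lo t ht
  have h4 := F.θ0
  have h5 : 0 < (r t) ^ 2 := by have := lt_of_lt_of_le h4 h3; positivity
  rw [abs_of_nonneg (by positivity)]
  gcongr

theorem DAl_int {θ : ℝ} {J : Set ℝ} {r w : ℝ → ℝ} {W Z : ℝ → ℝ → ℝ} (F : Flo θ J r w W Z)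
    {C : ℝ} (h0 : 0 ≤ C) (hC : ∀ t ∈ J, |w t| ≤ C ∧
      ∀ y, |W t y| ≤ C ∧ |Z t y| ≤ C ∧ |deriv (W t) y| ≤ C)
    {t : ℝ} (ht : t ∈ J) {ξ : ℝ} (h1 : 1 ≤ ξ) (h2 : ξ ≤ 2) :
    |(Z t (ξ / (r t) ^ 2) + 1 / 4 * w t * (ξ / (r t) ^ 2) * deriv (W t) (ξ / (r t) ^ 2)) * pw ξ| ≤
      (C + 1 / 4 * C * (2 / θ ^ 2) * C) * 630 := by
  obtain ⟨hw, hy⟩ := hC t ht
  obtain ⟨-, hz, hd⟩ := hy (ξ / (r t) ^ 2)
  have hq := DAl_q F ht h1 h2
  have hp := DAl_pw h1 h2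
  have hθ := F.θ0
  rw [abs_mul]
  refine mul_le_mul ?_ hp (abs_nonneg _) (by positivity)
  refine (abs_add_le _ _).trans (add_le_add hz ?_)
  rw [abs_mul, abs_mul, abs_mul, abs_of_pos (by norm_num : (0 : ℝ) < 1 / 4)]
  gcongr

theorem der_alf {θ : ℝ} {J : Set ℝ} {r w : ℝ → ℝ} {W Z : ℝ → ℝ → ℝ} (F : Flo θ J r w W Z)
    {t : ℝ} (ht : t ∈ J) :
    HasDerivAt (fun τ => alf ((r τ) ^ 2) (W τ))
      (alD ((r t) ^ 2) (w t) (W t) (Z t) / (r t) ^ 24) t := by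
  obtain ⟨C, h0, hC⟩ := DAl_bds F
  have hθ := F.θ0
  have hr : ∀ τ ∈ J, 0 < r τ := fun τ hτ => lt_of_lt_of_le hθ (F.lo τ hτ)
  have hcW : ∀ τ ∈ J, Continuous (W τ) := fun τ hτ => (F.sm τ hτ).continuous
  have hcZ : ∀ τ ∈ J, Continuous (Z τ) := fun τ hτ => (F.sz τ hτ).continuous
  have hcD : ∀ τ ∈ J, Continuous (deriv (W τ)) := fun τ hτ =>
    (contDiff_infty_iff_deriv.1 (F.sm τ hτ)).2.continuous
  have hc1 : ∀ τ ∈ J, Continuous (fun ξ : ℝ => W τ (ξ / (r τ) ^ 2) * pw ξ) := fun τ hτ =>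
    ((hcW τ hτ).comp (continuous_id.div_const _)).mul DAl_cpw
  have hc2 : ∀ τ ∈ J, Continuous (fun ξ : ℝ => (Z τ (ξ / (r τ) ^ 2) +
      1 / 4 * w τ * (ξ / (r τ) ^ 2) * deriv (W τ) (ξ / (r τ) ^ 2)) * pw ξ / (r τ) ^ 24) :=
    fun τ hτ => ((((hcZ τ hτ).comp (continuous_id.div_const _)).add
      ((continuous_const.mul (continuous_id.div_const _)).mul
        ((hcD τ hτ).comp (continuous_id.div_const _)))).mul DAl_cpw).div_const _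
  have key := intervalIntegral.hasDerivAt_integral_of_dominated_loc_of_deriv_le
    (μ := volume) (a := 1) (b := 2) (x₀ := t) (s := J)
    (F := fun τ ξ => W τ (ξ / (r τ) ^ 2) * pw ξ)
    (F' := fun τ ξ => (Z τ (ξ / (r τ) ^ 2) +
      1 / 4 * w τ * (ξ / (r τ) ^ 2) * deriv (W τ) (ξ / (r τ) ^ 2)) * pw ξ / (r τ) ^ 24)
    (bound := fun _ => (C + 1 / 4 * C * (2 / θ ^ 2) * C) * 630 / θ ^ 24)
    (F.op.mem_nhds ht)
    (Filter.eventually_of_mem (F.op.mem_nhds ht) fun τ hτ => (hc1 τ hτ).aestronglyMeasurable)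
    ((hc1 t ht).intervalIntegrable _ _)
    (hc2 t ht).aestronglyMeasurable
    (Eventually.of_forall fun ξ hξ τ hτ => by
      rw [uIoc_of_le (by norm_num)] at hξ
      have h1 := DAl_int F h0 hC hτ hξ.1.le hξ.2
      rw [Real.norm_eq_abs, abs_div, abs_of_pos (pow_pos (hr τ hτ) 24)]
      have h2 : θ ^ 24 ≤ (r τ) ^ 24 := pow_le_pow_left₀ hθ.le (F.lo τ hτ) 24
      have h3 : 0 < θ ^ 24 := by positivity
      gcongr)
    intervalIntegrable_const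
    (Eventually.of_forall fun ξ hξ τ hτ => by
      have hrτ := hr τ hτ
      have e0 : HasDerivAt (fun τ => W τ (ξ / (r τ) ^ 2)) (Z τ (ξ / (r τ) ^ 2) / (r τ) ^ 24 +
          deriv (W τ) (ξ / (r τ) ^ 2) *
            ((1 / 4 * w τ * (ξ / (r τ) ^ 2)) / (r τ) ^ 24)) τ := by
        have hz : HasDerivAt (fun τ => ξ / (r τ) ^ 2)
            ((1 / 4 * w τ * (ξ / (r τ) ^ 2)) / (r τ) ^ 24) τ := by
          have h1 := ((F.dr τ hτ).pow 2)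
          have h2 := (hasDerivAt_const τ ξ).div h1 (by simp only [Pi.pow_apply]; positivity)
          refine (h2.congr_deriv ?_).congr_of_eventuallyEq (Eventually.of_forall fun _ => rfl)
          simp only [Pi.pow_apply]
          field_simp
          ring
        have hev := F.ev 0 τ hτ (ξ / (r τ) ^ 2)
        have hjc := flo_jc F 1 hτ (ξ / (r τ) ^ 2)
        simp only [iteratedDeriv_zero] at hev
        simp only [iteratedDeriv_one] at hjc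
        exact FlowR_chain (V := fun τ y => W τ y) (V' := fun τ y => deriv (W τ) y)
          (z := fun τ => ξ / (r τ) ^ 2) (F.op.mem_nhds hτ) hev
          (fun σ hσ y => (((F.sm σ hσ).differentiable (by simp)) y).hasDerivAt) hjc hz
      refine (e0.mul_const (pw ξ)).congr_deriv ?_
      ring)
  refine key.2.congr_deriv ?_
  unfold alD
  rw [intervalIntegral.integral_div]

theorem bnd_al {θ : ℝ} {J : Set ℝ} {r w : ℝ → ℝ} {W Z : ℝ → ℝ → ℝ} (F : Flo θ J r w W Z) :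
    ∃ K : ℝ, 0 ≤ K ∧ ∀ t ∈ J, |alf ((r t) ^ 2) (W t)| ≤ K ∧
      |alD ((r t) ^ 2) (w t) (W t) (Z t)| ≤ K := by
  obtain ⟨C, h0, hC⟩ := DAl_bds F
  have hθ := F.θ0
  refine ⟨(C + 1 / 4 * C * (2 / θ ^ 2) * C) * 630, by positivity, fun t ht => ⟨?_, ?_⟩⟩
  · unfold alf
    have h1 := intervalIntegral.norm_integral_le_of_norm_le_const
      (a := (1 : ℝ)) (b := 2) (f := fun ξ => W t (ξ / (r t) ^ 2) * pw ξ) (C := C * 630)
      (fun ξ hξ => by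
        rw [uIoc_of_le (by norm_num)] at hξ
        rw [Real.norm_eq_abs, abs_mul]
        exact mul_le_mul ((hC t ht).2 _).1 (DAl_pw hξ.1.le hξ.2) (abs_nonneg _) h0)
    rw [Real.norm_eq_abs] at h1
    have h2 : |(2 : ℝ) - 1| = 1 := by norm_num
    rw [h2, mul_one] at h1
    refine h1.trans ?_
    have h3 : 0 ≤ 1 / 4 * C * (2 / θ ^ 2) * C := by positivity
    nlinarith
  · unfold alD
    have h1 := intervalIntegral.norm_integral_le_of_norm_le_const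
      (a := (1 : ℝ)) (b := 2) (f := fun ξ => (Z t (ξ / (r t) ^ 2) +
        1 / 4 * w t * (ξ / (r t) ^ 2) * deriv (W t) (ξ / (r t) ^ 2)) * pw ξ)
      (C := (C + 1 / 4 * C * (2 / θ ^ 2) * C) * 630)
      (fun ξ hξ => by
        rw [uIoc_of_le (by norm_num)] at hξ
        rw [Real.norm_eq_abs]
        exact DAl_int F h0 hC ht hξ.1.le hξ.2)
    rw [Real.norm_eq_abs] at h1
    have h2 : |(2 : ℝ) - 1| = 1 := by norm_num
    rw [h2, mul_one] at h1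
    exact h1

end H72KC
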