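import Pool.Agent.H72.KC.CIp
import Pool.Agent.H72.KC.CAl
import Pool.Agent.H72.KC.DAl
import Pool.Agent.H72.KB.QBas

/-!
# Row BBq: the parameter `b = bq (r^2) W`: continuity, derivative, bounds

`bq s W = (ip (fun y => W y - Qf 4 y) (Qf 4) - alf s W * (Iq/4)) * (16/Iq^2)`,
`bqD s w W Z = (ip Z (Qf 4) - alD s w W Z * (Iq/4)) * (16/Iq^2)`.
Proof.  `ip (W - Q) Q = ip W Q - ip Q Q` (both integrable: `Qf 4` is of class `Cl 1 1` by `Q_cl`, in particular continuous and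
bounded; `W t` is bounded by `C bd θ θ`, use `bd_int`), so everything follows from `con_ip, der_ip, bnd_ip, bnd_ip'`
(`φ = Qf 4`) and `con_alf, der_alf, bnd_al, bnd_al'`.
-/

open MeasureTheory Filter Topology Set
open scoped ContDiff

namespace H72KC

open H98KB H72KB H68KC

theorem BBq_cQ : Continuous (Qf 4) := (Q_cl (k := 4) (by norm_num)).1.continuous

theorem BBq_bQ : ∃ C : ℝ, ∀ y, |Qf 4 y| ≤ C :=
  Cl_bdd (by norm_num) (by norm_num) (Q_cl (k := 4) (by norm_num))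

theorem BBq_eq {θ : ℝ} (hθ : 0 < θ) {W : ℝ → ℝ} (hW : Cl θ θ W) (s : ℝ) :
    bq s W = (ip W (Qf 4) - ip (Qf 4) (Qf 4) - alf s W * (Iq / 4)) * (16 / Iq ^ 2) := by
  obtain ⟨C, hC⟩ := BBq_bQ
  have i1 : Integrable (fun y => W y * Qf 4 y) := Cl_int_mul hθ hθ hW BBq_cQ C hC
  have i2 : Integrable (fun y => Qf 4 y * Qf 4 y) :=
    Cl_int_mul (p := 1) (q := 1) (by norm_num) (by norm_num) (Q_cl (k := 4) (by norm_num)) BBq_cQ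
      C hC
  have e : ip (fun y => W y - Qf 4 y) (Qf 4) = ip W (Qf 4) - ip (Qf 4) (Qf 4) := by
    unfold ip
    rw [← integral_sub i1 i2]
    congr 1
    funext y
    ring
  unfold bq
  rw [e]

theorem BBq_Fa {θ : ℝ} {S : Set ℝ} {r : ℝ → ℝ} {W : ℝ → ℝ → ℝ} (F : Fa θ S r W) {t : ℝ}
    (ht : t ∈ S) : Cl θ θ (W t) := by
  refine ⟨F.sm t ht, fun j => ?_⟩
  obtain ⟨C, _, hC⟩ := F.bd j
  exact ⟨C, fun y => hC t ht y⟩

theorem BBq_Flo {θ : ℝ} {J : Set ℝ} {r w : ℝ → ℝ} {W Z : ℝ → ℝ → ℝ} (F : Flo θ J r w W Z)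
    {t : ℝ} (ht : t ∈ J) : Cl θ θ (W t) := by
  refine ⟨F.sm t ht, fun j => ?_⟩
  obtain ⟨C, _, hC⟩ := F.bd j
  exact ⟨C, fun y => (hC t ht y).1⟩

theorem con_bq {θ : ℝ} {S : Set ℝ} {r : ℝ → ℝ} {W : ℝ → ℝ → ℝ} (F : Fa θ S r W) :
    ContinuousOn (fun t => bq ((r t) ^ 2) (W t)) S := by
  obtain ⟨C, hC⟩ := BBq_bQ
  have h1 : ContinuousOn (fun t => (ip (W t) (Qf 4) - ip (Qf 4) (Qf 4) -
      alf ((r t) ^ 2) (W t) * (Iq / 4)) * (16 / Iq ^ 2)) S :=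
    (((con_ip F BBq_cQ hC).sub continuousOn_const).sub
      ((con_alf F).mul continuousOn_const)).mul continuousOn_const
  exact h1.congr (fun t ht => BBq_eq F.θ0 (BBq_Fa F ht) _)

theorem BBq_abs (a b c d e A B : ℝ) (ha : |a| ≤ A) (hc : |c| ≤ B) :
    |(a - b - c * d) * e| ≤ (A + |b| + B * |d|) * |e| := by
  rw [abs_mul]
  refine mul_le_mul_of_nonneg_right ?_ (abs_nonneg _)
  have h1 : |a - b - c * d| ≤ |a| + |b| + |c| * |d| := by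
    rw [← abs_mul]
    exact (abs_sub _ _).trans (add_le_add_left (abs_sub _ _) _)
  have h2 : |c| * |d| ≤ B * |d| := mul_le_mul_of_nonneg_right hc (abs_nonneg _)
  linarith

theorem bnd_bq' {θ : ℝ} {S : Set ℝ} {r : ℝ → ℝ} {W : ℝ → ℝ → ℝ} (F : Fa θ S r W) :
    ∃ K : ℝ, 0 ≤ K ∧ ∀ t ∈ S, |bq ((r t) ^ 2) (W t)| ≤ K := by
  obtain ⟨C, hC⟩ := BBq_bQ
  obtain ⟨A, hA0, hA⟩ := bnd_ip' F BBq_cQ hC
  obtain ⟨B, hB0, hB⟩ := bnd_al' F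
  refine ⟨(A + |ip (Qf 4) (Qf 4)| + B * |Iq / 4|) * |16 / Iq ^ 2|, by positivity, fun t ht => ?_⟩
  rw [BBq_eq F.θ0 (BBq_Fa F ht)]
  exact BBq_abs _ _ _ _ _ _ _ (hA t ht) (hB t ht)

theorem der_bq {θ : ℝ} {J : Set ℝ} {r w : ℝ → ℝ} {W Z : ℝ → ℝ → ℝ} (F : Flo θ J r w W Z)
    {t : ℝ} (ht : t ∈ J) :
    HasDerivAt (fun τ => bq ((r τ) ^ 2) (W τ))
      (bqD ((r t) ^ 2) (w t) (W t) (Z t) / (r t) ^ 24) t := by
  obtain ⟨C, hC⟩ := BBq_bQ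
  have h1 := (((der_ip F BBq_cQ hC ht).sub_const (ip (Qf 4) (Qf 4))).sub
    ((der_alf F ht).mul_const (Iq / 4))).mul_const (16 / Iq ^ 2)
  have h2 := h1.congr_of_eventuallyEq (f₁ := fun τ => bq ((r τ) ^ 2) (W τ)) (by
    filter_upwards [F.op.mem_nhds ht] with τ hτ
    exact BBq_eq F.θ0 (BBq_Flo F hτ) _)
  refine h2.congr_deriv ?_
  unfold bqD
  ring

theorem bnd_bq {θ : ℝ} {J : Set ℝ} {r w : ℝ → ℝ} {W Z : ℝ → ℝ → ℝ} (F : Flo θ J r w W Z) :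
    ∃ K : ℝ, 0 ≤ K ∧ ∀ t ∈ J, |bq ((r t) ^ 2) (W t)| ≤ K ∧
      |bqD ((r t) ^ 2) (w t) (W t) (Z t)| ≤ K := by
  obtain ⟨C, hC⟩ := BBq_bQ
  obtain ⟨A, hA0, hA⟩ := bnd_ip F BBq_cQ hC
  obtain ⟨B, hB0, hB⟩ := bnd_al F
  refine ⟨(A + |ip (Qf 4) (Qf 4)| + B * |Iq / 4|) * |16 / Iq ^ 2|, by positivity,
    fun t ht => ⟨?_, ?_⟩⟩
  · rw [BBq_eq F.θ0 (BBq_Flo F ht)]
    exact BBq_abs _ _ _ _ _ _ _ (hA t ht).1 (hB t ht).1
  · unfold bqD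
    have h1 := BBq_abs (ip (Z t) (Qf 4)) 0 (alD ((r t) ^ 2) (w t) (W t) (Z t)) (Iq / 4)
      (16 / Iq ^ 2) A B (hA t ht).2 (hB t ht).2
    rw [sub_zero, abs_zero, add_zero] at h1
    refine h1.trans (mul_le_mul_of_nonneg_right ?_ (abs_nonneg _))
    have := abs_nonneg (ip (Qf 4) (Qf 4))
    linarith

end H72KC
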