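import Pool.Agent.H72.KC.BBq

/-!
# Row BEp: the functions `ε(t) = ep P E (r^2) (W t)` form bounded families

`ep P E s W y = W y - Qf 4 y - hf P E (bq s W) (alf s W) y`, `hf P E b α y = b * P y + α * E y`,
`epD P E s w W Z y = Z y - bqD s w W Z * P y - alD s w W Z * E y`.
Proof.  All `iteratedDeriv j P`, `iteratedDeriv j E`, `iteratedDeriv j (Qf 4)` are bounded: for `j ≥ 1`, `iteratedDeriv j P =
iteratedDeriv (j-1) (deriv P)` (`iteratedDeriv_succ'`) and `Prof.dP` (`bd ≤ 1`); `|P| ≤ C + |Iq|/2 + C'` (`Prof.P0, P1`); `E - 1` is of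
class `Cl (3/4) (3/4)` (`Prof.E1`), hence `|E| ≤ 1 + C` and `iteratedDeriv j E = iteratedDeriv j (E - 1)` for `j ≥ 1`; `Q_cl`.
`E = (E - 1) + 1` is smooth.  So `iteratedDeriv j (ep ..) y = iteratedDeriv j W y - iteratedDeriv j Q y - b P^{(j)} y - α E^{(j)} y`
(`iteratedDeriv_fun_sub`, `iteratedDeriv_fun_add`, `iteratedDeriv_const_mul_field`; `ClB_at` style `ContDiffAt` arguments), bounded by
`F.bd j`, `bnd_bq`, `bnd_al`.  Pointwise continuity: `F.co j y`, `con_bq`, `con_alf`.  Pointwise derivative: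
`F.ev j`, `der_bq`, `der_alf` (constants `P^{(j)} y`, `E^{(j)} y`); the same formula for `iteratedDeriv j (epD ..)`.
-/

open MeasureTheory Filter Topology Set
open scoped ContDiff

namespace H72KC

open H98KB H72KB H68KC

theorem BEp_smE {P E : ℝ → ℝ} (hp : Prof P E) : ContDiff ℝ ∞ E := by
  have h := hp.E1.1.add (contDiff_const (c := (1 : ℝ)))
  have h2 : (fun y => (E y - 1) + 1) = E := by
    funext y
    ring
  rw [h2] at h
  exact h

theorem BEp_it (j : ℕ) {f g p e : ℝ → ℝ} (hf : ContDiff ℝ ∞ f) (hg : ContDiff ℝ ∞ g) (hp : ContDiff ℝ ∞ p)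
    (he : ContDiff ℝ ∞ e) (b a y : ℝ) :
    iteratedDeriv j (fun y => f y - g y - (b * p y + a * e y)) y
      = iteratedDeriv j f y - iteratedDeriv j g y - (b * iteratedDeriv j p y + a * iteratedDeriv j e y) := by
  have h1 := ClB_at hf j y
  have h2 := ClB_at hg j y
  have h3 := ClB_at (contDiff_const.mul hp : ContDiff ℝ ∞ (fun y => b * p y)) j y
  have h4 := ClB_at (contDiff_const.mul he : ContDiff ℝ ∞ (fun y => a * e y)) j y
  rw [iteratedDeriv_fun_sub (h1.sub h2) (h3.add h4), iteratedDeriv_fun_sub h1 h2, iteratedDeriv_fun_add h3 h4,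
    iteratedDeriv_const_mul_field, iteratedDeriv_const_mul_field]

theorem BEp_it2 (j : ℕ) {f p e : ℝ → ℝ} (hf : ContDiff ℝ ∞ f) (hp : ContDiff ℝ ∞ p)
    (he : ContDiff ℝ ∞ e) (b a y : ℝ) :
    iteratedDeriv j (fun y => f y - b * p y - a * e y) y
      = iteratedDeriv j f y - b * iteratedDeriv j p y - a * iteratedDeriv j e y := by
  have h1 := ClB_at hf j y
  have h3 := ClB_at (contDiff_const.mul hp : ContDiff ℝ ∞ (fun y => b * p y)) j y
  have h4 := ClB_at (contDiff_const.mul he : ContDiff ℝ ∞ (fun y => a * e y)) j y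
  rw [iteratedDeriv_fun_sub (h1.sub h3) h4, iteratedDeriv_fun_sub h1 h3,
    iteratedDeriv_const_mul_field, iteratedDeriv_const_mul_field]

theorem prof_bnd {P E : ℝ → ℝ} (hp : Prof P E) (j : ℕ) : ∃ C : ℝ, 0 ≤ C ∧ ∀ y,
    |iteratedDeriv j P y| ≤ C ∧ |iteratedDeriv j E y| ≤ C ∧ |iteratedDeriv j (Qf 4) y| ≤ C := by
  obtain ⟨C1, h10, h1⟩ := ClB_pos hp.cP j
  obtain ⟨C2, h20, h2⟩ := ClB_pos hp.E1 j
  obtain ⟨C3, h30, h3⟩ := ClB_pos (Q_cl (k := 4) (by norm_num)) j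
  refine ⟨C1 + (C2 + 1) + C3, by positivity, fun y => ?_⟩
  have e1 : |iteratedDeriv j P y| ≤ C1 :=
    le_trans (h1 y) (mul_le_of_le_one_right h10 (H72KB.bd_le_one (le_refl 0) (le_refl 0) y))
  have e3 : |iteratedDeriv j (Qf 4) y| ≤ C3 :=
    le_trans (h3 y) (mul_le_of_le_one_right h30 (H72KB.bd_le_one (by norm_num) (by norm_num) y))
  have e2 : |iteratedDeriv j (fun y => E y - 1) y| ≤ C2 :=
    le_trans (h2 y) (mul_le_of_le_one_right h20 (H72KB.bd_le_one (by norm_num) (by norm_num) y))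
  have e4 : iteratedDeriv j E y = iteratedDeriv j (fun y => E y - 1) y + iteratedDeriv j (fun _ => (1 : ℝ)) y := by
    rw [← iteratedDeriv_fun_add (ClB_at hp.E1.1 j y) contDiffAt_const]
    congr 1
    funext z
    ring
  have e5 : |iteratedDeriv j (fun _ => (1 : ℝ)) y| ≤ 1 := by
    rw [iteratedDeriv_const]
    split_ifs <;> simp
  have e6 : |iteratedDeriv j E y| ≤ C2 + 1 := by
    rw [e4]
    exact le_trans (abs_add_le _ _) (add_le_add e2 e5)
  refine ⟨by linarith, by linarith, by linarith⟩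

theorem BEp_bound {a b c d e B A P E Q W : ℝ} (h1 : |W| ≤ a) (h2 : |Q| ≤ b) (h3 : |P| ≤ b) (h4 : |E| ≤ b)
    (h5 : |B| ≤ c) (h6 : |A| ≤ d) (h0 : 0 ≤ b) (he : e = a + b + c * b + d * b) :
    |W - Q - (B * P + A * E)| ≤ e := by
  have c0 : 0 ≤ c := le_trans (abs_nonneg _) h5
  have d0 : 0 ≤ d := le_trans (abs_nonneg _) h6
  have e1 : |B * P| ≤ c * b := by
    rw [abs_mul]
    exact mul_le_mul h5 h3 (abs_nonneg _) c0
  have e2 : |A * E| ≤ d * b := by
    rw [abs_mul]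
    exact mul_le_mul h6 h4 (abs_nonneg _) d0
  rw [abs_le] at h1 h2 e1 e2 ⊢
  obtain ⟨p1, p2⟩ := h1
  obtain ⟨p3, p4⟩ := h2
  obtain ⟨p5, p6⟩ := e1
  obtain ⟨p7, p8⟩ := e2
  constructor <;> linarith

theorem BEp_eq {P E : ℝ → ℝ} (hp : Prof P E) (s : ℝ) {W : ℝ → ℝ} (hW : ContDiff ℝ ∞ W) (j : ℕ) (y : ℝ) :
    iteratedDeriv j (ep P E s W) y = iteratedDeriv j W y - iteratedDeriv j (Qf 4) y
      - (bq s W * iteratedDeriv j P y + alf s W * iteratedDeriv j E y) := by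
  have h : ep P E s W = fun y => W y - Qf 4 y - (bq s W * P y + alf s W * E y) := by
    funext z
    rfl
  rw [h]
  exact BEp_it j hW (Q_cl (k := 4) (by norm_num)).1 hp.cP.1 (BEp_smE hp) _ _ y

theorem BEp_eq2 {P E : ℝ → ℝ} (hp : Prof P E) (s w : ℝ) {W Z : ℝ → ℝ} (hZ : ContDiff ℝ ∞ Z) (j : ℕ) (y : ℝ) :
    iteratedDeriv j (epD P E s w W Z) y = iteratedDeriv j Z y
      - bqD s w W Z * iteratedDeriv j P y - alD s w W Z * iteratedDeriv j E y := by
  have h : epD P E s w W Z = fun y => Z y - bqD s w W Z * P y - alD s w W Z * E y := by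
    funext z
    rfl
  rw [h]
  exact BEp_it2 j hZ hp.cP.1 (BEp_smE hp) _ _ y

theorem BEp_sm {P E : ℝ → ℝ} (hp : Prof P E) (s : ℝ) {W : ℝ → ℝ} (hW : ContDiff ℝ ∞ W) :
    ContDiff ℝ ∞ (ep P E s W) := by
  have h : ep P E s W = fun y => W y - Qf 4 y - (bq s W * P y + alf s W * E y) := by
    funext z
    rfl
  rw [h]
  exact (hW.sub (Q_cl (k := 4) (by norm_num)).1).sub
    ((contDiff_const.mul hp.cP.1).add (contDiff_const.mul (BEp_smE hp)))

theorem BEp_sm2 {P E : ℝ → ℝ} (hp : Prof P E) (s w : ℝ) {W Z : ℝ → ℝ} (hZ : ContDiff ℝ ∞ Z) :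
    ContDiff ℝ ∞ (epD P E s w W Z) := by
  have h : epD P E s w W Z = fun y => Z y - bqD s w W Z * P y - alD s w W Z * E y := by
    funext z
    rfl
  rw [h]
  exact (hZ.sub (contDiff_const.mul hp.cP.1)).sub (contDiff_const.mul (BEp_smE hp))

theorem fae_ep {P E : ℝ → ℝ} (hp : Prof P E) {θ : ℝ} {S : Set ℝ} {r : ℝ → ℝ} {W : ℝ → ℝ → ℝ}
    (F : Fa θ S r W) : Fae θ S r (fun t => ep P E ((r t) ^ 2) (W t)) := by
  refine ⟨F.θ0, F.θ1, F.lo, F.hi, F.cr, fun t ht => BEp_sm hp _ (F.sm t ht), fun j => ?_, fun j y => ?_⟩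
  · obtain ⟨C, hC0, hC⟩ := F.bd j
    obtain ⟨C', hC'0, hC'⟩ := prof_bnd hp j
    obtain ⟨K, hK0, hK⟩ := bnd_bq' F
    obtain ⟨K', hK'0, hK'⟩ := bnd_al' F
    refine ⟨C + C' + K * C' + K' * C', by positivity, fun t ht y => ?_⟩
    rw [BEp_eq hp _ (F.sm t ht)]
    have e1 : |iteratedDeriv j (W t) y| ≤ C :=
      le_trans (hC t ht y) (mul_le_of_le_one_right hC0 (H72KB.bd_le_one F.θ0.le F.θ0.le y))
    exact BEp_bound e1 (hC' y).2.2 (hC' y).1 (hC' y).2.1 (hK t ht) (hK' t ht) hC'0 rfl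
  · have h1 := ((F.co j y).sub (continuousOn_const (c := iteratedDeriv j (Qf 4) y))).sub
      (((con_bq F).mul (continuousOn_const (c := iteratedDeriv j P y))).add
        ((con_alf F).mul (continuousOn_const (c := iteratedDeriv j E y))))
    refine h1.congr fun t ht => ?_
    exact BEp_eq hp _ (F.sm t ht) j y

theorem fle_ep {P E : ℝ → ℝ} (hp : Prof P E) {θ : ℝ} {J : Set ℝ} {r w : ℝ → ℝ}
    {W Z : ℝ → ℝ → ℝ} (F : Flo θ J r w W Z) :
    Fle θ J r w (fun t => ep P E ((r t) ^ 2) (W t))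
      (fun t => epD P E ((r t) ^ 2) (w t) (W t) (Z t)) := by
  refine ⟨F.op, F.θ0, F.θ1, F.lo, F.hi, F.dr, F.bw, fun t ht => BEp_sm hp _ (F.sm t ht),
    fun t ht => BEp_sm2 hp _ _ (F.sz t ht), fun j => ?_, fun j t ht y => ?_⟩
  · obtain ⟨C, hC0, hC⟩ := F.bd j
    obtain ⟨C', hC'0, hC'⟩ := prof_bnd hp j
    obtain ⟨K, hK0, hK⟩ := bnd_bq F
    obtain ⟨K', hK'0, hK'⟩ := bnd_al F
    refine ⟨C + C' + K * C' + K' * C', by positivity, fun t ht y => ⟨?_, ?_⟩⟩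
    · rw [BEp_eq hp _ (F.sm t ht)]
      have e1 : |iteratedDeriv j (W t) y| ≤ C :=
        le_trans (hC t ht y).1 (mul_le_of_le_one_right hC0 (H72KB.bd_le_one F.θ0.le F.θ0.le y))
      exact BEp_bound e1 (hC' y).2.2 (hC' y).1 (hC' y).2.1 (hK t ht).1 (hK' t ht).1 hC'0 rfl
    · rw [BEp_eq2 hp _ _ (F.sz t ht)]
      have e1 : |iteratedDeriv j (Z t) y| ≤ C :=
        le_trans (hC t ht y).2 (mul_le_of_le_one_right hC0 (H72KB.bd_le_one F.θ0.le F.θ0.le y))
      have e2 : |(0 : ℝ)| ≤ C' := by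
        rw [abs_zero]
        exact hC'0
      have h := BEp_bound e1 e2 (hC' y).1 (hC' y).2.1 (hK t ht).2 (hK' t ht).2 hC'0 rfl
      have h2 : iteratedDeriv j (Z t) y - bqD ((r t) ^ 2) (w t) (W t) (Z t) * iteratedDeriv j P y
          - alD ((r t) ^ 2) (w t) (W t) (Z t) * iteratedDeriv j E y
          = iteratedDeriv j (Z t) y - 0 - (bqD ((r t) ^ 2) (w t) (W t) (Z t) * iteratedDeriv j P y
          + alD ((r t) ^ 2) (w t) (W t) (Z t) * iteratedDeriv j E y) := by ring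
      rw [h2]
      exact h
  · have h1 := ((F.ev j t ht y).sub (hasDerivAt_const t (iteratedDeriv j (Qf 4) y))).sub
      (((der_bq F ht).mul_const (iteratedDeriv j P y)).add
        ((der_alf F ht).mul_const (iteratedDeriv j E y)))
    rw [BEp_eq2 hp _ _ (F.sz t ht)]
    have h2 := h1.congr_of_eventuallyEq (f₁ := fun τ => iteratedDeriv j (ep P E ((r τ) ^ 2) (W τ)) y)
      (Filter.eventually_of_mem (F.op.mem_nhds ht) fun τ hτ => BEp_eq hp _ (F.sm τ hτ) j y)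
    refine h2.congr_deriv ?_
    ring

end H72KC
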