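import Pool.Agent.H72.KB.QBas
import Pool.Agent.H72.KB.ClC
import Pool.Agent.H72.KB.Base

/-!
# Case k = 4 of MP_95be7d, ODE part: definitions

The modulation system for `(λ, x)` uses the test functions `φ` (of class `Cl 1 1`) and `Q'`; everything is for a single
approximate solution `U, e` on `[0,T]` (structure `App`).  Owner helper72.
-/

open MeasureTheory Filter Topology Set
open scoped ContDiff

noncomputable section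

namespace H72KC

open H98KB H72KB

/-- determinant of the modulation system with test functions `φ`, `Q'` -/
def Dt (k : ℕ) (φ W : ℝ → ℝ) : ℝ :=
  IA k W φ * IB W (deriv (Qf k)) - IA k W (deriv (Qf k)) * IB W φ

/-- the parameter `w = -λ_s/λ` (with clipped determinant) -/
def wfn (k : ℕ) (φ : ℝ → ℝ) (d l : ℝ) (W E : ℝ → ℝ) : ℝ :=
  (I1 k l W E φ * IB W (deriv (Qf k)) - I1 k l W E (deriv (Qf k)) * IB W φ)
    / max (Dt k φ W) d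

/-- the parameter `m` (with clipped determinant) -/
def nfn (k : ℕ) (φ : ℝ → ℝ) (d l : ℝ) (W E : ℝ → ℝ) : ℝ :=
  (IA k W φ * I1 k l W E (deriv (Qf k)) - IA k W (deriv (Qf k)) * I1 k l W E φ)
    / max (Dt k φ W) d

/-- clipped vector field for `(λ, x)` -/
def VG (k : ℕ) (φ : ℝ → ℝ) (d lo hi X₀ : ℝ) (U e : ℝ → ℝ → ℝ) (t : ℝ) (P : ℝ × ℝ) : ℝ × ℝ :=
  (-(wfn k φ d (clp lo hi P.1) (Wf k (U t) (clp lo hi P.1) (clp (-X₀) X₀ P.2))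
        (ef k (e t) (clp lo hi P.1) (clp (-X₀) X₀ P.2))) / (clp lo hi P.1) ^ 2,
    (1 + nfn k φ d (clp lo hi P.1) (Wf k (U t) (clp lo hi P.1) (clp (-X₀) X₀ P.2))
        (ef k (e t) (clp lo hi P.1) (clp (-X₀) X₀ P.2))) / (clp lo hi P.1) ^ 2)

/-- the trajectory `P t = (λ(t), x(t))` -/
structure Tr (k : ℕ) (φ : ℝ → ℝ) (d T l₀ lo hi X₀ : ℝ) (U e : ℝ → ℝ → ℝ) (P : ℝ → ℝ × ℝ) :
    Prop where
  init : P 0 = (l₀, 0)
  cont : ContinuousOn P (Icc 0 T)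
  ode : ∀ t ∈ Ioo 0 T, HasDerivAt P (VG k φ d lo hi X₀ U e t (P t)) t

/-- clipped `λ` along the trajectory -/
def lt (lo hi : ℝ) (P : ℝ → ℝ × ℝ) (t : ℝ) : ℝ := clp lo hi (P t).1

/-- clipped `x` along the trajectory -/
def xt (X₀ : ℝ) (P : ℝ → ℝ × ℝ) (t : ℝ) : ℝ := clp (-X₀) X₀ (P t).2

/-- rescaled solution along the trajectory -/
def Wt (k : ℕ) (lo hi X₀ : ℝ) (U : ℝ → ℝ → ℝ) (P : ℝ → ℝ × ℝ) (t : ℝ) : ℝ → ℝ :=
  Wf k (U t) (lt lo hi P t) (xt X₀ P t)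

/-- `W - Q` along the trajectory -/
def et (k : ℕ) (lo hi X₀ : ℝ) (U : ℝ → ℝ → ℝ) (P : ℝ → ℝ × ℝ) (t : ℝ) : ℝ → ℝ :=
  epf k (U t) (lt lo hi P t) (xt X₀ P t)

/-- rescaled forcing along the trajectory -/
def ft (k : ℕ) (lo hi X₀ : ℝ) (e : ℝ → ℝ → ℝ) (P : ℝ → ℝ × ℝ) (t : ℝ) : ℝ → ℝ :=
  ef k (e t) (lt lo hi P t) (xt X₀ P t)

/-- `w` along the trajectory -/
def wt' (k : ℕ) (φ : ℝ → ℝ) (d lo hi X₀ : ℝ) (U e : ℝ → ℝ → ℝ) (P : ℝ → ℝ × ℝ) (t : ℝ) : ℝ :=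
  wfn k φ d (lt lo hi P t) (Wt k lo hi X₀ U P t) (ft k lo hi X₀ e P t)

/-- `m` along the trajectory -/
def mt' (k : ℕ) (φ : ℝ → ℝ) (d lo hi X₀ : ℝ) (U e : ℝ → ℝ → ℝ) (P : ℝ → ℝ × ℝ) (t : ℝ) : ℝ :=
  nfn k φ d (lt lo hi P t) (Wt k lo hi X₀ U P t) (ft k lo hi X₀ e P t)

end H72KC

end
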