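import Pool.Agent.H68.KC.Defs
import Pool.Agent.H72.KC.Bas
import Pool.Agent.H72.KB.PCon

/-!
# Case k = 4 of MP_95be7d: abstract flows in the rescaled variables, basic tools

`r = λ^{1/8}`, `s = r^2 = λ^{1/4}`, `λ^3 = r^24`.  `Z = λ^3 W_t`, `D = λ^3 ε_t`.
The rows on continuity and on time derivatives of the functionals use only the structures below.
-/

open MeasureTheory Filter Topology Set
open scoped ContDiff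

noncomputable section

namespace H72KC

open H98KB H72KB H68KC

/-- `W` moves with velocity `Z / λ^3` for the times in the open set `J`; everything decays exponentially -/
structure Flo (θ : ℝ) (J : Set ℝ) (r w : ℝ → ℝ) (W Z : ℝ → ℝ → ℝ) : Prop where
  op : IsOpen J
  θ0 : 0 < θ
  θ1 : θ ≤ 1
  lo : ∀ t ∈ J, θ ≤ r t
  hi : ∀ t ∈ J, r t ≤ 1
  dr : ∀ t ∈ J, HasDerivAt r (-(w t * r t / 8) / (r t) ^ 24) t
  bw : ∃ C : ℝ, 0 ≤ C ∧ ∀ t ∈ J, |w t| ≤ C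
  sm : ∀ t ∈ J, ContDiff ℝ ∞ (W t)
  sz : ∀ t ∈ J, ContDiff ℝ ∞ (Z t)
  bd : ∀ j : ℕ, ∃ C : ℝ, 0 ≤ C ∧ ∀ t ∈ J, ∀ y, |iteratedDeriv j (W t) y| ≤ C * H98KB.bd θ θ y ∧
    |iteratedDeriv j (Z t) y| ≤ C * H98KB.bd θ θ y
  ev : ∀ j : ℕ, ∀ t ∈ J, ∀ y, HasDerivAt (fun τ => iteratedDeriv j (W τ) y)
    (iteratedDeriv j (Z t) y / (r t) ^ 24) t

/-- the same for a function `ε` which is only bounded in space -/
structure Fle (θ : ℝ) (J : Set ℝ) (r w : ℝ → ℝ) (ε D : ℝ → ℝ → ℝ) : Prop where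
  op : IsOpen J
  θ0 : 0 < θ
  θ1 : θ ≤ 1
  lo : ∀ t ∈ J, θ ≤ r t
  hi : ∀ t ∈ J, r t ≤ 1
  dr : ∀ t ∈ J, HasDerivAt r (-(w t * r t / 8) / (r t) ^ 24) t
  bw : ∃ C : ℝ, 0 ≤ C ∧ ∀ t ∈ J, |w t| ≤ C
  sm : ∀ t ∈ J, ContDiff ℝ ∞ (ε t)
  sd : ∀ t ∈ J, ContDiff ℝ ∞ (D t)
  bd : ∀ j : ℕ, ∃ C : ℝ, 0 ≤ C ∧ ∀ t ∈ J, ∀ y, |iteratedDeriv j (ε t) y| ≤ C ∧
    |iteratedDeriv j (D t) y| ≤ C
  ev : ∀ j : ℕ, ∀ t ∈ J, ∀ y, HasDerivAt (fun τ => iteratedDeriv j (ε τ) y)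
    (iteratedDeriv j (D t) y / (r t) ^ 24) t

/-- a continuous family of exponentially decaying functions -/
structure Fa (θ : ℝ) (S : Set ℝ) (r : ℝ → ℝ) (W : ℝ → ℝ → ℝ) : Prop where
  θ0 : 0 < θ
  θ1 : θ ≤ 1
  lo : ∀ t ∈ S, θ ≤ r t
  hi : ∀ t ∈ S, r t ≤ 1
  cr : ContinuousOn r S
  sm : ∀ t ∈ S, ContDiff ℝ ∞ (W t)
  bd : ∀ j : ℕ, ∃ C : ℝ, 0 ≤ C ∧ ∀ t ∈ S, ∀ y, |iteratedDeriv j (W t) y| ≤ C * H98KB.bd θ θ y
  co : ∀ (j : ℕ) (y : ℝ), ContinuousOn (fun t => iteratedDeriv j (W t) y) S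

/-- a continuous family of functions bounded in space -/
structure Fae (θ : ℝ) (S : Set ℝ) (r : ℝ → ℝ) (ε : ℝ → ℝ → ℝ) : Prop where
  θ0 : 0 < θ
  θ1 : θ ≤ 1
  lo : ∀ t ∈ S, θ ≤ r t
  hi : ∀ t ∈ S, r t ≤ 1
  cr : ContinuousOn r S
  sm : ∀ t ∈ S, ContDiff ℝ ∞ (ε t)
  bd : ∀ j : ℕ, ∃ C : ℝ, 0 ≤ C ∧ ∀ t ∈ S, ∀ y, |iteratedDeriv j (ε t) y| ≤ C
  co : ∀ (j : ℕ) (y : ℝ), ContinuousOn (fun t => iteratedDeriv j (ε t) y) S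

/-- differentiation under the integral sign -/
theorem dInt {J : Set ℝ} (hJ : IsOpen J) {G G' : ℝ → ℝ → ℝ} {g : ℝ → ℝ} (hg : Integrable g)
    (hm : ∀ τ ∈ J, Continuous (G τ)) (hm' : ∀ τ ∈ J, Continuous (G' τ))
    (hb : ∀ τ ∈ J, ∀ y, |G τ y| ≤ g y) (hb' : ∀ τ ∈ J, ∀ y, |G' τ y| ≤ g y)
    (hd : ∀ τ ∈ J, ∀ y, HasDerivAt (fun τ => G τ y) (G' τ y) τ) {t : ℝ} (ht : t ∈ J) :
    Integrable (G t) ∧ Integrable (G' t) ∧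
      HasDerivAt (fun τ => ∫ y, G τ y) (∫ y, G' t y) t := by
  have h1 : Integrable (G t) := hg.mono' (hm t ht).aestronglyMeasurable
    (Eventually.of_forall fun y => by
      rw [Real.norm_eq_abs]
      exact hb t ht y)
  have key := hasDerivAt_integral_of_dominated_loc_of_deriv_le (μ := volume) (x₀ := t) (s := J)
    (F := fun τ y => G τ y) (F' := fun τ y => G' τ y) (bound := g) (hJ.mem_nhds ht)
    (Filter.eventually_of_mem (hJ.mem_nhds ht) fun τ hτ => (hm τ hτ).aestronglyMeasurable)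
    h1 (hm' t ht).aestronglyMeasurable
    (Eventually.of_forall fun y τ hτ => by
      rw [Real.norm_eq_abs]
      exact hb' τ hτ y) hg
    (Eventually.of_forall fun y τ hτ => hd τ hτ y)
  exact ⟨h1, key.1, key.2⟩

/-- continuity of a parametric integral -/
theorem cInt {S : Set ℝ} {G : ℝ → ℝ → ℝ} {g : ℝ → ℝ} (hg : Integrable g)
    (hm : ∀ τ ∈ S, Continuous (G τ)) (hb : ∀ τ ∈ S, ∀ y, |G τ y| ≤ g y)
    (hc : ∀ y, ContinuousOn (fun τ => G τ y) S) : ContinuousOn (fun τ => ∫ y, G τ y) S :=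
  PCon_dom S G g hg hm hb hc

end H72KC

end
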