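import Pool.Agent.H72.KC.WtZ
import Pool.Agent.H72.KB.ConE

/-!
# Row CE4: continuity of the energy functional `E4 B (r^2) (ε t)` for a bounded family

`E4 B s ε = 1/2 * ∫ om4 B s y * (ε'^2 + ε^2 - 2 bF 4 ε y)`.
Proof.  `cInt`: `G t y = om4 B ((r t)^2) y * (..)`.  `|ε|,|ε'| ≤ C` (`F.bd 0`, `F.bd 1`), `|bF 4 ε y| ≤ C₁ ε^2 ≤ C₁ C^2` (`bF_bound` with `C₀ = C`),
`|om4| ≤ C bd (σ/2) (σ/2)` with `σ = θ^2` (`om4_dom`, `(r t)^2 ≥ θ^2`), integrable (`bd_int`).  Pointwise continuity: `F.co 0`, `F.co 1`,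
`F.cr` (`om4 B s y` is continuous in `s`: `zf_smooth`; `bF`, `Fl`, `fl` are polynomials in `ε y`).  `iteratedDeriv_one`.
Model: `con_E` in `Pool/Agent/H72/KB/ConE.lean`.
-/

open MeasureTheory Filter Topology Set
open scoped ContDiff

namespace H72KC

open H98KB H72KB H68KC

theorem con_E4 {θ : ℝ} {S : Set ℝ} {r : ℝ → ℝ} {ε : ℝ → ℝ → ℝ} (F : Fae θ S r ε) (B : ℝ) :
    ContinuousOn (fun t => E4 B ((r t) ^ 2) (ε t)) S := by
  have hθ := F.θ0
  have hσ : 0 < θ ^ 2 := by positivity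
  obtain ⟨C, hC, hom⟩ := om4_dom hσ
  obtain ⟨C0, hC0, h0⟩ := F.bd 0
  obtain ⟨C1, hC1, h1⟩ := F.bd 1
  obtain ⟨C2, hC2, hbF⟩ := bF_bound (k := 4) (by norm_num) C0
  have hQ : Continuous (Qf 4) := (Q_cl (by norm_num)).1.continuous
  have key : ContinuousOn (fun t => ∫ y, om4 B ((r t) ^ 2) y *
      ((deriv (ε t) y) ^ 2 + (ε t y) ^ 2 - 2 * bF 4 (ε t) y)) S := by
    refine cInt (g := fun y => (C * (C1 ^ 2 + C0 ^ 2 + 2 * (C2 * C0 ^ 2))) *
      bd (θ ^ 2 / 2) (θ ^ 2 / 2) y)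
      ((H72KB.bd_int (by positivity) (by positivity)).const_mul _) ?_ ?_ ?_
    · intro t ht
      have c0 : Continuous (ε t) := (F.sm t ht).continuous
      have c1 : Continuous (deriv (ε t)) := (F.sm t ht).continuous_deriv (by simp)
      have c2 : Continuous (fun y => om4 B ((r t) ^ 2) y) := by
        unfold om4
        exact (th_smooth B).continuous.mul (zf_smooth.continuous.comp (by fun_prop))
      have c3 : Continuous (fun y => bF 4 (ε t) y) := by
        unfold bF Fl fl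
        fun_prop
      exact c2.mul (((c1.pow 2).add (c0.pow 2)).sub (c3.const_mul 2))
    · intro t ht y
      have hs : θ ^ 2 ≤ (r t) ^ 2 := pow_le_pow_left₀ hθ.le (F.lo t ht) 2
      have o1 := (hom B ((r t) ^ 2) y hs).1
      have f0 : |ε t y| ≤ C0 := by
        have := h0 t ht y
        rwa [iteratedDeriv_zero] at this
      have f1 : |deriv (ε t) y| ≤ C1 := by
        have := h1 t ht y
        rwa [iteratedDeriv_one] at this
      have e0 : (ε t y) ^ 2 ≤ C0 ^ 2 := by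
        rw [← sq_abs (ε t y)]
        exact pow_le_pow_left₀ (abs_nonneg _) f0 2
      have e1 : (deriv (ε t) y) ^ 2 ≤ C1 ^ 2 := by
        rw [← sq_abs (deriv (ε t) y)]
        exact pow_le_pow_left₀ (abs_nonneg _) f1 2
      have e2 := hbF (ε t) y f0
      have e3 : C2 * (ε t y) ^ 2 ≤ C2 * C0 ^ 2 := mul_le_mul_of_nonneg_left e0 hC2
      have e4 : |(deriv (ε t) y) ^ 2 + (ε t y) ^ 2 - 2 * bF 4 (ε t) y| ≤
          C1 ^ 2 + C0 ^ 2 + 2 * (C2 * C0 ^ 2) := by
        have e5 := abs_le.1 e2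
        rw [abs_le]
        constructor
        · nlinarith [sq_nonneg (deriv (ε t) y), sq_nonneg (ε t y), e5.1, e5.2]
        · nlinarith [sq_nonneg (deriv (ε t) y), sq_nonneg (ε t y), e5.1, e5.2]
      rw [abs_mul]
      have hb : 0 ≤ C * bd (θ ^ 2 / 2) (θ ^ 2 / 2) y := (abs_nonneg _).trans o1
      calc |om4 B ((r t) ^ 2) y| * |(deriv (ε t) y) ^ 2 + (ε t y) ^ 2 - 2 * bF 4 (ε t) y|
          ≤ (C * bd (θ ^ 2 / 2) (θ ^ 2 / 2) y) * (C1 ^ 2 + C0 ^ 2 + 2 * (C2 * C0 ^ 2)) :=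
            mul_le_mul o1 e4 (abs_nonneg _) hb
        _ = (C * (C1 ^ 2 + C0 ^ 2 + 2 * (C2 * C0 ^ 2))) * bd (θ ^ 2 / 2) (θ ^ 2 / 2) y := by ring
    · intro y
      have d0 : ContinuousOn (fun t => ε t y) S := by
        have h := F.co 0 y
        simpa [iteratedDeriv_zero] using h
      have d1 : ContinuousOn (fun t => deriv (ε t) y) S := by
        have h := F.co 1 y
        simpa [iteratedDeriv_one] using h
      have d2 : ContinuousOn (fun t => om4 B ((r t) ^ 2) y) S := by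
        unfold om4
        refine continuousOn_const.mul ?_
        exact zf_smooth.continuous.comp_continuousOn ((F.cr.pow 2).mul continuousOn_const)
      have d3 : ContinuousOn (fun t => bF 4 (ε t) y) S := by
        unfold bF Fl fl
        refine ContinuousOn.sub (ContinuousOn.sub ?_ continuousOn_const) ?_
        · exact ((continuousOn_const.add d0).pow _).div_const _
        · exact continuousOn_const.mul d0
      exact d2.mul (((d1.pow 2).add (d0.pow 2)).sub (continuousOn_const.mul d3))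
  exact continuousOn_const.mul key

end H72KC
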