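import Pool.Agent.H72.KC.Base4
import Pool.Agent.H72.KB.ClC

/-!
# Row CEw: continuity and time derivative of the energy `EW W`

`EW W = 1/2 * (∫ (W')^2) - 1/30 * ∫ W^6`, `DEW W Z = ∫ (W' Z' - fl 4 (W y) * Z)`, `fl 4 u = u^5/5` (`fl k u = u^(k+1)/((k:ℝ)+1)`).
Proof.  `cInt` / `dInt` for the two integrals; `∂_τ (W')^2 = 2 W' Z'/r^24` (`F.ev 1`), `∂_τ W^6 = 6 W^5 Z / r^24` (`F.ev 0`);
`1/2*2 = 1`, `6/30 = 1/5`.  Domination: `|W|,|W'|,|Z|,|Z'| ≤ C bd θ θ y`, products of several factors `bd θ θ ≤ bd θ θ`.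
Combine the two integrals of the derivative by `integral_sub` (both integrable by the first two outputs of `dInt`).
-/

open MeasureTheory Filter Topology Set
open scoped ContDiff

namespace H72KC

open H98KB H72KB H68KC

theorem CEw_pow {θ C a y : ℝ} (h0 : 0 ≤ θ) {n : ℕ} (hn : n ≠ 0)
    (ha : |a| ≤ C * H98KB.bd θ θ y) : |a ^ n| ≤ C ^ n * H98KB.bd θ θ y := by
  have hb := bd_pos θ θ y
  have hb1 := bd_le_one h0 h0 y
  have hC : 0 ≤ C := by
    by_contra h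
    push Not at h
    have := mul_neg_of_neg_of_pos h hb
    have := abs_nonneg a
    linarith
  rw [abs_pow]
  calc |a| ^ n ≤ (C * H98KB.bd θ θ y) ^ n := pow_le_pow_left₀ (abs_nonneg _) ha n
    _ = C ^ n * (H98KB.bd θ θ y) ^ n := mul_pow _ _ _
    _ ≤ C ^ n * H98KB.bd θ θ y :=
      mul_le_mul_of_nonneg_left (pow_le_of_le_one hb.le hb1 hn) (pow_nonneg hC n)

theorem con_EW {θ : ℝ} {S : Set ℝ} {r : ℝ → ℝ} {W : ℝ → ℝ → ℝ} (F : Fa θ S r W) :
    ContinuousOn (fun t => EW (W t)) S := by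
  obtain ⟨C0, hC0, h0⟩ := F.bd 0
  obtain ⟨C1, hC1, h1⟩ := F.bd 1
  have hbi := bd_int F.θ0 F.θ0
  have hcd : ∀ t ∈ S, Continuous (deriv (W t)) := fun t ht =>
    (F.sm t ht).continuous_deriv (by simp)
  have e1 : ContinuousOn (fun t => ∫ y, (deriv (W t) y) ^ 2) S := by
    refine cInt (g := fun y => C1 ^ 2 * H98KB.bd θ θ y) (hbi.const_mul _)
      (fun t ht => (hcd t ht).pow 2) ?_ ?_
    · intro t ht y
      have := h1 t ht y
      rw [iteratedDeriv_one] at this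
      exact CEw_pow F.θ0.le (by norm_num) this
    · intro y
      have := F.co 1 y
      simp only [iteratedDeriv_one] at this
      exact this.pow 2
  have e2 : ContinuousOn (fun t => ∫ y, (W t y) ^ 6) S := by
    refine cInt (g := fun y => C0 ^ 6 * H98KB.bd θ θ y) (hbi.const_mul _)
      (fun t ht => (F.sm t ht).continuous.pow 6) ?_ ?_
    · intro t ht y
      have := h0 t ht y
      rw [iteratedDeriv_zero] at this
      exact CEw_pow F.θ0.le (by norm_num) this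
    · intro y
      have := F.co 0 y
      simp only [iteratedDeriv_zero] at this
      exact this.pow 6
  unfold EW
  exact (continuousOn_const.mul e1).sub (continuousOn_const.mul e2)

theorem CEw_div {R θ x b : ℝ} (hθ : 0 < θ) (hR : θ ≤ R) (hx : |x| ≤ b) :
    |x / R ^ 24| ≤ b / θ ^ 24 := by
  have hR0 : 0 < R := by linarith
  rw [abs_div, abs_of_pos (pow_pos hR0 24)]
  have h1 : θ ^ 24 ≤ R ^ 24 := pow_le_pow_left₀ hθ.le hR 24
  have hb : 0 ≤ b := (abs_nonneg x).trans hx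
  exact div_le_div₀ hb hx (pow_pos hθ 24) h1

theorem CEw_mul {θ A B a b y : ℝ} (h0 : 0 ≤ θ) (hA : 0 ≤ A) (hB : 0 ≤ B)
    (ha : |a| ≤ A * H98KB.bd θ θ y) (hb : |b| ≤ B * H98KB.bd θ θ y) :
    |a * b| ≤ A * B * H98KB.bd θ θ y := by
  have h1 := bd_pos θ θ y
  have h2 := bd_le_one h0 h0 y
  rw [abs_mul]
  calc |a| * |b| ≤ (A * H98KB.bd θ θ y) * (B * H98KB.bd θ θ y) :=
        mul_le_mul ha hb (abs_nonneg _) (by positivity)
    _ = A * B * H98KB.bd θ θ y * H98KB.bd θ θ y := by ring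
    _ ≤ A * B * H98KB.bd θ θ y * 1 := mul_le_mul_of_nonneg_left h2 (by positivity)
    _ = _ := mul_one _

theorem der_EW {θ : ℝ} {J : Set ℝ} {r w : ℝ → ℝ} {W Z : ℝ → ℝ → ℝ} (F : Flo θ J r w W Z)
    {t : ℝ} (ht : t ∈ J) :
    HasDerivAt (fun τ => EW (W τ)) (DEW (W t) (Z t) / (r t) ^ 24) t := by
  obtain ⟨C0, hC0, h0⟩ := F.bd 0
  obtain ⟨C1, hC1, h1⟩ := F.bd 1
  simp only [iteratedDeriv_zero] at h0
  simp only [iteratedDeriv_one] at h1
  have hθ := F.θ0
  have hbi := bd_int F.θ0 F.θ0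
  have hcW : ∀ τ ∈ J, Continuous (W τ) := fun τ hτ => (F.sm τ hτ).continuous
  have hcZ : ∀ τ ∈ J, Continuous (Z τ) := fun τ hτ => (F.sz τ hτ).continuous
  have hcW' : ∀ τ ∈ J, Continuous (deriv (W τ)) := fun τ hτ =>
    (F.sm τ hτ).continuous_deriv (by simp)
  have hcZ' : ∀ τ ∈ J, Continuous (deriv (Z τ)) := fun τ hτ =>
    (F.sz τ hτ).continuous_deriv (by simp)
  have e1 := dInt F.op (G := fun τ y => (deriv (W τ) y) ^ 2)
    (G' := fun τ y => 2 * (deriv (W τ) y * deriv (Z τ) y) / (r τ) ^ 24)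
    (g := fun y => (C1 ^ 2 + 2 * (C1 * C1) / θ ^ 24) * H98KB.bd θ θ y) (hbi.const_mul _)
    (fun τ hτ => (hcW' τ hτ).pow 2)
    (fun τ hτ => ((continuous_const.mul ((hcW' τ hτ).mul (hcZ' τ hτ))).div_const _))
    (by
      intro τ hτ y
      have h2 := CEw_pow F.θ0.le (n := 2) (by norm_num) (h1 τ hτ y).1
      have h3 : 0 ≤ 2 * (C1 * C1) / θ ^ 24 * H98KB.bd θ θ y :=
        mul_nonneg (by positivity) (bd_pos θ θ y).le
      calc |(deriv (W τ) y) ^ 2| ≤ C1 ^ 2 * H98KB.bd θ θ y := h2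
        _ ≤ (C1 ^ 2 + 2 * (C1 * C1) / θ ^ 24) * H98KB.bd θ θ y := by
          rw [add_mul]
          linarith)
    (by
      intro τ hτ y
      have h2 := CEw_mul F.θ0.le hC1 hC1 (h1 τ hτ y).1 (h1 τ hτ y).2
      have h3 : |2 * (deriv (W τ) y * deriv (Z τ) y)| ≤ 2 * (C1 * C1 * H98KB.bd θ θ y) := by
        rw [abs_mul, abs_two]
        linarith
      have h4 := CEw_div hθ (F.lo τ hτ) h3
      have h5 : 0 ≤ C1 ^ 2 * H98KB.bd θ θ y :=
        mul_nonneg (by positivity) (bd_pos θ θ y).le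
      calc _ ≤ 2 * (C1 * C1 * H98KB.bd θ θ y) / θ ^ 24 := h4
        _ = 2 * (C1 * C1) / θ ^ 24 * H98KB.bd θ θ y := by ring
        _ ≤ (C1 ^ 2 + 2 * (C1 * C1) / θ ^ 24) * H98KB.bd θ θ y := by
          rw [add_mul]
          linarith)
    (by
      intro τ hτ y
      have h2 := F.ev 1 τ hτ y
      simp only [iteratedDeriv_one] at h2
      refine (h2.pow 2).congr_deriv ?_
      push_cast
      ring) ht
  have e2 := dInt F.op (G := fun τ y => (W τ y) ^ 6)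
    (G' := fun τ y => 6 * ((W τ y) ^ 5 * Z τ y) / (r τ) ^ 24)
    (g := fun y => (C0 ^ 6 + 6 * (C0 ^ 5 * C0) / θ ^ 24) * H98KB.bd θ θ y) (hbi.const_mul _)
    (fun τ hτ => (hcW τ hτ).pow 6)
    (fun τ hτ => ((continuous_const.mul (((hcW τ hτ).pow 5).mul (hcZ τ hτ))).div_const _))
    (by
      intro τ hτ y
      have h2 := CEw_pow F.θ0.le (n := 6) (by norm_num) (h0 τ hτ y).1
      have h3 : 0 ≤ 6 * (C0 ^ 5 * C0) / θ ^ 24 * H98KB.bd θ θ y :=
        mul_nonneg (by positivity) (bd_pos θ θ y).le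
      calc |(W τ y) ^ 6| ≤ C0 ^ 6 * H98KB.bd θ θ y := h2
        _ ≤ (C0 ^ 6 + 6 * (C0 ^ 5 * C0) / θ ^ 24) * H98KB.bd θ θ y := by
          rw [add_mul]
          linarith)
    (by
      intro τ hτ y
      have h2 := CEw_mul F.θ0.le (pow_nonneg hC0 5) hC0
        (CEw_pow F.θ0.le (n := 5) (by norm_num) (h0 τ hτ y).1) (h0 τ hτ y).2
      have h3 : |6 * ((W τ y) ^ 5 * Z τ y)| ≤ 6 * (C0 ^ 5 * C0 * H98KB.bd θ θ y) := by
        rw [abs_mul, abs_of_pos (by norm_num : (0 : ℝ) < 6)]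
        linarith
      have h4 := CEw_div hθ (F.lo τ hτ) h3
      have h5 : 0 ≤ C0 ^ 6 * H98KB.bd θ θ y :=
        mul_nonneg (by positivity) (bd_pos θ θ y).le
      calc _ ≤ 6 * (C0 ^ 5 * C0 * H98KB.bd θ θ y) / θ ^ 24 := h4
        _ = 6 * (C0 ^ 5 * C0) / θ ^ 24 * H98KB.bd θ θ y := by ring
        _ ≤ (C0 ^ 6 + 6 * (C0 ^ 5 * C0) / θ ^ 24) * H98KB.bd θ θ y := by
          rw [add_mul]
          linarith)
    (by
      intro τ hτ y
      have h2 := F.ev 0 τ hτ y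
      simp only [iteratedDeriv_zero] at h2
      refine (h2.pow 6).congr_deriv ?_
      push_cast
      ring) ht
  have e3 := (e1.2.2.const_mul (1 / 2)).sub (e2.2.2.const_mul (1 / 30))
  refine e3.congr_deriv ?_
  rw [← integral_const_mul, ← integral_const_mul,
    ← integral_sub (e1.2.1.const_mul _) (e2.2.1.const_mul _)]
  unfold DEW
  rw [← integral_div]
  refine integral_congr_ae (Eventually.of_forall fun y => ?_)
  simp only [fl]
  push_cast
  ring

end H72KC
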