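import Pool.Agent.H72.KC.Base4
import Pool.Agent.H72.KB.ClC

/-!
# Row CIp: pairings with a bounded continuous function

Proof.  `ip f φ = ∫ f y * φ y`.  `con_ip`: `cInt` with `G t y = W t y * φ y`, `g y = C' * bd θ θ y * |C|` (`F.bd 0`,
`iteratedDeriv_zero`, integrable by `bd_int`), pointwise continuity `F.co 0`.
`der_ip`: `dInt` with `G' t y = Z t y / (r t)^24 * φ y`, `g y = (C' / θ^24 + C') * bd θ θ y * |C|` (`r ≥ θ`, so `(r t)^24 ≥ θ^24`),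
pointwise derivative `F.ev 0`; then `∫ Z / r^24 * φ = ip Z φ / r^24` (`integral_div` or `integral_const_mul`).
Model: `der_I` in `Pool/Agent/H72/KB/DerI.lean`.
-/

open MeasureTheory Filter Topology Set
open scoped ContDiff

namespace H72KC

open H98KB H72KB H68KC

theorem CIp_mul_le {a b A B : ℝ} (ha : |a| ≤ A) (hb : |b| ≤ B) : |a * b| ≤ A * |B| := by
  rw [abs_mul]
  exact mul_le_mul ha (hb.trans (le_abs_self B)) (abs_nonneg _) ((abs_nonneg _).trans ha)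

theorem CIp_ib {G : ℝ → ℝ} {φ : ℝ → ℝ} {θ K C : ℝ} (hθ : 0 < θ) (hK : 0 ≤ K)
    (hG : ∀ y, |G y| ≤ K * H98KB.bd θ θ y) (hC : ∀ y, |φ y| ≤ C) :
    |ip G φ| ≤ ∫ y, K * H98KB.bd θ θ y * |C| := by
  have hbi : Integrable (H98KB.bd θ θ) := bd_int hθ hθ
  unfold ip
  rw [← Real.norm_eq_abs]
  refine norm_integral_le_of_norm_le ((hbi.const_mul K).mul_const _)
    (Eventually.of_forall fun y => ?_)
  rw [Real.norm_eq_abs]
  exact CIp_mul_le (hG y) (hC y)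

theorem con_ip {θ : ℝ} {S : Set ℝ} {r : ℝ → ℝ} {W : ℝ → ℝ → ℝ} (F : Fa θ S r W) {φ : ℝ → ℝ}
    (hφ : Continuous φ) {C : ℝ} (hC : ∀ y, |φ y| ≤ C) : ContinuousOn (fun t => ip (W t) φ) S := by
  obtain ⟨K, hK0, hK⟩ := F.bd 0
  simp only [iteratedDeriv_zero] at hK
  have hbi : Integrable (H98KB.bd θ θ) := bd_int F.θ0 F.θ0
  have h := cInt (S := S) (G := fun t y => W t y * φ y)
    (g := fun y => K * H98KB.bd θ θ y * |C|) ((hbi.const_mul K).mul_const _)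
    (fun τ hτ => (F.sm τ hτ).continuous.mul hφ)
    (fun τ hτ y => CIp_mul_le (hK τ hτ y) (hC y))
    (fun y => by
      have h0 := F.co 0 y
      simp only [iteratedDeriv_zero] at h0
      exact h0.mul continuousOn_const)
  exact h

theorem der_ip {θ : ℝ} {J : Set ℝ} {r w : ℝ → ℝ} {W Z : ℝ → ℝ → ℝ} (F : Flo θ J r w W Z)
    {φ : ℝ → ℝ} (hφ : Continuous φ) {C : ℝ} (hC : ∀ y, |φ y| ≤ C) {t : ℝ} (ht : t ∈ J) :
    HasDerivAt (fun τ => ip (W τ) φ) (ip (Z t) φ / (r t) ^ 24) t := by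
  obtain ⟨K, hK0, hK⟩ := F.bd 0
  simp only [iteratedDeriv_zero] at hK
  have hθ := F.θ0
  have hbi : Integrable (H98KB.bd θ θ) := bd_int F.θ0 F.θ0
  have hb0 : ∀ y, 0 ≤ H98KB.bd θ θ y := fun y => (bd_pos _ _ y).le
  have hZ : ∀ τ ∈ J, ∀ y, |Z τ y / (r τ) ^ 24| ≤ K / θ ^ 24 * H98KB.bd θ θ y := by
    intro τ hτ y
    have h1 := (hK τ hτ y).2
    have hr := F.lo τ hτ
    have h4 : θ ^ 24 ≤ (r τ) ^ 24 := pow_le_pow_left₀ hθ.le hr 24
    have hr0 : 0 < r τ := by linarith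
    rw [abs_div, abs_of_pos (pow_pos hr0 24)]
    have h5 : K / θ ^ 24 * H98KB.bd θ θ y = (K * H98KB.bd θ θ y) / θ ^ 24 := by ring
    rw [h5]
    exact div_le_div₀ (mul_nonneg hK0 (hb0 y)) h1 (pow_pos hθ 24) h4
  have hKt : 0 ≤ K / θ ^ 24 := by positivity
  have key := dInt F.op (G := fun t y => W t y * φ y) (G' := fun t y => Z t y / (r t) ^ 24 * φ y)
    (g := fun y => (K / θ ^ 24 + K) * H98KB.bd θ θ y * |C|)
    ((hbi.const_mul _).mul_const _)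
    (fun τ hτ => (F.sm τ hτ).continuous.mul hφ)
    (fun τ hτ => ((F.sz τ hτ).continuous.div_const _).mul hφ)
    (fun τ hτ y => CIp_mul_le (((hK τ hτ y).1).trans
      (mul_le_mul_of_nonneg_right (by linarith) (hb0 y))) (hC y))
    (fun τ hτ y => CIp_mul_le ((hZ τ hτ y).trans
      (mul_le_mul_of_nonneg_right (by linarith) (hb0 y))) (hC y))
    (fun τ hτ y => by
      have h := (F.ev 0 τ hτ y).mul_const (φ y)
      simp only [iteratedDeriv_zero] at h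
      exact h) ht
  have h2 := key.2.2
  have e1 : (∫ y, Z t y / (r t) ^ 24 * φ y) = ip (Z t) φ / (r t) ^ 24 := by
    unfold ip
    rw [← integral_div]
    congr 1
    funext y
    ring
  rw [e1] at h2
  exact h2

/-- uniform bounds of the pairings -/
theorem bnd_ip {θ : ℝ} {J : Set ℝ} {r w : ℝ → ℝ} {W Z : ℝ → ℝ → ℝ} (F : Flo θ J r w W Z)
    {φ : ℝ → ℝ} (hφ : Continuous φ) {C : ℝ} (hC : ∀ y, |φ y| ≤ C) :
    ∃ K : ℝ, 0 ≤ K ∧ ∀ t ∈ J, |ip (W t) φ| ≤ K ∧ |ip (Z t) φ| ≤ K := by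
  obtain ⟨K, hK0, hK⟩ := F.bd 0
  simp only [iteratedDeriv_zero] at hK
  refine ⟨∫ y, K * H98KB.bd θ θ y * |C|, integral_nonneg fun y => ?_, fun t ht => ⟨?_, ?_⟩⟩
  · exact mul_nonneg (mul_nonneg hK0 (bd_pos _ _ y).le) (abs_nonneg _)
  · exact CIp_ib F.θ0 hK0 (fun y => (hK t ht y).1) hC
  · exact CIp_ib F.θ0 hK0 (fun y => (hK t ht y).2) hC

theorem bnd_ip' {θ : ℝ} {S : Set ℝ} {r : ℝ → ℝ} {W : ℝ → ℝ → ℝ} (F : Fa θ S r W) {φ : ℝ → ℝ}
    (hφ : Continuous φ) {C : ℝ} (hC : ∀ y, |φ y| ≤ C) :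
    ∃ K : ℝ, 0 ≤ K ∧ ∀ t ∈ S, |ip (W t) φ| ≤ K := by
  obtain ⟨K, hK0, hK⟩ := F.bd 0
  simp only [iteratedDeriv_zero] at hK
  refine ⟨∫ y, K * H98KB.bd θ θ y * |C|, integral_nonneg fun y => ?_, fun t ht => ?_⟩
  · exact mul_nonneg (mul_nonneg hK0 (bd_pos _ _ y).le) (abs_nonneg _)
  · exact CIp_ib F.θ0 hK0 (fun y => hK t ht y) hC

end H72KC
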