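import Pool.Agent.H72.KC.Base4
import Pool.Agent.H72.KB.ClC

/-!
# Row CJc: joint continuity

Proof (`flo_jc`, at `(t,y)`, `t ∈ J`).  `|F(τ,z) - F(t,y)| ≤ |F(τ,z) - F(τ,y)| + |F(τ,y) - F(t,y)|` with
`F(τ,z) = iteratedDeriv j (W τ) z`.  For `τ ∈ J` (`J` is open) the first term is `≤ C |z - y|` by the mean value theorem
(`Convex.norm_image_sub_le_of_norm_deriv_le`, `deriv (iteratedDeriv j f) = iteratedDeriv (j+1) f`, bound `F.bd (j+1)`,
`bd ≤ 1` by `bd_le_one`), the second tends to `0` because `τ ↦ F(τ,y)` is differentiable at `t` (`F.ev j`), hence continuous.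
`fa_jc`: the same with `nhdsWithin` (`F.co j y`).  Model: `UFb_jc` in `Pool/Agent/H72/KB/UFb.lean`.
-/

open MeasureTheory Filter Topology Set
open scoped ContDiff

namespace H72KC

open H98KB H72KB H68KC

/-- joint continuity from a Lipschitz bound in space and continuity in time -/
theorem CJc_aux {S : Set ℝ} {W : ℝ → ℝ → ℝ} {C : ℝ} (j : ℕ)
    (hs : ∀ t ∈ S, ContDiff ℝ ∞ (W t))
    (hC : ∀ t ∈ S, ∀ y, |iteratedDeriv (j + 1) (W t) y| ≤ C)
    {t : ℝ} (y : ℝ) (ht : t ∈ S)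
    (hc : ContinuousWithinAt (fun τ => iteratedDeriv j (W τ) y) S t) :
    ContinuousWithinAt (fun q : ℝ × ℝ => iteratedDeriv j (W q.1) q.2) (S ×ˢ univ) (t, y) := by
  have hx : ∀ τ ∈ S, ∀ x z,
      |iteratedDeriv j (W τ) x - iteratedDeriv j (W τ) z| ≤ C * |x - z| := by
    intro τ hτ x z
    have hd : Differentiable ℝ (iteratedDeriv j (W τ)) :=
      (hs τ hτ).differentiable_iteratedDeriv j (by exact_mod_cast WithTop.coe_lt_top j)
    have hder : ∀ z, ‖deriv (iteratedDeriv j (W τ)) z‖ ≤ C := by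
      intro z
      rw [← iteratedDeriv_succ, Real.norm_eq_abs]
      exact hC τ hτ z
    have h2 := Convex.norm_image_sub_le_of_norm_deriv_le (s := (univ : Set ℝ))
      (fun z _ => hd z) (fun z _ => hder z) convex_univ (mem_univ z) (mem_univ x)
    simpa only [Real.norm_eq_abs] using h2
  have h3 : Tendsto (fun z : ℝ × ℝ => z.1) (𝓝[S ×ˢ univ] (t, y)) (𝓝[S] t) := by
    refine tendsto_nhdsWithin_iff.2 ⟨?_, ?_⟩
    · exact (continuous_fst.tendsto (t, y)).mono_left nhdsWithin_le_nhds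
    · filter_upwards [self_mem_nhdsWithin] with z hz
      exact hz.1
  have h4 := hc.tendsto.comp h3
  have h5 : Tendsto (fun z : ℝ × ℝ => |iteratedDeriv j (W z.1) y - iteratedDeriv j (W t) y|)
      (𝓝[S ×ˢ univ] (t, y)) (𝓝 0) := by
    have h6 := (h4.sub_const (iteratedDeriv j (W t) y)).abs
    rw [sub_self, abs_zero] at h6
    exact h6
  have h7 : Tendsto (fun z : ℝ × ℝ => C * |z.2 - y|) (𝓝[S ×ˢ univ] (t, y)) (𝓝 0) := by
    have h8 : Continuous (fun z : ℝ × ℝ => C * |z.2 - y|) := by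
      fun_prop
    have h9 := (h8.tendsto (t, y)).mono_left (nhdsWithin_le_nhds
      (s := S ×ˢ (univ : Set ℝ)))
    simpa only [sub_self, abs_zero, mul_zero] using h9
  have h10 := h7.add h5
  rw [add_zero] at h10
  rw [ContinuousWithinAt, tendsto_iff_dist_tendsto_zero]
  refine squeeze_zero' (Eventually.of_forall fun _ => dist_nonneg) ?_ h10
  filter_upwards [self_mem_nhdsWithin] with z hz
  rw [Real.dist_eq]
  have k2 := hx z.1 hz.1 z.2 y
  have k5 := abs_add_le (iteratedDeriv j (W z.1) z.2 - iteratedDeriv j (W z.1) y)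
    (iteratedDeriv j (W z.1) y - iteratedDeriv j (W t) y)
  have k6 : iteratedDeriv j (W z.1) z.2 - iteratedDeriv j (W z.1) y +
      (iteratedDeriv j (W z.1) y - iteratedDeriv j (W t) y) =
      iteratedDeriv j (W z.1) z.2 - iteratedDeriv j (W t) y := by ring
  rw [k6] at k5
  show |iteratedDeriv j (W z.1) z.2 - iteratedDeriv j (W t) y| ≤ _
  linarith

theorem flo_jc {θ : ℝ} {J : Set ℝ} {r w : ℝ → ℝ} {W Z : ℝ → ℝ → ℝ} (F : Flo θ J r w W Z) (j : ℕ)
    {t : ℝ} (ht : t ∈ J) (y : ℝ) :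
    ContinuousAt (fun q : ℝ × ℝ => iteratedDeriv j (W q.1) q.2) (t, y) := by
  obtain ⟨C, hC0, hC⟩ := F.bd (j + 1)
  have h1 := CJc_aux (S := J) (C := C) j F.sm (fun τ hτ z => (hC τ hτ z).1.trans
    (mul_le_of_le_one_right hC0 (bd_le_one F.θ0.le F.θ0.le z))) y ht
    (F.ev j t ht y).continuousAt.continuousWithinAt
  refine h1.continuousAt ?_
  exact (F.op.prod isOpen_univ).mem_nhds ⟨ht, mem_univ y⟩

theorem fa_jc {θ : ℝ} {S : Set ℝ} {r : ℝ → ℝ} {W : ℝ → ℝ → ℝ} (F : Fa θ S r W) (j : ℕ) :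
    ContinuousOn (fun q : ℝ × ℝ => iteratedDeriv j (W q.1) q.2) (S ×ˢ univ) := by
  obtain ⟨C, hC0, hC⟩ := F.bd (j + 1)
  rintro ⟨t, y⟩ ⟨ht, -⟩
  exact CJc_aux (S := S) (C := C) j F.sm (fun τ hτ z => (hC τ hτ z).trans
    (mul_le_of_le_one_right hC0 (bd_le_one F.θ0.le F.θ0.le z))) y ht (F.co j y t ht)

end H72KC
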