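import Pool.Agent.H72.KC.WtZ

/-!
# Row CNr: continuity and time derivative of `Nn (r^2) W`

`Nn s W = ∫ Ph s y * (W')^2`, `DNn s w W Z = (∫ 2 * Ph s y * (W' Z')) - w/(8 s) * ∫ (Ph s)' (W')^2`.
Proof.  `cInt` / `dInt`.  With `s = r^2`, `s' = 2 r r' = -(w/4) s/r^24` (`F.dr`) and `∂_s Ph s y = (Ph s)'(y) / (2 s^2)` (`ph_der`), so
`∂_τ Ph (s τ) y = -(w/(8 s)) (Ph s)'(y) / r^24`; `∂_τ (W')^2 = 2 W' Z'/r^24` (`F.ev 1`).  Domination: `0 < Ph < 1`, `|(Ph s)'| ≤ 1`,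
`|W'|,|Z'| ≤ C bd θ θ y`, `(bd θ θ)^2 ≤ bd θ θ` (`bd_le_one`), `|w| ≤ Cw`, `1/s ≤ 1/θ^2`, `r^24 ≥ θ^24`.  Continuity in `t` of `Ph ((r t)^2) y`: it is
differentiable in `s > 0` (`ph_der`).
-/

open MeasureTheory Filter Topology Set
open scoped ContDiff

namespace H72KC

open H98KB H72KB H68KC

theorem CNr_sq {C b x : ℝ} (hb0 : 0 ≤ b) (hb1 : b ≤ 1) (hx : |x| ≤ C * b) (hC : 0 ≤ C) :
    x ^ 2 ≤ C ^ 2 * b := by
  have h1 : x ^ 2 ≤ (C * b) ^ 2 := by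
    rw [← sq_abs]
    exact pow_le_pow_left₀ (abs_nonneg x) hx 2
  have h2 : C ^ 2 * b ^ 2 ≤ C ^ 2 * b := by
    apply mul_le_mul_of_nonneg_left _ (sq_nonneg C)
    nlinarith
  nlinarith

theorem CNr_mul {C b x y : ℝ} (hb0 : 0 ≤ b) (hb1 : b ≤ 1) (hx : |x| ≤ C * b) (hy : |y| ≤ C * b) (hC : 0 ≤ C) :
    |x * y| ≤ C ^ 2 * b := by
  rw [abs_mul]
  have h1 : |x| * |y| ≤ (C * b) * (C * b) := mul_le_mul hx hy (abs_nonneg y) (by positivity)
  have h2 : C ^ 2 * b ^ 2 ≤ C ^ 2 * b := by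
    apply mul_le_mul_of_nonneg_left _ (sq_nonneg C)
    nlinarith
  nlinarith

theorem con_Nn {θ : ℝ} {S : Set ℝ} {r : ℝ → ℝ} {W : ℝ → ℝ → ℝ} (F : Fa θ S r W) :
    ContinuousOn (fun t => Nn ((r t) ^ 2) (W t)) S := by
  obtain ⟨C, hC0, hC⟩ := F.bd 1
  have hrpos : ∀ t ∈ S, 0 < (r t) ^ 2 := fun t ht => pow_pos (lt_of_lt_of_le F.θ0 (F.lo t ht)) 2
  unfold Nn
  refine cInt (g := fun y => C ^ 2 * bd θ θ y) ((bd_int F.θ0 F.θ0).const_mul _) ?_ ?_ ?_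
  · intro τ hτ
    exact ((ph_der (hrpos τ hτ) 0).2.2.2.2.2.1).mul
      ((((F.sm τ hτ).of_le (by exact_mod_cast le_top)).continuous_deriv (le_refl 1)).pow 2)
  · intro τ hτ y
    obtain ⟨_, _, _, h1, h2, _, _⟩ := ph_der (hrpos τ hτ) y
    have h3 := hC τ hτ y
    rw [iteratedDeriv_one] at h3
    have h4 := CNr_sq (bd_pos θ θ y).le (bd_le_one F.θ0.le F.θ0.le y) h3 hC0
    rw [abs_of_nonneg (mul_nonneg h1.le (sq_nonneg _))]
    nlinarith [sq_nonneg (deriv (W τ) y)]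
  · intro y
    refine ContinuousOn.mul ?_ (ContinuousOn.pow ?_ 2)
    · intro τ hτ
      have h1 : ContinuousAt (fun s => Ph s y) ((r τ) ^ 2) := ((ph_der (hrpos τ hτ) y).2.1).continuousAt
      have h2 : ContinuousWithinAt (fun t => (r t) ^ 2) S τ := (F.cr τ hτ).pow 2
      exact ContinuousAt.comp_continuousWithinAt (f := fun t => (r t) ^ 2) (g := fun s => Ph s y) h1 h2
    · have h := F.co 1 y
      simp only [iteratedDeriv_one] at h
      exact h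

theorem der_Nn {θ : ℝ} {J : Set ℝ} {r w : ℝ → ℝ} {W Z : ℝ → ℝ → ℝ} (F : Flo θ J r w W Z)
    {t : ℝ} (ht : t ∈ J) :
    HasDerivAt (fun τ => Nn ((r τ) ^ 2) (W τ))
      (DNn ((r t) ^ 2) (w t) (W t) (Z t) / (r t) ^ 24) t := by
  obtain ⟨C, hC0, hC⟩ := F.bd 1
  obtain ⟨Cw, hCw0, hCw⟩ := F.bw
  have hr0 : ∀ t ∈ J, 0 < r t := fun t ht => lt_of_lt_of_le F.θ0 (F.lo t ht)
  have hrpos : ∀ t ∈ J, 0 < (r t) ^ 2 := fun t ht => pow_pos (hr0 t ht) 2
  have hθ := F.θ0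
  set K : ℝ := C ^ 2 * (1 + Cw / (8 * θ ^ 26) + 2 / θ ^ 24) with hK
  have hK1 : C ^ 2 ≤ K := by
    have : 0 ≤ Cw / (8 * θ ^ 26) := by positivity
    have : 0 ≤ 2 / θ ^ 24 := by positivity
    rw [hK]
    nlinarith [sq_nonneg C]
  have hcd : ∀ τ ∈ J, Continuous (deriv (W τ)) := fun τ hτ =>
    ((F.sm τ hτ).of_le (by exact_mod_cast le_top)).continuous_deriv (le_refl 1)
  have hcz : ∀ τ ∈ J, Continuous (deriv (Z τ)) := fun τ hτ =>
    ((F.sz τ hτ).of_le (by exact_mod_cast le_top)).continuous_deriv (le_refl 1)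
  have hmain := dInt (J := J) F.op (G := fun τ y => Ph ((r τ) ^ 2) y * (deriv (W τ) y) ^ 2)
    (G' := fun τ y => (2 * Ph ((r τ) ^ 2) y * (deriv (W τ) y * deriv (Z τ) y)
      - w τ / (8 * (r τ) ^ 2) * (deriv (Ph ((r τ) ^ 2)) y * (deriv (W τ) y) ^ 2)) / (r τ) ^ 24)
    (g := fun y => K * bd θ θ y) ((bd_int F.θ0 F.θ0).const_mul _) ?_ ?_ ?_ ?_ ?_ ht
  · obtain ⟨_, _, h3⟩ := hmain
    have e : DNn ((r t) ^ 2) (w t) (W t) (Z t) / (r t) ^ 24
        = ∫ y, (2 * Ph ((r t) ^ 2) y * (deriv (W t) y * deriv (Z t) y)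
      - w t / (8 * (r t) ^ 2) * (deriv (Ph ((r t) ^ 2)) y * (deriv (W t) y) ^ 2)) / (r t) ^ 24 := by
      rw [integral_div, integral_sub, integral_const_mul]
      · rfl
      · refine Integrable.mono' (((bd_int hθ hθ).const_mul (2 * C ^ 2))) ?_ (Eventually.of_forall fun y => ?_)
        · exact ((continuous_const.mul (ph_der (hrpos t ht) 0).2.2.2.2.2.1).mul
            ((hcd t ht).mul (hcz t ht))).aestronglyMeasurable
        · obtain ⟨_, _, _, h1, h2, _, _⟩ := ph_der (hrpos t ht) y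
          have h3 := hC t ht y
          rw [iteratedDeriv_one, iteratedDeriv_one] at h3
          have h4 := CNr_mul (bd_pos θ θ y).le (bd_le_one hθ.le hθ.le y) h3.1 h3.2 hC0
          rw [Real.norm_eq_abs, abs_mul, abs_mul, abs_of_pos h1, abs_two]
          nlinarith [abs_nonneg (deriv (W t) y * deriv (Z t) y)]
      · refine Integrable.const_mul (Integrable.mono' (((bd_int hθ hθ).const_mul (C ^ 2))) ?_
          (Eventually.of_forall fun y => ?_)) _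
        · exact ((ph_der (hrpos t ht) 0).2.2.2.2.2.2.mul ((hcd t ht).pow 2)).aestronglyMeasurable
        · obtain ⟨_, _, h0, h1, h2, _, _⟩ := ph_der (hrpos t ht) y
          have h3 := hC t ht y
          rw [iteratedDeriv_one, iteratedDeriv_one] at h3
          have h4 := CNr_sq (bd_pos θ θ y).le (bd_le_one hθ.le hθ.le y) h3.1 hC0
          rw [Real.norm_eq_abs, abs_mul, abs_of_nonneg (sq_nonneg (deriv (W t) y))]
          nlinarith [sq_nonneg (deriv (W t) y)]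
    rw [e]
    exact h3
  · intro τ hτ
    exact ((ph_der (hrpos τ hτ) 0).2.2.2.2.2.1).mul ((hcd τ hτ).pow 2)
  · intro τ hτ
    refine Continuous.div_const ?_ _
    refine ((continuous_const.mul (ph_der (hrpos τ hτ) 0).2.2.2.2.2.1).mul
            ((hcd τ hτ).mul (hcz τ hτ))).sub ?_
    exact continuous_const.mul ((ph_der (hrpos τ hτ) 0).2.2.2.2.2.2.mul ((hcd τ hτ).pow 2))
  · intro τ hτ y
    obtain ⟨_, _, _, h1, h2, _, _⟩ := ph_der (hrpos τ hτ) y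
    have h3 := hC τ hτ y
    rw [iteratedDeriv_one, iteratedDeriv_one] at h3
    have h4 := CNr_sq (bd_pos θ θ y).le (bd_le_one F.θ0.le F.θ0.le y) h3.1 hC0
    rw [abs_of_nonneg (mul_nonneg h1.le (sq_nonneg _))]
    have h5 := (bd_pos θ θ y)
    have h6 : C ^ 2 * bd θ θ y ≤ K * bd θ θ y := mul_le_mul_of_nonneg_right hK1 h5.le
    nlinarith [sq_nonneg (deriv (W τ) y)]
  · intro τ hτ y
    obtain ⟨_, _, h0, h1, h2, _, _⟩ := ph_der (hrpos τ hτ) y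
    have h3 := hC τ hτ y
    rw [iteratedDeriv_one, iteratedDeriv_one] at h3
    have hb0 := bd_pos θ θ y
    have hb1 := bd_le_one hθ.le hθ.le y
    have h4 := CNr_sq hb0.le hb1 h3.1 hC0
    have h5 := CNr_mul hb0.le hb1 h3.1 h3.2 hC0
    have h6 := hCw τ hτ
    have hrp := hr0 τ hτ
    have h24 : θ ^ 24 ≤ (r τ) ^ 24 := pow_le_pow_left₀ hθ.le (F.lo τ hτ) 24
    have h2' : θ ^ 2 ≤ (r τ) ^ 2 := pow_le_pow_left₀ hθ.le (F.lo τ hτ) 2
    have hθ24 : 0 < θ ^ 24 := pow_pos hθ 24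
    have hθ2 : 0 < θ ^ 2 := pow_pos hθ 2
    set B := C ^ 2 * bd θ θ y with hB
    have hB0 : 0 ≤ B := by positivity
    have a1 : |2 * Ph ((r τ) ^ 2) y * (deriv (W τ) y * deriv (Z τ) y)| ≤ 2 * B := by
      rw [abs_mul, abs_mul, abs_of_pos h1, abs_two]
      nlinarith [abs_nonneg (deriv (W τ) y * deriv (Z τ) y)]
    have a2 : |w τ / (8 * (r τ) ^ 2) * (deriv (Ph ((r τ) ^ 2)) y * (deriv (W τ) y) ^ 2)| ≤
        Cw / (8 * θ ^ 2) * B := by
      rw [abs_mul]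
      refine mul_le_mul ?_ ?_ (abs_nonneg _) (by positivity)
      · rw [abs_div, abs_of_pos (show (0 : ℝ) < 8 * (r τ) ^ 2 by positivity)]
        exact div_le_div₀ hCw0 h6 (by positivity) (by linarith)
      · rw [abs_mul, abs_of_nonneg (sq_nonneg (deriv (W τ) y))]
        nlinarith [sq_nonneg (deriv (W τ) y)]
    rw [abs_div, abs_of_pos (show (0 : ℝ) < (r τ) ^ 24 by positivity)]
    have a3 := (abs_sub (2 * Ph ((r τ) ^ 2) y * (deriv (W τ) y * deriv (Z τ) y))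
      (w τ / (8 * (r τ) ^ 2) * (deriv (Ph ((r τ) ^ 2)) y * (deriv (W τ) y) ^ 2)))
    have a4 : |2 * Ph ((r τ) ^ 2) y * (deriv (W τ) y * deriv (Z τ) y)
      - w τ / (8 * (r τ) ^ 2) * (deriv (Ph ((r τ) ^ 2)) y * (deriv (W τ) y) ^ 2)| / (r τ) ^ 24
      ≤ (2 * B + Cw / (8 * θ ^ 2) * B) / θ ^ 24 :=
      div_le_div₀ (by positivity) (by linarith) hθ24 h24
    refine a4.trans ?_
    have a5 : K * bd θ θ y = B + Cw / (8 * θ ^ 26) * B + 2 / θ ^ 24 * B := by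
      rw [hK, hB]; ring
    have a6 : (2 * B + Cw / (8 * θ ^ 2) * B) / θ ^ 24 = Cw / (8 * θ ^ 26) * B + 2 / θ ^ 24 * B := by
      field_simp
      ring
    rw [a5, a6]
    linarith
  · intro τ hτ y
    have hrp := hr0 τ hτ
    have d1 : HasDerivAt (fun τ => (r τ) ^ 2) (2 * r τ * (-(w τ * r τ / 8) / (r τ) ^ 24)) τ := by
      have h := HasDerivAt.fun_pow (F.dr τ hτ) 2
      refine HasDerivAt.congr_deriv h ?_
      norm_num
    have d2 := (ph_der (hrpos τ hτ) y).2.1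
    have d3 : HasDerivAt (fun τ => Ph ((r τ) ^ 2) y)
        (deriv (Ph ((r τ) ^ 2)) y * (1 / (2 * ((r τ) ^ 2) ^ 2)) * (2 * r τ * (-(w τ * r τ / 8) / (r τ) ^ 24))) τ :=
      HasDerivAt.comp τ (h₂ := fun s => Ph s y) (h := fun τ => (r τ) ^ 2) d2 d1
    have d4 := F.ev 1 τ hτ y
    simp only [iteratedDeriv_one] at d4
    have d5 := HasDerivAt.fun_mul d3 (HasDerivAt.fun_pow d4 2)
    refine HasDerivAt.congr_deriv d5 ?_
    have : r τ ≠ 0 := hrp.ne'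
    norm_num
    field_simp
    ring

end H72KC
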