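import Pool.Agent.H72.KC.Base4
import Pool.Agent.H72.KB.ConV
import Pool.Agent.H72.KB.DerV

/-!
# Row CV4: continuity and time derivative of the virial functional for bounded families

`Vf 4 η γ B δ ε = 1/2 ∫ Psi 4 η γ B y * (vf 4 δ ε y)^2`, `vf 4 δ ε = Sm δ (Lop 4 ε)`, `DV .. ε D = ∫ Psi * (vf ε * vf D)`.
Proof.  `|Lop 4 ε| ≤ |ε''| + |ε| + Q^4 |ε| ≤ C` (`F.bd 0`, `F.bd 2`; lemmas `ConV_Lop_bound`, `DerV_Lop_bd`, `ConV_Lop_cont`); `Sm δ h y = ∫ ker(z) h(y - z) dz` with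
`ker = exp(-|z|/√δ)/(2√δ)` integrable, so `|vf| ≤ C'` and `vf 4 δ (ε t)` is continuous in `y` (`ConV_Sm_bound`, `vf_bound`).
Pointwise in `y`: `t ↦ vf 4 δ (ε t) y` is continuous (`cInt` in the variable `z`), and has derivative `vf 4 δ (D t) y / (r t)^24`
(`dInt` in the variable `z`, integrand `ker z * Lop 4 (ε τ) (y - z)`, derivative `ker z * Lop 4 (D τ) (y-z)/r^24` by `F.ev 0`, `F.ev 2`).
Then `cInt`/`dInt` in `y` for `Psi * vf^2` (`|Psi| ≤ C exp(-c|y|)` integrable: `Psi_bound`), derivative `2 Psi vf(ε) vf(D) / r^24`.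
Models: `con_V` (`KB/ConV.lean`), `der_V` (`KB/DerV.lean`), which do the same for exponentially decaying families.
-/

open MeasureTheory Filter Topology Set
open scoped ContDiff

namespace H72KC

open H98KB H72KB H68KC

theorem CV4_bdd {θ : ℝ} {S : Set ℝ} {r : ℝ → ℝ} {ε : ℝ → ℝ → ℝ} (F : Fae θ S r ε) :
    ∃ C : ℝ, 0 ≤ C ∧ ∀ t ∈ S, (∀ y, |iteratedDeriv 0 (ε t) y| ≤ C) ∧
      (∀ y, |iteratedDeriv 2 (ε t) y| ≤ C) := by
  obtain ⟨A, hA, hA'⟩ := F.bd 0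
  obtain ⟨B, hB, hB'⟩ := F.bd 2
  refine ⟨max A B, le_max_of_le_left hA, fun t ht => ⟨fun y => ?_, fun y => ?_⟩⟩
  · exact (hA' t ht y).trans (le_max_left _ _)
  · exact (hB' t ht y).trans (le_max_right _ _)

theorem CV4_vc {θ : ℝ} {S : Set ℝ} {r : ℝ → ℝ} {ε : ℝ → ℝ → ℝ} (F : Fae θ S r ε) {δ : ℝ}
    (hδ : 0 < δ) (y : ℝ) : ContinuousOn (fun t => vf 4 δ (ε t) y) S := by
  obtain ⟨K, hK0, hK⟩ := DerV_Qpow (k := 4) (by norm_num)
  obtain ⟨C, hC0, hC⟩ := CV4_bdd F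
  have h1 : ContinuousOn (fun t => ∫ w, ConVker δ w * Lop 4 (ε t) (y - w)) S := by
    refine cInt (g := fun w => ConVker δ w * ((2 + K) * C)) ((ConV_ker_int hδ).mul_const _)
      ?_ ?_ ?_
    · intro t ht
      exact (ConV_ker_cont δ).mul ((ConV_Lop_cont (by norm_num) (F.sm t ht)).comp
        (continuous_const.sub continuous_id))
    · intro t ht w
      rw [abs_mul, abs_of_nonneg (ConV_ker_nonneg δ w)]
      exact mul_le_mul_of_nonneg_left (DerV_Lop_bd hK (hC t ht).1 (hC t ht).2 _)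
        (ConV_ker_nonneg δ w)
    · intro w
      refine ContinuousOn.mul continuousOn_const ?_
      have e0 := F.co 0 (y - w)
      have e2 := F.co 2 (y - w)
      have e3 : (fun t => Lop 4 (ε t) (y - w)) = fun t => -iteratedDeriv 2 (ε t) (y - w) +
          iteratedDeriv 0 (ε t) (y - w) - (Qf 4 (y - w)) ^ 4 * iteratedDeriv 0 (ε t) (y - w) := by
        funext t
        exact DerV_Lop 4 (ε t) (y - w)
      rw [e3]
      exact (e2.neg.add e0).sub (continuousOn_const.mul e0)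
  exact h1

theorem con_V4 {θ : ℝ} {S : Set ℝ} {r : ℝ → ℝ} {ε : ℝ → ℝ → ℝ} (F : Fae θ S r ε) {B δ : ℝ}
    (hB : 0 < B) (hδ : 0 < δ) (η γ : ℝ) :
    ContinuousOn (fun t => Vf 4 η γ B δ (ε t)) S := by
  obtain ⟨C, hC0, hC⟩ := CV4_bdd F
  obtain ⟨C₁, hC1, hvf⟩ := vf_bound (k := 4) (δ := δ) (by norm_num) hδ
  obtain ⟨hP1, hP2, -⟩ := Psi_bound 4 η γ hB
  have hb0 : ∀ t ∈ S, ∀ y, |ε t y| ≤ C := by
    intro t ht y
    have h := (hC t ht).1 y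
    rwa [DerV_it0] at h
  unfold Vf
  refine ContinuousOn.mul continuousOn_const ?_
  refine cInt (g := fun y => |Psi 4 η γ B y| * (C₁ * C) ^ 2) (hP2.abs.mul_const _) ?_ ?_ ?_
  · intro t ht
    exact hP1.mul ((hvf C (ε t) (F.sm t ht) (hb0 t ht) (hC t ht).2).1.pow 2)
  · intro t ht y
    rw [abs_mul, abs_pow]
    exact mul_le_mul_of_nonneg_left (pow_le_pow_left₀ (abs_nonneg _)
      ((hvf C (ε t) (F.sm t ht) (hb0 t ht) (hC t ht).2).2 y) 2) (abs_nonneg _)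
  · intro y
    exact continuousOn_const.mul ((CV4_vc F hδ y).pow 2)

theorem CV4_bdd2 {θ : ℝ} {J : Set ℝ} {r w : ℝ → ℝ} {ε D : ℝ → ℝ → ℝ} (F : Fle θ J r w ε D) :
    ∃ C : ℝ, 0 ≤ C ∧ ∀ t ∈ J, (∀ y, |iteratedDeriv 0 (ε t) y| ≤ C) ∧
      (∀ y, |iteratedDeriv 2 (ε t) y| ≤ C) ∧ (∀ y, |iteratedDeriv 0 (D t) y| ≤ C) ∧
      (∀ y, |iteratedDeriv 2 (D t) y| ≤ C) := by
  obtain ⟨A, hA, hA'⟩ := F.bd 0
  obtain ⟨B, hB, hB'⟩ := F.bd 2
  refine ⟨max A B, le_max_of_le_left hA,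
    fun t ht => ⟨fun y => ?_, fun y => ?_, fun y => ?_, fun y => ?_⟩⟩
  · exact (hA' t ht y).1.trans (le_max_left _ _)
  · exact (hB' t ht y).1.trans (le_max_right _ _)
  · exact (hA' t ht y).2.trans (le_max_left _ _)
  · exact (hB' t ht y).2.trans (le_max_right _ _)

theorem CV4_Lop_der {θ : ℝ} {J : Set ℝ} {r w : ℝ → ℝ} {ε D : ℝ → ℝ → ℝ} (F : Fle θ J r w ε D)
    {t : ℝ} (ht : t ∈ J) (x : ℝ) :
    HasDerivAt (fun τ => Lop 4 (ε τ) x) (Lop 4 (D t) x / (r t) ^ 24) t := by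
  have h0 := F.ev 0 t ht x
  have h2 := F.ev 2 t ht x
  have h := (h2.neg.add h0).sub (h0.const_mul ((Qf 4 x) ^ 4))
  have e1 : (fun τ => Lop 4 (ε τ) x) = fun τ => -iteratedDeriv 2 (ε τ) x + iteratedDeriv 0 (ε τ) x
      - (Qf 4 x) ^ 4 * iteratedDeriv 0 (ε τ) x := by
    funext τ
    exact DerV_Lop 4 (ε τ) x
  rw [e1, DerV_Lop]
  refine h.congr_deriv ?_
  ring

theorem CV4_r {θ : ℝ} {J : Set ℝ} {r w : ℝ → ℝ} {ε D : ℝ → ℝ → ℝ} (F : Fle θ J r w ε D)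
    {t : ℝ} (ht : t ∈ J) : 0 < θ ^ 24 ∧ θ ^ 24 ≤ (r t) ^ 24 ∧ 0 < (r t) ^ 24 := by
  have h1 : 0 < θ ^ 24 := pow_pos F.θ0 24
  have h2 : θ ^ 24 ≤ (r t) ^ 24 := pow_le_pow_left₀ F.θ0.le (F.lo t ht) 24
  exact ⟨h1, h2, lt_of_lt_of_le h1 h2⟩

theorem CV4_div {θ : ℝ} {J : Set ℝ} {r w : ℝ → ℝ} {ε D : ℝ → ℝ → ℝ} (F : Fle θ J r w ε D)
    {t : ℝ} (ht : t ∈ J) {v M : ℝ} (hM : 0 ≤ M) (h : |v| ≤ M) :
    |v / (r t) ^ 24| ≤ M / θ ^ 24 := by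
  obtain ⟨h1, h2, h3⟩ := CV4_r F ht
  rw [abs_div, abs_of_pos h3]
  exact div_le_div₀ hM h h1 h2

theorem CV4_vf_der {θ : ℝ} {J : Set ℝ} {r w : ℝ → ℝ} {ε D : ℝ → ℝ → ℝ} (F : Fle θ J r w ε D)
    {δ : ℝ} (hδ : 0 < δ) {t : ℝ} (ht : t ∈ J) (y : ℝ) :
    HasDerivAt (fun τ => vf 4 δ (ε τ) y) (vf 4 δ (D t) y / (r t) ^ 24) t := by
  obtain ⟨K, hK0, hK⟩ := DerV_Qpow (k := 4) (by norm_num)
  obtain ⟨C, hC0, hC⟩ := CV4_bdd2 F
  have hM : 0 ≤ (2 + K) * C := mul_nonneg (by linarith) hC0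
  have hθ24 : 0 < θ ^ 24 := pow_pos F.θ0 24
  have hk4 : 1 ≤ 4 := by norm_num
  obtain ⟨-, -, h3⟩ := dInt F.op
    (G := fun τ z => ConVker δ z * Lop 4 (ε τ) (y - z))
    (G' := fun τ z => ConVker δ z * (Lop 4 (D τ) (y - z) / (r τ) ^ 24))
    (g := fun z => ConVker δ z * ((2 + K) * C + (2 + K) * C / θ ^ 24))
    ((ConV_ker_int hδ).mul_const _)
    (fun τ hτ => (ConV_ker_cont δ).mul ((ConV_Lop_cont hk4 (F.sm τ hτ)).comp
      (continuous_const.sub continuous_id)))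
    (fun τ hτ => (ConV_ker_cont δ).mul (((ConV_Lop_cont hk4 (F.sd τ hτ)).comp
      (continuous_const.sub continuous_id)).div_const _))
    (fun τ hτ z => by
      rw [abs_mul, abs_of_nonneg (ConV_ker_nonneg δ z)]
      refine mul_le_mul_of_nonneg_left ?_ (ConV_ker_nonneg δ z)
      have h := DerV_Lop_bd hK (hC τ hτ).1 (hC τ hτ).2.1 (y - z)
      have h2 : 0 ≤ (2 + K) * C / θ ^ 24 := div_nonneg hM hθ24.le
      linarith)
    (fun τ hτ z => by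
      rw [abs_mul, abs_of_nonneg (ConV_ker_nonneg δ z)]
      refine mul_le_mul_of_nonneg_left ?_ (ConV_ker_nonneg δ z)
      have h := CV4_div F hτ hM (DerV_Lop_bd hK (hC τ hτ).2.2.1 (hC τ hτ).2.2.2 (y - z))
      linarith)
    (fun τ hτ z => (CV4_Lop_der F hτ (y - z)).const_mul (ConVker δ z)) ht
  have e1 : (fun τ => vf 4 δ (ε τ) y) = fun τ => ∫ z, ConVker δ z * Lop 4 (ε τ) (y - z) := by
    funext τ
    rfl
  have e2 : (∫ z, ConVker δ z * (Lop 4 (D t) (y - z) / (r t) ^ 24)) =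
      vf 4 δ (D t) y / (r t) ^ 24 := by
    have e3 : vf 4 δ (D t) y = ∫ z, ConVker δ z * Lop 4 (D t) (y - z) := rfl
    rw [e3, ← integral_div]
    refine integral_congr_ae (Eventually.of_forall fun z => ?_)
    simp only
    ring
  rw [e1, ← e2]
  exact h3

theorem der_V4 {θ : ℝ} {J : Set ℝ} {r w : ℝ → ℝ} {ε D : ℝ → ℝ → ℝ} (F : Fle θ J r w ε D) {B δ : ℝ}
    (hB : 0 < B) (hδ : 0 < δ) (η γ : ℝ) {t : ℝ} (ht : t ∈ J) :
    HasDerivAt (fun τ => Vf 4 η γ B δ (ε τ)) (DV 4 η γ B δ (ε t) (D t) / (r t) ^ 24) t := by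
  obtain ⟨C, hC0, hC⟩ := CV4_bdd2 F
  obtain ⟨C₁, hC1, hv⟩ := vf_bound (k := 4) (δ := δ) (by norm_num) hδ
  obtain ⟨hPc, hPi, -⟩ := Psi_bound 4 η γ hB
  have hE : ∀ τ ∈ J, Continuous (vf 4 δ (ε τ)) ∧ ∀ y, |vf 4 δ (ε τ) y| ≤ C₁ * C := by
    intro τ hτ
    refine hv C (ε τ) (F.sm τ hτ) (fun y => ?_) (hC τ hτ).2.1
    have h := (hC τ hτ).1 y
    rwa [DerV_it0] at h
  have hZ : ∀ τ ∈ J, Continuous (vf 4 δ (D τ)) ∧ ∀ y, |vf 4 δ (D τ) y| ≤ C₁ * C := by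
    intro τ hτ
    refine hv C (D τ) (F.sd τ hτ) (fun y => ?_) (hC τ hτ).2.2.2
    have h := (hC τ hτ).2.2.1 y
    rwa [DerV_it0] at h
  have hM : 0 ≤ C₁ * C := mul_nonneg hC1 hC0
  have hθ24 : 0 < θ ^ 24 := pow_pos F.θ0 24
  have hA : 0 ≤ (C₁ * C) ^ 2 := sq_nonneg _
  have hB' : 0 ≤ 2 * (C₁ * C) * (C₁ * C / θ ^ 24) :=
    mul_nonneg (mul_nonneg (by norm_num) hM) (div_nonneg hM hθ24.le)
  obtain ⟨-, -, h3⟩ := dInt F.op
    (G := fun τ y => Psi 4 η γ B y * (vf 4 δ (ε τ) y) ^ 2)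
    (G' := fun τ y => Psi 4 η γ B y * (2 * vf 4 δ (ε τ) y * (vf 4 δ (D τ) y / (r τ) ^ 24)))
    (g := fun y => |Psi 4 η γ B y| * ((C₁ * C) ^ 2 + 2 * (C₁ * C) * (C₁ * C / θ ^ 24)))
    (hPi.abs.mul_const _)
    (fun τ hτ => hPc.mul ((hE τ hτ).1.pow 2))
    (fun τ hτ => hPc.mul (((hE τ hτ).1.const_mul 2).mul ((hZ τ hτ).1.div_const _)))
    (fun τ hτ y => by
      rw [abs_mul, abs_pow]
      refine mul_le_mul_of_nonneg_left ?_ (abs_nonneg _)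
      have h := pow_le_pow_left₀ (abs_nonneg _) ((hE τ hτ).2 y) 2
      linarith)
    (fun τ hτ y => by
      rw [abs_mul, abs_mul, abs_mul, abs_two]
      refine mul_le_mul_of_nonneg_left ?_ (abs_nonneg _)
      have h1 := CV4_div F hτ hM ((hZ τ hτ).2 y)
      have h2 : 2 * |vf 4 δ (ε τ) y| ≤ 2 * (C₁ * C) :=
        mul_le_mul_of_nonneg_left ((hE τ hτ).2 y) (by norm_num)
      have h3 := mul_le_mul h2 h1 (abs_nonneg _) (mul_nonneg (by norm_num) hM)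
      linarith)
    (fun τ hτ y => by
      have h := ((CV4_vf_der F hδ hτ y).pow 2).const_mul (Psi 4 η γ B y)
      refine h.congr_deriv ?_
      norm_num) ht
  have h4 := h3.const_mul (1 / 2 : ℝ)
  refine h4.congr_deriv ?_
  have e3 : DV 4 η γ B δ (ε t) (D t) = ∫ y, Psi 4 η γ B y * (vf 4 δ (ε t) y * vf 4 δ (D t) y) := rfl
  rw [e3, ← integral_div, ← integral_const_mul]
  refine integral_congr_ae (Eventually.of_forall fun y => ?_)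
  simp only
  ring

end H72KC
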