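import Pool.Agent.H72.KC.Flg
import Pool.Agent.H72.KC.Base4
import Pool.Agent.H72.KB.ZB

/-!
# Row FlU: the trajectory gives `Fa` on `[0,T]` and `Flo` near interior times

`r t = (lt lo hi P t)^(1/8)` (real power), so `(r t)^8 = lt`, `(r t)^24 = lt^3`, `r` continuous, `lo ≤ r ≤ 1` (`lo ≤ lt ≤ r` because `lt ≤ 1`).
`θ = lo/32`.
`fa_Wt`: from `fam_Wt` (`bd (lo/16) (lo/16) ≤ bd (lo/32) (lo/32)`, `bd_anti`).
`flo_Wt`: from `flow_et` (a `Flow 4 0 (lo/16) J ..` for `et = Wt - Q`, `lam = lt`): `op`; `dr`: `r = lt^(1/8)`, `lt' = -w/lt^2` (`Flow.dl`), so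
`r' = (1/8) lt^(1/8-1) lt' = (1/8) r/lt * (-w/lt^2) = -(w r/8)/lt^3`; `bw`: `Flow.bm`; `sm`: `fam_Wt` or `Wt = Q + et`; `sz`: `zeta_smooth`;
`bd`: for `W` `fam_Wt`, for `Z = zeta ..`: `zeta_bound` (`R = 0`, `bd (0*lam + θ'/2) (θ'/2)` with `θ' = lo/16`, i.e. `bd (lo/32) (lo/32)`);
`ev`: `Flow.ev` for `et` and `iteratedDeriv j (Wt) = iteratedDeriv j (et) + iteratedDeriv j Q` near `t` (`J` open; `Q` does not depend on time).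
`ze w m l W et = zeta 4 w m l (fun y => W y - Qf 4 y) et` and `et k .. t = fun y => Wt .. y - Qf k y` (`rfl`, `epf`).
-/

open MeasureTheory Filter Topology Set
open scoped ContDiff

namespace H72KC

open H98KB H72KB H68KC

/-- `r = λ^{1/8}` along the trajectory -/
noncomputable def rt (lo hi : ℝ) (P : ℝ → ℝ × ℝ) (t : ℝ) : ℝ := (lt lo hi P t) ^ ((1:ℝ) / 8)

theorem FlU_lt {lo hi : ℝ} (hlo : 0 < lo) (P : ℝ → ℝ × ℝ) (t : ℝ) :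
    0 < lt lo hi P t ∧ lo ≤ lt lo hi P t := by
  have h : lo ≤ lt lo hi P t := FamR_clp_lo _
  exact ⟨by linarith, h⟩

theorem rt_pow {lo hi : ℝ} (hlo : 0 < lo) (P : ℝ → ℝ × ℝ) (t : ℝ) :
    0 < rt lo hi P t ∧ (rt lo hi P t) ^ 8 = lt lo hi P t := by
  have h := FlU_lt (hi := hi) hlo P t
  refine ⟨Real.rpow_pos_of_pos h.1 _, ?_⟩
  unfold rt
  rw [← Real.rpow_natCast, ← Real.rpow_mul h.1.le]
  norm_num

theorem FlU_r {lo hi : ℝ} (hlo : 0 < lo) (hlh : lo ≤ hi) (hhi : hi ≤ 1) (P : ℝ → ℝ × ℝ) (t : ℝ) :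
    lo / 32 ≤ rt lo hi P t ∧ rt lo hi P t ≤ 1 := by
  have h := FlU_lt (hi := hi) hlo P t
  have h2 : lt lo hi P t ≤ 1 := (FamR_clp_hi hlh _).trans hhi
  have h3 := rt_pow (hi := hi) hlo P t
  have h4 : rt lo hi P t ≤ 1 := Real.rpow_le_one h.1.le h2 (by norm_num)
  refine ⟨?_, h4⟩
  have h5 : (rt lo hi P t) ^ 8 ≤ rt lo hi P t :=
    pow_le_of_le_one h3.1.le h4 (by norm_num)
  rw [h3.2] at h5
  linarith [h.2]

theorem FlU_bd {lo : ℝ} (hlo : 0 < lo) (y : ℝ) :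
    H98KB.bd (lo / 16) (lo / 16) y ≤ H98KB.bd (lo / 32) (lo / 32) y :=
  bd_anti (by linarith) (by linarith) y

theorem fa_Wt {φ : ℝ → ℝ} {d T α l₀ lo hi X₀ : ℝ} {U e : ℝ → ℝ → ℝ} {P : ℝ → ℝ × ℝ}
    (hα : 1 ≤ α) (hlo : 0 < lo) (hlh : lo ≤ hi) (hhi : hi ≤ 1) (hX : 0 ≤ X₀)
    (h : App 4 T α U e) (hP : Tr 4 φ d T l₀ lo hi X₀ U e P) :
    Fa (lo / 32) (Icc 0 T) (rt lo hi P) (Wt 4 lo hi X₀ U P) := by
  obtain ⟨h1, h2, h3, h4⟩ := fam_Wt hα hlo hlh hhi hX h hP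
  refine ⟨by positivity, by linarith, fun t _ => (FlU_r hlo hlh hhi P t).1,
    fun t _ => (FlU_r hlo hlh hhi P t).2, ?_, h2, ?_, h4⟩
  · exact h1.rpow_const (fun t _ => Or.inl (FlU_lt hlo P t).1.ne')
  · intro j
    obtain ⟨C, hC0, hC⟩ := h3 j
    exact ⟨C, hC0, fun t ht y => ((hC t ht y).1).trans
      (mul_le_mul_of_nonneg_left (FlU_bd hlo y) hC0)⟩

theorem flo_Wt {φ : ℝ → ℝ} {d T α l₀ lo hi X₀ : ℝ} {U e : ℝ → ℝ → ℝ} {P : ℝ → ℝ × ℝ}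
    (hT : 0 < T) (hα : 1 ≤ α) (hlo : 0 < lo) (hlh : lo ≤ hi) (hhi : hi ≤ 1)
    (hX : 0 ≤ X₀) (h : App 4 T α U e) (hP : Tr 4 φ d T l₀ lo hi X₀ U e P) (L : ℝ)
    (hL : ∀ t ∈ Icc 0 T, ∀ P, ‖VG 4 φ d lo hi X₀ U e t P‖ ≤ L)
    {t₀ : ℝ} (ht₀ : t₀ ∈ Ioo 0 T) (h1 : lo < (P t₀).1)
    (h2 : (P t₀).1 < hi) (h3 : |(P t₀).2| < X₀) :
    ∃ J : Set ℝ, t₀ ∈ J ∧ J ⊆ Ioo 0 T ∧ (∀ t ∈ J, lo < (P t).1 ∧ (P t).1 < hi ∧ |(P t).2| < X₀) ∧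
      Flo (lo / 32) J (rt lo hi P) (wt' 4 φ d lo hi X₀ U e P) (Wt 4 lo hi X₀ U P)
        (fun t => ze (wt' 4 φ d lo hi X₀ U e P t) (mt' 4 φ d lo hi X₀ U e P t)
          (lt lo hi P t) (Wt 4 lo hi X₀ U P t) (ft 4 lo hi X₀ e P t)) := by
  obtain ⟨g1, g2, g3, g4⟩ := fam_Wt hα hlo hlh hhi hX h hP
  obtain ⟨J, hJ1, hJ2, hJ3, F⟩ := flow_et (by norm_num : 1 ≤ 4) hT hα hlo hlh hhi hX h hP L hL
    ht₀ h1 h2 h3
  have hQ : ContDiff ℝ ∞ (Qf 4) := qbas_smooth (by norm_num : 1 ≤ 4)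
  have hIcc : ∀ t ∈ J, t ∈ Icc 0 T := fun t ht => ⟨(hJ2 ht).1.le, (hJ2 ht).2.le⟩
  have h24 : ∀ t, (rt lo hi P t) ^ 24 = (lt lo hi P t) ^ 3 := by
    intro t
    have := (rt_pow (hi := hi) hlo P t).2
    rw [← this]; ring
  refine ⟨J, hJ1, hJ2, hJ3, F.op, by positivity, by linarith,
    fun t _ => (FlU_r hlo hlh hhi P t).1, fun t _ => (FlU_r hlo hlh hhi P t).2, ?_, ?_,
    fun t ht => g2 t (hIcc t ht), ?_, ?_, ?_⟩
  · intro t ht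
    have hl := FlU_lt (hi := hi) hlo P t
    have hd := (F.dl t ht).rpow_const (p := (1:ℝ) / 8) (Or.inl hl.1.ne')
    refine hd.congr_deriv ?_
    rw [h24, Real.rpow_sub_one hl.1.ne']
    have hr : (lt lo hi P t) ^ ((1:ℝ) / 8) = rt lo hi P t := rfl
    have hl0 := hl.1.ne'
    rw [hr]
    field_simp
  · obtain ⟨C, hC⟩ := F.bm
    exact ⟨|C|, abs_nonneg C, fun t ht => (hC t ht).1.trans (le_abs_self C)⟩
  · intro t ht
    exact zeta_smooth (by norm_num : 1 ≤ 4) _ _ _ (F.sm t ht) (F.se t ht)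
  · intro j
    obtain ⟨C, hC0, hC⟩ := g3 j
    obtain ⟨D, hD0, hD⟩ := zeta_bound (by norm_num : 1 ≤ 4) F j
    refine ⟨max C D, le_trans hC0 (le_max_left _ _), fun t ht y => ⟨?_, ?_⟩⟩
    · refine ((hC t (hIcc t ht) y).1).trans ?_
      exact mul_le_mul (le_max_left _ _) (FlU_bd hlo y) (bd_pos _ _ _).le
        (le_trans hC0 (le_max_left _ _))
    · refine (hD t ht y).trans ?_
      have e1 : H98KB.bd (0 * lt lo hi P t + lo / 16 / 2) (lo / 16 / 2) y =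
          H98KB.bd (lo / 32) (lo / 32) y := by
        congr 1 <;> ring
      rw [e1]
      exact mul_le_mul_of_nonneg_right (le_max_right _ _) (bd_pos _ _ _).le
  · intro j t ht y
    have hev := (F.ev j t ht y).add_const (iteratedDeriv j (Qf 4) y)
    rw [h24]
    refine (hev.congr_deriv rfl).congr_of_eventuallyEq ?_
    filter_upwards [F.op.mem_nhds ht] with s hs
    have e4 : iteratedDeriv j (et 4 lo hi X₀ U P s) y =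
        iteratedDeriv j (Wt 4 lo hi X₀ U P s) y - iteratedDeriv j (Qf 4) y :=
      iteratedDeriv_fun_sub (ClB_at (g2 s (hIcc s hs)) j y) (ClB_at hQ j y)
    rw [e4]
    ring

end H72KC
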