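import Pool.Agent.H72.KC.WtZ
import Pool.Agent.H72.KB.DerE

/-!
# Row DE4r: time derivative of the energy functional `E4 B (r^2) (ε t)` along a bounded flow

`DE4 B s w ε D = (∫ om4 B s y * (ε' D' + (ε - Df 4 ε) D)) - 1/8 w s ∫ y * Th B y * Zf'(s y) * (ε'^2 + ε^2 - 2 bF 4 ε)`.
Proof.  `dInt` with `G τ y = om4 B ((r τ)^2) y * (ε'^2 + ε^2 - 2 bF 4 ε y)`.  With `s = r^2`: `s' = 2 r r' = -(w/4) s / r^24` (`F.dr`), so
 `∂_τ om4 = Th B y * Zf'(s y) * y * s' = -(w/4) s y Th Zf'(s y) / r^24`;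
 `∂_τ ε = D/r^24`, `∂_τ ε' = D'/r^24` (`F.ev 0, 1`), `∂_τ bF 4 ε = Df 4 ε * D / r^24` (`Fl' = fl`; see `DerE_diff` in `KB/DerE.lean`).
So `G' = [2 om4 (ε' D' + (ε - Df) D) - (w/4) s y Th Zf'(s y) (ε'^2+ε^2-2bF)] / r^24`, and `1/2 ∫ G' = DE4 / r^24`
(split the integral: both parts are integrable by the bounds below; `integral_sub, integral_const_mul, integral_div`).
DOMINATION: `|ε|,|ε'|,|D|,|D'| ≤ C`, `|bF| ≤ C₁ ε^2` (`bF_bound`), `|Df| ≤ C₂ |ε|` (`DerE_Df`), `|w| ≤ Cw`, `s ≤ 1`, `r^24 ≥ θ^24`, and `om4_dom`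
with `σ = θ^2` (`C bd (σ/2) (σ/2)` is integrable).
-/

open MeasureTheory Filter Topology Set
open scoped ContDiff

namespace H72KC

open H98KB H72KB H68KC

/-- the quadratic expression -/
noncomputable def DE4r_q (ε : ℝ → ℝ) (y : ℝ) : ℝ := (deriv ε y) ^ 2 + (ε y) ^ 2 - 2 * bF 4 ε y

/-- the bilinear expression -/
noncomputable def DE4r_p (ε D : ℝ → ℝ) (y : ℝ) : ℝ := deriv ε y * deriv D y + (ε y - Df 4 ε y) * D y

theorem DE4r_contQ {ε : ℝ → ℝ} (hε : ContDiff ℝ ∞ ε) : Continuous (DE4r_q ε) := by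
  have h2 : Continuous ε := hε.continuous
  have h3 : Continuous (deriv ε) := hε.continuous_deriv (by simp)
  have h4 := DerE_Qcont (k := 4) (by norm_num)
  have h5 : Continuous fun y => bF 4 ε y := by
    unfold bF Fl fl
    fun_prop
  unfold DE4r_q
  fun_prop

theorem DE4r_contP {ε D : ℝ → ℝ} (hε : ContDiff ℝ ∞ ε) (hD : ContDiff ℝ ∞ D) :
    Continuous (DE4r_p ε D) := by
  have h2 : Continuous ε := hε.continuous
  have h3 : Continuous (deriv ε) := hε.continuous_deriv (by simp)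
  have h6 : Continuous D := hD.continuous
  have h7 : Continuous (deriv D) := hD.continuous_deriv (by simp)
  have h4 := DerE_Qcont (k := 4) (by norm_num)
  have h5 : Continuous fun y => Df 4 ε y := by
    unfold Df fl
    fun_prop
  unfold DE4r_p
  fun_prop

theorem DE4r_contO (B s : ℝ) : Continuous (om4 B s) := by
  have h1 : Continuous (Th B) := (th_smooth B).continuous
  have h2 : Continuous Zf := zf_smooth.continuous
  unfold om4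
  fun_prop

theorem DE4r_contW (B s : ℝ) : Continuous (fun y => y * Th B y * deriv Zf (s * y)) := by
  have h1 : Continuous (Th B) := (th_smooth B).continuous
  have h2 : Continuous (deriv Zf) := zf_smooth.continuous_deriv (by simp)
  fun_prop

theorem DE4r_ptP {e0 e1 z0 z1 df C0 C1 Z0 Z1 Cd : ℝ} (hC0 : 0 ≤ C0) (hC1 : 0 ≤ C1)
    (hCd : 0 ≤ Cd) (h0 : |e0| ≤ C0) (h1 : |e1| ≤ C1) (hz0 : |z0| ≤ Z0) (hz1 : |z1| ≤ Z1)
    (hdf : |df| ≤ Cd * |e0|) : |e1 * z1 + (e0 - df) * z0| ≤ C1 * Z1 + (C0 + Cd * C0) * Z0 := by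
  have h2 : |e1 * z1| ≤ C1 * Z1 := by
    rw [abs_mul]
    exact mul_le_mul h1 hz1 (abs_nonneg _) hC1
  have h3 : |e0 - df| ≤ C0 + Cd * C0 := by
    have h4 := abs_sub e0 df
    have h5 := mul_le_mul_of_nonneg_left h0 hCd
    linarith
  have h4 : |(e0 - df) * z0| ≤ (C0 + Cd * C0) * Z0 := by
    rw [abs_mul]
    exact mul_le_mul h3 hz0 (abs_nonneg _) (by positivity)
  have h5 := abs_add_le (e1 * z1) ((e0 - df) * z0)
  linarith

theorem DE4r_ptQ {e0 e1 bf C0 C1 Cb : ℝ} (hCb : 0 ≤ Cb) (h0 : |e0| ≤ C0)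
    (h1 : |e1| ≤ C1) (hbf : |bf| ≤ Cb * e0 ^ 2) :
    |e1 ^ 2 + e0 ^ 2 - 2 * bf| ≤ C1 ^ 2 + C0 ^ 2 + 2 * Cb * C0 ^ 2 := by
  have h2 : e1 ^ 2 ≤ C1 ^ 2 := by
    rw [← sq_abs e1]
    exact pow_le_pow_left₀ (abs_nonneg _) h1 2
  have h3 : e0 ^ 2 ≤ C0 ^ 2 := by
    rw [← sq_abs e0]
    exact pow_le_pow_left₀ (abs_nonneg _) h0 2
  have h7 := abs_le.1 hbf
  have h8 := mul_le_mul_of_nonneg_left h3 hCb
  rw [abs_le]
  constructor
  · nlinarith [sq_nonneg e1, sq_nonneg e0]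
  · nlinarith [sq_nonneg e1, sq_nonneg e0]

/-- the integrand -/
noncomputable def DE4r_G (B : ℝ) (r : ℝ → ℝ) (ε : ℝ → ℝ → ℝ) (τ y : ℝ) : ℝ :=
  om4 B ((r τ) ^ 2) y * DE4r_q (ε τ) y

/-- its time derivative -/
noncomputable def DE4r_G' (B : ℝ) (r w : ℝ → ℝ) (ε D : ℝ → ℝ → ℝ) (τ y : ℝ) : ℝ :=
  1 / (r τ) ^ 24 * (2 * (om4 B ((r τ) ^ 2) y * DE4r_p (ε τ) (D τ) y) -
    w τ / 4 * (r τ) ^ 2 * (y * Th B y * deriv Zf ((r τ) ^ 2 * y) * DE4r_q (ε τ) y))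

theorem DE4r_diff {θ : ℝ} {J : Set ℝ} {r w : ℝ → ℝ} {ε D : ℝ → ℝ → ℝ} (F : Fle θ J r w ε D) (B : ℝ)
    {τ : ℝ} (hτ : τ ∈ J) (y : ℝ) :
    HasDerivAt (fun τ => DE4r_G B r ε τ y) (DE4r_G' B r w ε D τ y) τ := by
  have hr0 : r τ ≠ 0 := (F.θ0.trans_le (F.lo τ hτ)).ne'
  have h0 := F.ev 0 τ hτ y
  have h1 := F.ev 1 τ hτ y
  simp only [iteratedDeriv_zero] at h0
  simp only [iteratedDeriv_one] at h1
  have hr := F.dr τ hτ
  have hs := (hr.pow 2).mul_const y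
  have hZ := ((zf_der ((r τ) ^ 2 * y)).1)
  have hom := (HasDerivAt.comp τ hZ hs).const_mul (Th B y)
  have hbF : HasDerivAt (fun τ => bF 4 (ε τ) y)
      (Df 4 (ε τ) y * (D τ y / (r τ) ^ 24)) τ := by
    have h2 := (((h0.const_add (Qf 4 y)).pow (4 + 2)).div_const (((4 : ℕ) + 1 : ℝ) * ((4 : ℕ) + 2 : ℝ)))
    have h3 := (h2.sub_const (Fl 4 (Qf 4 y))).sub (h0.const_mul (fl 4 (Qf 4 y)))
    refine h3.congr_deriv ?_
    unfold Df fl
    norm_num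
    field_simp
    ring
  have hG := ((h1.pow 2).add (h0.pow 2)).sub (hbF.const_mul 2)
  have h := hom.mul hG
  refine h.congr_deriv ?_
  simp only [Pi.add_apply, Pi.sub_apply, Pi.pow_apply, Function.comp]
  unfold DE4r_G' DE4r_q DE4r_p om4
  field_simp
  ring

theorem der_E4 {θ : ℝ} {J : Set ℝ} {r w : ℝ → ℝ} {ε D : ℝ → ℝ → ℝ} (F : Fle θ J r w ε D) (B : ℝ)
    {t : ℝ} (ht : t ∈ J) :
    HasDerivAt (fun τ => E4 B ((r τ) ^ 2) (ε τ))
      (DE4 B ((r t) ^ 2) (w t) (ε t) (D t) / (r t) ^ 24) t := by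
  obtain ⟨C0, hC0, b0⟩ := F.bd 0
  obtain ⟨C1, hC1, b1⟩ := F.bd 1
  obtain ⟨Cb, hCb, hb⟩ := bF_bound (k := 4) (by norm_num) C0
  obtain ⟨Cd, hCd, hd⟩ := DerE_Df (k := 4) (by norm_num) C0
  obtain ⟨Cw, hCw, hw⟩ := F.bw
  have hθ := F.θ0
  have hσ : 0 < θ ^ 2 := by positivity
  obtain ⟨K, hK, hdom⟩ := om4_dom hσ
  set KP := C1 * C1 + (C0 + Cd * C0) * C0 with hKP
  set KQ := C1 ^ 2 + C0 ^ 2 + 2 * Cb * C0 ^ 2 with hKQ
  have hKP0 : 0 ≤ KP := by positivity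
  have hKQ0 : 0 ≤ KQ := by positivity
  have hbint : Integrable (bd (θ ^ 2 / 2) (θ ^ 2 / 2)) := H72KB.bd_int (by positivity) (by positivity)
  have hsτ : ∀ τ ∈ J, θ ^ 2 ≤ (r τ) ^ 2 := fun τ hτ => pow_le_pow_left₀ hθ.le (F.lo τ hτ) 2
  have hP : ∀ τ ∈ J, ∀ y, |DE4r_p (ε τ) (D τ) y| ≤ KP := by
    intro τ hτ y
    have e0 := b0 τ hτ y
    have e1 := b1 τ hτ y
    simp only [iteratedDeriv_zero] at e0
    simp only [iteratedDeriv_one] at e1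
    exact DE4r_ptP hC0 hC1 hCd e0.1 e1.1 e0.2 e1.2 (hd (ε τ) y e0.1)
  have hQ : ∀ τ ∈ J, ∀ y, |DE4r_q (ε τ) y| ≤ KQ := by
    intro τ hτ y
    have e0 := b0 τ hτ y
    have e1 := b1 τ hτ y
    simp only [iteratedDeriv_zero] at e0
    simp only [iteratedDeriv_one] at e1
    exact DE4r_ptQ hCb e0.1 e1.1 (hb (ε τ) y e0.1)
  have hbn : ∀ y, 0 ≤ bd (θ ^ 2 / 2) (θ ^ 2 / 2) y := fun y => (H72KB.bd_pos _ _ _).le
  have hG : ∀ τ ∈ J, ∀ y, |DE4r_G B r ε τ y| ≤ K * KQ * bd (θ ^ 2 / 2) (θ ^ 2 / 2) y := by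
    intro τ hτ y
    unfold DE4r_G
    rw [abs_mul]
    have h1 := (hdom B ((r τ) ^ 2) y (hsτ τ hτ)).1
    have h2 := hQ τ hτ y
    have h3 := mul_le_mul h1 h2 (abs_nonneg _) (mul_nonneg hK (hbn y))
    linarith
  have hA : ∀ τ ∈ J, ∀ y, |om4 B ((r τ) ^ 2) y * DE4r_p (ε τ) (D τ) y| ≤
      K * KP * bd (θ ^ 2 / 2) (θ ^ 2 / 2) y := by
    intro τ hτ y
    rw [abs_mul]
    have h1 := (hdom B ((r τ) ^ 2) y (hsτ τ hτ)).1
    have h2 := hP τ hτ y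
    have h3 := mul_le_mul h1 h2 (abs_nonneg _) (mul_nonneg hK (hbn y))
    linarith
  have hH : ∀ τ ∈ J, ∀ y, |y * Th B y * deriv Zf ((r τ) ^ 2 * y) * DE4r_q (ε τ) y| ≤
      K * KQ * bd (θ ^ 2 / 2) (θ ^ 2 / 2) y := by
    intro τ hτ y
    rw [abs_mul]
    have h1 := (hdom B ((r τ) ^ 2) y (hsτ τ hτ)).2
    have h2 := hQ τ hτ y
    have h3 := mul_le_mul h1 h2 (abs_nonneg _) (mul_nonneg hK (hbn y))
    linarith
  have cA : ∀ τ ∈ J, Continuous (fun y => om4 B ((r τ) ^ 2) y * DE4r_p (ε τ) (D τ) y) :=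
    fun τ hτ => (DE4r_contO B _).mul (DE4r_contP (F.sm τ hτ) (F.sd τ hτ))
  have cH : ∀ τ ∈ J, Continuous (fun y => y * Th B y * deriv Zf ((r τ) ^ 2 * y) * DE4r_q (ε τ) y) :=
    fun τ hτ => (DE4r_contW B _).mul (DE4r_contQ (F.sm τ hτ))
  have iA : Integrable (fun y => om4 B ((r t) ^ 2) y * DE4r_p (ε t) (D t) y) :=
    (hbint.const_mul (K * KP)).mono' (cA t ht).aestronglyMeasurable
      (Eventually.of_forall fun y => hA t ht y)
  have iH : Integrable (fun y => y * Th B y * deriv Zf ((r t) ^ 2 * y) * DE4r_q (ε t) y) :=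
    (hbint.const_mul (K * KQ)).mono' (cH t ht).aestronglyMeasurable
      (Eventually.of_forall fun y => hH t ht y)
  have main := dInt F.op (G := DE4r_G B r ε) (G' := DE4r_G' B r w ε D)
    (g := fun y => (K * KQ + 1 / θ ^ 24 * (2 * (K * KP) + Cw / 4 * (K * KQ))) *
      bd (θ ^ 2 / 2) (θ ^ 2 / 2) y)
    (hbint.const_mul _)
    (fun τ hτ => (DE4r_contO B _).mul (DE4r_contQ (F.sm τ hτ)))
    (fun τ hτ => by
      have h1 := cA τ hτ
      have h2 := cH τ hτ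
      unfold DE4r_G'
      fun_prop)
    (fun τ hτ y => by
      have h1 := hG τ hτ y
      have h2 : 0 ≤ 1 / θ ^ 24 * (2 * (K * KP) + Cw / 4 * (K * KQ)) *
        bd (θ ^ 2 / 2) (θ ^ 2 / 2) y := mul_nonneg (by positivity) (hbn y)
      linarith)
    (fun τ hτ y => by
      have hr0 : 0 < r τ := hθ.trans_le (F.lo τ hτ)
      have h1 := hA τ hτ y
      have h2 := hH τ hτ y
      have h3 : 1 / (r τ) ^ 24 ≤ 1 / θ ^ 24 :=
        one_div_le_one_div_of_le (by positivity) (pow_le_pow_left₀ hθ.le (F.lo τ hτ) 24)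
      have h4 : |w τ / 4 * (r τ) ^ 2| ≤ Cw / 4 := by
        rw [abs_mul, abs_div, abs_of_pos (by norm_num : (0 : ℝ) < 4),
          abs_of_nonneg (by positivity : 0 ≤ (r τ) ^ 2)]
        have h5 : (r τ) ^ 2 ≤ 1 := pow_le_one₀ hr0.le (F.hi τ hτ)
        have h6 := hw τ hτ
        calc |w τ| / 4 * (r τ) ^ 2 ≤ Cw / 4 * 1 :=
              mul_le_mul (by linarith) h5 (by positivity) (by positivity)
          _ = Cw / 4 := by ring
      have h5 : |w τ / 4 * (r τ) ^ 2 * (y * Th B y * deriv Zf ((r τ) ^ 2 * y) * DE4r_q (ε τ) y)| ≤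
          Cw / 4 * (K * KQ * bd (θ ^ 2 / 2) (θ ^ 2 / 2) y) := by
        rw [abs_mul]
        exact mul_le_mul h4 h2 (abs_nonneg _) (by positivity)
      have h6 : |2 * (om4 B ((r τ) ^ 2) y * DE4r_p (ε τ) (D τ) y)| ≤
          2 * (K * KP * bd (θ ^ 2 / 2) (θ ^ 2 / 2) y) := by
        rw [abs_mul, abs_of_pos (by norm_num : (0 : ℝ) < 2)]
        linarith
      have h7 := abs_sub (2 * (om4 B ((r τ) ^ 2) y * DE4r_p (ε τ) (D τ) y))
        (w τ / 4 * (r τ) ^ 2 * (y * Th B y * deriv Zf ((r τ) ^ 2 * y) * DE4r_q (ε τ) y))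
      unfold DE4r_G'
      rw [abs_mul, abs_of_pos (by positivity : 0 < 1 / (r τ) ^ 24)]
      have h8 : 0 ≤ K * KQ * bd (θ ^ 2 / 2) (θ ^ 2 / 2) y :=
        mul_nonneg (by positivity) (hbn y)
      calc _ ≤ 1 / θ ^ 24 * (2 * (K * KP * bd (θ ^ 2 / 2) (θ ^ 2 / 2) y) +
            Cw / 4 * (K * KQ * bd (θ ^ 2 / 2) (θ ^ 2 / 2) y)) :=
            mul_le_mul h3 (by linarith) (abs_nonneg _) (by positivity)
        _ ≤ _ := by linarith)
    (fun τ hτ y => DE4r_diff F B hτ y) ht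
  have h2 := main.2.2.const_mul (1 / 2)
  refine h2.congr_deriv ?_
  unfold DE4r_G'
  rw [integral_const_mul, integral_sub (iA.const_mul _) (iH.const_mul _), integral_const_mul,
    integral_const_mul]
  unfold DE4
  have e2 : (∫ y, y * Th B y * deriv Zf ((r t) ^ 2 * y) * ((deriv (ε t) y) ^ 2 + (ε t y) ^ 2 -
      2 * bF 4 (ε t) y)) = ∫ y, y * Th B y * deriv Zf ((r t) ^ 2 * y) * DE4r_q (ε t) y := rfl
  have e3 : (∫ y, om4 B ((r t) ^ 2) y * (deriv (ε t) y * deriv (D t) y +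
      (ε t y - Df 4 (ε t) y) * D t y)) = ∫ y, om4 B ((r t) ^ 2) y * DE4r_p (ε t) (D t) y := rfl
  rw [e2, e3]
  ring

end H72KC
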