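import Pool.Agent.H72.KC.BEp
import Pool.Agent.H72.KC.CE4
import Pool.Agent.H72.KC.DE4r
import Pool.Agent.H72.KC.CV4
import Pool.Agent.H72.KC.CNr
import Pool.Agent.H72.KC.CEw

/-!
# Row GLl: the Lyapunov functional

`LL4 = M * E4 + Vf + K0 / r^6 * Nn`; `DLL4 = M * DE4 + DV + K0/r^6 * (DNn + 3/4 w Nn)`.
Proof.  `fae_ep`/`fle_ep` + `con_E4, con_V4, con_Nn` / `der_E4, der_V4, der_Nn`; `(K0/r^6)' = -6 K0 r'/r^7 = (3/4) w K0 / r^6 / r^24` (`F.dr`).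
-/

open MeasureTheory Filter Topology Set
open scoped ContDiff

namespace H72KC

open H98KB H72KB H68KC

theorem con_LL4 {P E : ℝ → ℝ} (hp : Prof P E) {θ : ℝ} {S : Set ℝ} {r : ℝ → ℝ} {W : ℝ → ℝ → ℝ}
    (F : Fa θ S r W) {B δ : ℝ} (hB : 0 < B) (hδ : 0 < δ) (η γ M K0 : ℝ) :
    ContinuousOn (fun t => LL4 P E η γ δ M B K0 (r t) (W t)) S := by
  have hA := fae_ep hp F
  have h1 := con_E4 hA B
  have h2 := con_V4 hA hB hδ η γ
  have h3 := con_Nn F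
  have hr : ∀ t ∈ S, (r t) ^ 6 ≠ 0 := fun t ht =>
    pow_ne_zero 6 (lt_of_lt_of_le F.θ0 (F.lo t ht)).ne'
  have h4 : ContinuousOn (fun t => K0 / (r t) ^ 6) S := continuousOn_const.div (F.cr.pow 6) hr
  exact ((continuousOn_const.mul h1).add h2).add (h4.mul h3)

theorem der_LL4 {P E : ℝ → ℝ} (hp : Prof P E) {θ : ℝ} {J : Set ℝ} {r w : ℝ → ℝ}
    {W Z : ℝ → ℝ → ℝ} (F : Flo θ J r w W Z) {B δ : ℝ} (hB : 0 < B) (hδ : 0 < δ) (η γ M K0 : ℝ)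
    {t : ℝ} (ht : t ∈ J) :
    HasDerivAt (fun τ => LL4 P E η γ δ M B K0 (r τ) (W τ))
      (DLL4 P E η γ δ M B K0 (r t) (w t) (W t) (Z t) / (r t) ^ 24) t := by
  have hA := fle_ep hp F
  have h1 := der_E4 hA B ht
  have h2 := der_V4 hA hB hδ η γ ht
  have h3 := der_Nn F ht
  have hr0 : 0 < r t := lt_of_lt_of_le F.θ0 (F.lo t ht)
  have hr6 : (r t) ^ 6 ≠ 0 := pow_ne_zero 6 hr0.ne'
  have h4 : HasDerivAt (fun τ => K0 / (r τ) ^ 6) (3 / 4 * w t * (K0 / (r t) ^ 6) / (r t) ^ 24) t := by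
    have h := (hasDerivAt_const t K0).div ((F.dr t ht).pow 6) hr6
    refine h.congr_deriv ?_
    have hr := hr0.ne'
    rw [Pi.pow_apply]
    field_simp
    ring
  have h5 := ((h1.const_mul M).add h2).add (h4.mul h3)
  refine HasDerivAt.congr_deriv (f' := _) h5 ?_
  unfold DLL4
  ring

end H72KC
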