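import Pool.Agent.H72.KC.DtL
import Pool.Agent.H72.KB.PairR

/-!
# Row OrR: the modulation equations are satisfied when the determinant is large

Proof.  `zeta_ip` (file `KB/PairR.lean`, `hk : 1 ≤ 4`) gives `ip (zeta ..) φ = I1 - w IA - m IB` for `φ = nrh` and `φ = Q'`; with
`wfn, nfn` (Cramer's rule, `max (Dt) d4 = Dt` since `d4 < Dt`) both vanish (`field_simp`, `ring`), see `orth_of_det` in `KB/PairR.lean`.
`ip ζ rho = -ip ζ nrh`.
-/

open MeasureTheory Filter Topology Set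
open scoped ContDiff

namespace H72KC

open H98KB H72KB H68KC

theorem orth4 {p q : ℝ} (hp : 0 < p) (hq : 0 < q) (hp1 : p ≤ 1) (hq1 : q ≤ 1) {W e : ℝ → ℝ}
    (hW : Cl p q (fun y => W y - Qf 4 y)) (he : Cl p q e) (l : ℝ) (hd : d4 < Dt 4 nrh W) :
    ip (ze (wfn 4 nrh d4 l W e) (nfn 4 nrh d4 l W e) l W e) rho = 0 ∧
    ip (ze (wfn 4 nrh d4 l W e) (nfn 4 nrh d4 l W e) l W e) (deriv (Qf 4)) = 0 := by
  have hk1 : 1 ≤ 4 := by norm_num
  have hQ : Cl 1 1 (Qf 4) := Q_cl hk1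
  have hmax : max (Dt 4 nrh W) d4 = Dt 4 nrh W := max_eq_left hd.le
  have hD : Dt 4 nrh W ≠ 0 := by
    have : 0 < Dt 4 nrh W := d4_pos.trans hd
    exact this.ne'
  have hW' : (fun y => Qf 4 y + (fun y => W y - Qf 4 y) y) = W := by
    funext y
    simp
  have key : ∀ φ : ℝ → ℝ, Cl 1 1 φ →
      ip (ze (wfn 4 nrh d4 l W e) (nfn 4 nrh d4 l W e) l W e) φ = I1 4 l W e φ
        - wfn 4 nrh d4 l W e * IA 4 W φ - nfn 4 nrh d4 l W e * IB W φ := by
    intro φ hφ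
    have h := zeta_ip hk1 hp hq hp1 hq1 hW he (wfn 4 nrh d4 l W e) (nfn 4 nrh d4 l W e) l hφ
    rw [hW'] at h
    exact h
  have hDe : Dt 4 nrh W = IA 4 W nrh * IB W (deriv (Qf 4)) - IA 4 W (deriv (Qf 4)) * IB W nrh :=
    rfl
  constructor
  · have h1 : ip (ze (wfn 4 nrh d4 l W e) (nfn 4 nrh d4 l W e) l W e) nrh = 0 := by
      rw [key nrh nrh_cl]
      unfold wfn nfn
      rw [hmax]
      field_simp
      rw [hDe]
      ring
    have h2 : ip (ze (wfn 4 nrh d4 l W e) (nfn 4 nrh d4 l W e) l W e) nrh =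
        -ip (ze (wfn 4 nrh d4 l W e) (nfn 4 nrh d4 l W e) l W e) rho := by
      unfold ip nrh
      rw [← integral_neg]
      congr 1
      funext y
      ring
    linarith
  · rw [key _ (Cl_deriv hQ)]
    unfold wfn nfn
    rw [hmax]
    field_simp
    rw [hDe]
    ring

end H72KC
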