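import Pool.Agent.H72.KC.Sub4
import Pool.Agent.H72.KC.GLl
import Pool.Agent.H72.KC.FlU
import Pool.Agent.H72.KC.OrR

/-! # Continuity and time derivatives of all functionals along the trajectory, `k = 4` -/

open MeasureTheory Filter Topology Set
open scoped ContDiff

namespace H72KC

open H98KB H72KB H68KC

theorem glu_rho : Continuous rho ∧ (∃ C : ℝ, ∀ y, |rho y| ≤ C) ∧ Cl 1 1 rho := by
  have h : Cl 1 1 rho := by
    have h1 := Cl_smul (-1) nrh_cl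
    have e : (fun y => (-1 : ℝ) * nrh y) = rho := by
      funext y
      unfold nrh
      ring
    rwa [e] at h1
  exact ⟨h.1.continuous, Cl_bdd (by norm_num) (by norm_num) h, h⟩

theorem glu_dQ : Continuous (deriv (Qf 4)) ∧ (∃ C : ℝ, ∀ y, |deriv (Qf 4) y| ≤ C) := by
  have h : Cl 1 1 (deriv (Qf 4)) := Cl_deriv (Q_cl (by norm_num))
  exact ⟨h.1.continuous, Cl_bdd (by norm_num) (by norm_num) h⟩

theorem con_all4 {Pp Ee : ℝ → ℝ} (hp : Prof Pp Ee) {d T α l₀ lo hi X₀ : ℝ} {U e : ℝ → ℝ → ℝ}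
    {P : ℝ → ℝ × ℝ} (hα : 1 ≤ α) (hlo : 0 < lo) (hlh : lo ≤ hi) (hhi : hi ≤ 1) (hX : 0 ≤ X₀)
    (h : App 4 T α U e) (hP : Tr 4 nrh d T l₀ lo hi X₀ U e P) {B δ : ℝ} (hB : 0 < B) (hδ : 0 < δ)
    (η γ M K0 : ℝ) :
    ContinuousOn (fun t => (P t).1) (Icc 0 T) ∧ ContinuousOn (fun t => (P t).2) (Icc 0 T) ∧
    ContinuousOn (rt lo hi P) (Icc 0 T) ∧
    ContinuousOn (fun t => LL4 Pp Ee η γ δ M B K0 (rt lo hi P t) (Wt 4 lo hi X₀ U P t))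
      (Icc 0 T) ∧
    ContinuousOn (fun t => bq ((rt lo hi P t) ^ 2) (Wt 4 lo hi X₀ U P t)) (Icc 0 T) ∧
    ContinuousOn (fun t => EW (Wt 4 lo hi X₀ U P t)) (Icc 0 T) ∧
    ContinuousOn (fun t => Nn ((rt lo hi P t) ^ 2) (Wt 4 lo hi X₀ U P t)) (Icc 0 T) ∧
    ContinuousOn (fun t => alf ((rt lo hi P t) ^ 2) (Wt 4 lo hi X₀ U P t)) (Icc 0 T) ∧
    ContinuousOn (fun t => ip (Wt 4 lo hi X₀ U P t) (deriv (Qf 4))) (Icc 0 T) ∧
    ContinuousOn (fun t => ip (fun y => Wt 4 lo hi X₀ U P t y - Qf 4 y) rho) (Icc 0 T) ∧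
    ContinuousOn (fun t => Xn (fun y => Wt 4 lo hi X₀ U P t y - Qf 4 y)) (Icc 0 T) ∧
    ContinuousOn (fun t => ∫ y, (Wt 4 lo hi X₀ U P t y - Qf 4 y) ^ 2) (Icc 0 T) := by
  have F := fa_Wt hα hlo hlh hhi hX h hP
  obtain ⟨r1, ⟨C1, r2⟩, -⟩ := glu_rho
  obtain ⟨q1, ⟨C2, q2⟩⟩ := glu_dQ
  have F' := fa_sub F
  obtain ⟨s1, s2⟩ := con_sq F'
  exact ⟨continuous_fst.comp_continuousOn hP.cont, continuous_snd.comp_continuousOn hP.cont,
    F.cr, con_LL4 hp F hB hδ η γ M K0, con_bq F, con_EW F, con_Nn F, con_alf F,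
    con_ip F q1 q2, con_ip F' r1 r2, s2, s1⟩

theorem der_all4 {Pp Ee : ℝ → ℝ} (hp : Prof Pp Ee) {d T α l₀ lo hi X₀ : ℝ} {U e : ℝ → ℝ → ℝ}
    {P : ℝ → ℝ × ℝ} (hT : 0 < T) (hα : 1 ≤ α) (hlo : 0 < lo) (hlh : lo ≤ hi) (hhi : hi ≤ 1)
    (hX : 0 ≤ X₀) (h : App 4 T α U e) (hP : Tr 4 nrh d T l₀ lo hi X₀ U e P) (L : ℝ)
    (hL : ∀ t ∈ Icc 0 T, ∀ P, ‖VG 4 nrh d lo hi X₀ U e t P‖ ≤ L) {B δ : ℝ} (hB : 0 < B)
    (hδ : 0 < δ) (η γ M K0 : ℝ) {t : ℝ} (ht : t ∈ Ioo 0 T) (h1 : lo < (P t).1)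
    (h2 : (P t).1 < hi) (h3 : |(P t).2| < X₀) {r w m : ℝ} {W E : ℝ → ℝ}
    (hr : r = rt lo hi P t) (hw : w = wt' 4 nrh d lo hi X₀ U e P t)
    (hm : m = mt' 4 nrh d lo hi X₀ U e P t) (hW : W = Wt 4 lo hi X₀ U P t)
    (hE : E = ft 4 lo hi X₀ e P t) :
    HasDerivAt (fun s => (P s).1) (-w / (P t).1 ^ 2) t ∧
    HasDerivAt (fun s => (P s).2) ((1 + m) / (P t).1 ^ 2) t ∧
    HasDerivAt (rt lo hi P) (-(w * r / 8) / r ^ 24) t ∧
    HasDerivAt (fun s => LL4 Pp Ee η γ δ M B K0 (rt lo hi P s) (Wt 4 lo hi X₀ U P s))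
      (DLL4 Pp Ee η γ δ M B K0 r w W (ze w m (r ^ 8) W E) / r ^ 24) t ∧
    HasDerivAt (fun s => bq ((rt lo hi P s) ^ 2) (Wt 4 lo hi X₀ U P s))
      (bqD (r ^ 2) w W (ze w m (r ^ 8) W E) / r ^ 24) t ∧
    HasDerivAt (fun s => EW (Wt 4 lo hi X₀ U P s)) (DEW W (ze w m (r ^ 8) W E) / r ^ 24) t ∧
    HasDerivAt (fun s => Nn ((rt lo hi P s) ^ 2) (Wt 4 lo hi X₀ U P s))
      (DNn (r ^ 2) w W (ze w m (r ^ 8) W E) / r ^ 24) t ∧
    HasDerivAt (fun s => alf ((rt lo hi P s) ^ 2) (Wt 4 lo hi X₀ U P s))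
      (alD (r ^ 2) w W (ze w m (r ^ 8) W E) / r ^ 24) t ∧
    HasDerivAt (fun s => ip (Wt 4 lo hi X₀ U P s) (deriv (Qf 4)))
      (ip (ze w m (r ^ 8) W E) (deriv (Qf 4)) / r ^ 24) t ∧
    HasDerivAt (fun s => ip (fun y => Wt 4 lo hi X₀ U P s y - Qf 4 y) rho)
      (ip (ze w m (r ^ 8) W E) rho / r ^ 24) t := by
  obtain ⟨J, htJ, hJT, hJc, F⟩ := flo_Wt hT hα hlo hlh hhi hX h hP L hL ht h1 h2 h3
  obtain ⟨r1, ⟨C1, r2⟩, hrc⟩ := glu_rho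
  obtain ⟨q1, ⟨C2, q2⟩⟩ := glu_dQ
  have hQ : Cl 1 1 (Qf 4) := Q_cl (by norm_num)
  have hr8 : r ^ 8 = lt lo hi P t := by
    rw [hr]
    exact (rt_pow hlo P t).2
  have hlt : lt lo hi P t = (P t).1 := FlowR_clp h1 h2
  have hode := hP.ode t ht
  have e1 : clp lo hi (P t).1 = (P t).1 := hlt
  subst hr hw hm hW hE
  have dL := der_LL4 hp F hB hδ η γ M K0 htJ
  have dB := der_bq F htJ
  have dE := der_EW F htJ
  have dN := der_Nn F htJ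
  have dA := der_alf F htJ
  have dI := der_ip F q1 q2 htJ
  have dR := der_ip F r1 r2 htJ
  simp only [← hr8] at dL dB dE dN dA dI dR
  refine ⟨?_, ?_, F.dr t htJ, dL, dB, dE, dN, dA, dI, ?_⟩
  · have h4 : HasDerivAt (fun s => (P s).1) (VG 4 nrh d lo hi X₀ U e t (P t)).1 t :=
      (hasFDerivAt_fst (𝕜 := ℝ) (p := P t)).comp_hasDerivAt t hode
    have e2 : (VG 4 nrh d lo hi X₀ U e t (P t)).1 =
        -wt' 4 nrh d lo hi X₀ U e P t / (P t).1 ^ 2 := by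
      show -(wt' 4 nrh d lo hi X₀ U e P t) / (clp lo hi (P t).1) ^ 2 = _
      rw [e1]
    rw [e2] at h4
    exact h4
  · have h4 : HasDerivAt (fun s => (P s).2) (VG 4 nrh d lo hi X₀ U e t (P t)).2 t :=
      (hasFDerivAt_snd (𝕜 := ℝ) (p := P t)).comp_hasDerivAt t hode
    have e2 : (VG 4 nrh d lo hi X₀ U e t (P t)).2 =
        (1 + mt' 4 nrh d lo hi X₀ U e P t) / (P t).1 ^ 2 := by
      show (1 + mt' 4 nrh d lo hi X₀ U e P t) / (clp lo hi (P t).1) ^ 2 = _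
      rw [e1]
    rw [e2] at h4
    exact h4
  · have hc : ∀ s ∈ J, ip (fun y => Wt 4 lo hi X₀ U P s y - Qf 4 y) rho =
        ip (Wt 4 lo hi X₀ U P s) rho - ip (Qf 4) rho := by
      intro s hs
      obtain ⟨D, hD0, hD⟩ := F.bd 0
      have i1 : Integrable (fun y => Wt 4 lo hi X₀ U P s y * rho y) := by
        have hg : Integrable (fun y => D * C1 * bd (lo / 32) (lo / 32) y) :=
          (bd_int F.θ0 F.θ0).const_mul _
        refine hg.mono' ((F.sm s hs).continuous.mul r1).aestronglyMeasurable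
          (Eventually.of_forall fun y => ?_)
        have h5 := (hD s hs y).1
        rw [iteratedDeriv_zero] at h5
        rw [Real.norm_eq_abs, abs_mul]
        have h6 : |Wt 4 lo hi X₀ U P s y| * |rho y| ≤ (D * bd (lo / 32) (lo / 32) y) * C1 :=
          mul_le_mul h5 (r2 y) (abs_nonneg _) (mul_nonneg hD0 (bd_pos _ _ _).le)
        linarith
      have i2 : Integrable (fun y => Qf 4 y * rho y) :=
        Cl_int (by norm_num) (by norm_num) (Cl_mul hQ hrc)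
      unfold ip
      rw [← integral_sub i1 i2]
      congr 1
      funext y
      ring
    refine (dR.sub_const (ip (Qf 4) rho)).congr_of_eventuallyEq ?_
    filter_upwards [F.op.mem_nhds htJ] with s hs
    exact hc s hs

end H72KC
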