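import Pool.Agent.H72.KC.Base4

/-!
# Row Trp: the abstract trap

Proof.  Suppose some `g i` is `≤ 0` somewhere in `[0,T]`.  The set `A = {t ∈ [0,T] | ∃ i, g i t ≤ 0}` is closed (finite union of closed sets,
continuity on `Icc 0 T`) and nonempty; let `t₀ = sInf A ∈ A`, `t₀ > 0` by `h0`.  On `[0,t₀)` all `g j > 0`.  Let `i` with `g i t₀ ≤ 0` and `δ` from `hd i`.
By continuity there is `t₁ ∈ (0,t₀)` with `g i t < δ` on `[t₁,t₀)`; on `(t₁,t₀)` the derivative of `g i` is `≥ 0`, so `g i` is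
monotone on `[t₁,t₀]` (`monotoneOn_of_deriv_nonneg` on `Icc t₁ t₀`, interior `Ioo`), so `g i t₀ ≥ g i t₁ > 0`, contradiction.
-/

open MeasureTheory Filter Topology Set
open scoped ContDiff

namespace H72KC

open H98KB H72KB H68KC

theorem trap {n : ℕ} {T : ℝ} (hT : 0 < T) (g : Fin n → ℝ → ℝ)
    (hc : ∀ i, ContinuousOn (g i) (Icc 0 T)) (h0 : ∀ i, 0 < g i 0)
    (hd : ∀ i, ∃ δ : ℝ, 0 < δ ∧ ∀ t ∈ Ioo 0 T, (∀ j, 0 < g j t) → g i t < δ →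
      ∃ d : ℝ, 0 ≤ d ∧ HasDerivAt (g i) d t) :
    ∀ i, ∀ t ∈ Icc 0 T, 0 < g i t := by
  by_contra hcon
  push Not at hcon
  obtain ⟨i0, s0, hs0, hneg⟩ := hcon
  obtain ⟨A, hA⟩ : ∃ A : Set ℝ, A = {t | t ∈ Icc (0:ℝ) T ∧ ∃ i, g i t ≤ 0} := ⟨_, rfl⟩
  have hAm : ∀ t, t ∈ A ↔ t ∈ Icc (0:ℝ) T ∧ ∃ i, g i t ≤ 0 := fun t => by rw [hA]; rfl
  have hAne : A.Nonempty := ⟨s0, (hAm s0).2 ⟨hs0, i0, hneg⟩⟩
  have hAb : BddBelow A := ⟨0, fun t ht => ((hAm t).1 ht).1.1⟩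
  have hAc : IsClosed A := by
    have h1 : A = ⋃ i, (Icc (0:ℝ) T ∩ g i ⁻¹' Iic 0) := by
      ext t
      rw [hAm]
      simp only [mem_iUnion, mem_inter_iff, mem_preimage, mem_Iic]
      exact ⟨fun h => h.2.imp fun i hi => ⟨h.1, hi⟩, fun ⟨i, h⟩ => ⟨h.1, i, h.2⟩⟩
    rw [h1]
    exact isClosed_iUnion_of_finite fun i =>
      (hc i).preimage_isClosed_of_isClosed isClosed_Icc isClosed_Iic
  have ht0 := (hAm _).1 (hAc.csInf_mem hAne hAb)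
  have hlow : ∀ t ∈ A, sInf A ≤ t := fun t ht => csInf_le hAb ht
  generalize sInf A = t0 at ht0 hlow
  obtain ⟨ht0I, i, hi⟩ := ht0
  have hpos : 0 < t0 := by
    rcases ht0I.1.lt_or_eq with h | h
    · exact h
    · rw [← h] at hi
      exact absurd (h0 i) (not_lt.2 hi)
  have hbef : ∀ t, 0 ≤ t → t < t0 → ∀ j, 0 < g j t := by
    intro t ht1 ht2 j
    by_contra hh
    have := hlow t ((hAm t).2 ⟨⟨ht1, ht2.le.trans ht0I.2⟩, j, not_lt.1 hh⟩)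
    linarith
  obtain ⟨δ, hδ, hd'⟩ := hd i
  have hev : ∀ᶠ t in 𝓝[Icc 0 T] t0, g i t < δ :=
    (hc i t0 ht0I) (Iio_mem_nhds (lt_of_le_of_lt hi hδ))
  obtain ⟨ε, hε, hball⟩ := Metric.mem_nhdsWithin_iff.1 hev
  obtain ⟨t1, h1a, h1b, h1c⟩ : ∃ t1, 0 < t1 ∧ t1 < t0 ∧ t0 - ε < t1 :=
    ⟨max (t0 / 2) (t0 - ε / 2), lt_max_of_lt_left (by linarith), max_lt (by linarith) (by linarith),
      lt_max_of_lt_right (by linarith)⟩
  have key : ∀ t ∈ Ioo t1 t0, ∃ d : ℝ, 0 ≤ d ∧ HasDerivAt (g i) d t := by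
    intro t ht
    have h0t : 0 < t := h1a.trans ht.1
    refine hd' t ⟨h0t, ht.2.trans_le ht0I.2⟩ (hbef t h0t.le ht.2) ?_
    refine hball ⟨?_, ⟨h0t.le, ht.2.le.trans ht0I.2⟩⟩
    rw [Metric.mem_ball, Real.dist_eq, abs_lt]
    constructor <;> linarith [ht.1, ht.2]
  have hmono : MonotoneOn (g i) (Icc t1 t0) := by
    apply monotoneOn_of_deriv_nonneg (convex_Icc t1 t0)
    · exact (hc i).mono (Icc_subset_Icc h1a.le ht0I.2)
    · intro t ht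
      rw [interior_Icc] at ht
      obtain ⟨d, _, hd2⟩ := key t ht
      exact hd2.differentiableAt.differentiableWithinAt
    · intro t ht
      rw [interior_Icc] at ht
      obtain ⟨d, hd1, hd2⟩ := key t ht
      rw [hd2.deriv]
      exact hd1
  have h2 := hmono (left_mem_Icc.2 h1b.le) (right_mem_Icc.2 h1b.le) h1b.le
  have h3 := hbef t1 h1a.le h1b i
  linarith

end H72KC
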