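import Pool.Agent.H72.KC.PCg
import Pool.Agent.H72.KB.VFr

/-!
# The clipped vector field is bounded, Lipschitz, continuous in time; existence of the trajectory
(generic test function `φ`, single solution; copy of `KB/VFr`)
-/

open MeasureTheory Filter Topology Set
open scoped ContDiff

namespace H72KC

open H98KB H72KB

theorem VFg_s {k : ℕ} (hk : 2 ≤ k) : 0 ≤ 2 / (k : ℝ) ∧ 2 / (k : ℝ) ≤ 1 := by
  have h5 : (2 : ℝ) ≤ (k : ℝ) := by exact_mod_cast hk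
  refine ⟨by positivity, ?_⟩
  rw [div_le_one (by linarith)]
  linarith

theorem VFg_Wb {k : ℕ} (hk : 2 ≤ k) {g : ℝ → ℝ} {M : ℝ} (h0 : ∀ x, |g x| ≤ M) {l : ℝ}
    (hl : 0 < l) (hl1 : l ≤ 1) (x y : ℝ) : |Wf k g l x y| ≤ M := by
  unfold Wf
  obtain ⟨h1, h2⟩ := VFr_pw (VFg_s hk).1 hl hl1
  rw [abs_mul, abs_of_nonneg h1]
  calc l ^ (2 / (k : ℝ)) * |g (l * y + x)| ≤ 1 * |g (l * y + x)| :=
        mul_le_mul_of_nonneg_right h2 (abs_nonneg _)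
    _ ≤ M := by
        rw [one_mul]
        exact h0 _

theorem VFg_eb {k : ℕ} (hk : 2 ≤ k) {g : ℝ → ℝ} {M : ℝ} (h0 : ∀ x, |g x| ≤ M) {l : ℝ}
    (hl : 0 < l) (hl1 : l ≤ 1) (x y : ℝ) : |ef k g l x y| ≤ M := by
  unfold ef
  have h1 := VFg_Wb hk h0 hl hl1 x y
  have h2 : l ^ 2 ≤ 1 := pow_le_one₀ hl.le hl1
  rw [abs_mul, abs_of_nonneg (sq_nonneg l)]
  calc l ^ 2 * |Wf k g l x y| ≤ 1 * |Wf k g l x y| :=
        mul_le_mul_of_nonneg_right h2 (abs_nonneg _)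
    _ ≤ M := by
        rw [one_mul]
        exact h1

theorem VFg_Wl {k : ℕ} (hk : 2 ≤ k) {g : ℝ → ℝ} {M lo : ℝ} (hM : 0 ≤ M) (hlo : 0 < lo)
    (h0 : ∀ x, |g x| ≤ M) (h1 : ∀ x x', |g x - g x'| ≤ M * |x - x'|) {l l' : ℝ} (hl : lo ≤ l)
    (hl' : lo ≤ l') (hl1' : l' ≤ 1) (x x' y : ℝ) :
    |Wf k g l x y - Wf k g l' x' y| ≤
      M * (2 / (k : ℝ) * lo ^ (2 / (k : ℝ) - 1) + 1) * (|l - l'| + |x - x'|) * (1 + |y|) := by
  obtain ⟨hs0, hs1⟩ := VFg_s hk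
  obtain ⟨h2, h3⟩ := VFr_pw hs0 (lt_of_lt_of_le hlo hl') hl1'
  have h4 := VFr_rpow hs0 hs1 hlo hl hl'
  obtain ⟨K, hK⟩ : ∃ K, K = 2 / (k : ℝ) * lo ^ (2 / (k : ℝ) - 1) := ⟨_, rfl⟩
  have hK0 : 0 ≤ K := by
    rw [hK]
    exact mul_nonneg hs0 (Real.rpow_nonneg hlo.le _)
  rw [← hK] at h4 ⊢
  unfold Wf
  have e : l ^ (2 / (k : ℝ)) * g (l * y + x) - l' ^ (2 / (k : ℝ)) * g (l' * y + x') =
      (l ^ (2 / (k : ℝ)) - l' ^ (2 / (k : ℝ))) * g (l * y + x) +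
        l' ^ (2 / (k : ℝ)) * (g (l * y + x) - g (l' * y + x')) := by ring
  rw [e]
  have a1 : |(l ^ (2 / (k : ℝ)) - l' ^ (2 / (k : ℝ))) * g (l * y + x)| ≤ K * |l - l'| * M := by
    rw [abs_mul]
    exact mul_le_mul h4 (h0 _) (abs_nonneg _) (by positivity)
  have a2 : |l * y + x - (l' * y + x')| ≤ |l - l'| * |y| + |x - x'| := by
    have e2 : l * y + x - (l' * y + x') = (l - l') * y + (x - x') := by ring
    rw [e2, ← abs_mul]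
    exact abs_add_le _ _
  have a3 : |l' ^ (2 / (k : ℝ)) * (g (l * y + x) - g (l' * y + x'))| ≤
      M * (|l - l'| * |y| + |x - x'|) := by
    rw [abs_mul, abs_of_nonneg h2]
    calc l' ^ (2 / (k : ℝ)) * |g (l * y + x) - g (l' * y + x')|
        ≤ 1 * |g (l * y + x) - g (l' * y + x')| :=
          mul_le_mul_of_nonneg_right h3 (abs_nonneg _)
      _ ≤ M * |l * y + x - (l' * y + x')| := by
          rw [one_mul]
          exact h1 _ _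
      _ ≤ M * (|l - l'| * |y| + |x - x'|) := mul_le_mul_of_nonneg_left a2 hM
  refine (abs_add_le _ _).trans ((add_le_add a1 a3).trans ?_)
  obtain ⟨A, hA⟩ : ∃ A, A = |l - l'| := ⟨_, rfl⟩
  obtain ⟨B, hB⟩ : ∃ B, B = |x - x'| := ⟨_, rfl⟩
  obtain ⟨Y, hY⟩ : ∃ Y, Y = |y| := ⟨_, rfl⟩
  have hA0 : 0 ≤ A := by
    rw [hA]
    exact abs_nonneg _
  have hB0 : 0 ≤ B := by
    rw [hB]
    exact abs_nonneg _
  have hY0 : 0 ≤ Y := by
    rw [hY]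
    exact abs_nonneg _
  rw [← hA, ← hB, ← hY]
  have e3 : M * (K + 1) * (A + B) * (1 + Y) - (K * A * M + M * (A * Y + B)) =
      M * (K * A * Y + K * B + K * B * Y + A + B * Y) := by ring
  have h5 : 0 ≤ M * (K * A * Y + K * B + K * B * Y + A + B * Y) := by positivity
  linarith

theorem VFg_el {k : ℕ} (hk : 2 ≤ k) {g : ℝ → ℝ} {M lo : ℝ} (hM : 0 ≤ M) (hlo : 0 < lo)
    (h0 : ∀ x, |g x| ≤ M) (h1 : ∀ x x', |g x - g x'| ≤ M * |x - x'|) {l l' : ℝ} (hl : lo ≤ l)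
    (hl1 : l ≤ 1) (hl' : lo ≤ l') (hl1' : l' ≤ 1) (x x' y : ℝ) :
    |ef k g l x y - ef k g l' x' y| ≤
      M * (2 / (k : ℝ) * lo ^ (2 / (k : ℝ) - 1) + 3) * (|l - l'| + |x - x'|) * (1 + |y|) := by
  have h2 := VFg_Wl hk hM hlo h0 h1 hl hl' hl1' x x' y
  have h3 := VFg_Wb hk h0 (lt_of_lt_of_le hlo hl) hl1 x y
  obtain ⟨K, hK⟩ : ∃ K, K = 2 / (k : ℝ) * lo ^ (2 / (k : ℝ) - 1) := ⟨_, rfl⟩
  rw [← hK] at h2 ⊢
  unfold ef
  have e : l ^ 2 * Wf k g l x y - l' ^ 2 * Wf k g l' x' y =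
      (l - l') * (l + l') * Wf k g l x y + l' ^ 2 * (Wf k g l x y - Wf k g l' x' y) := by ring
  rw [e]
  have a1 : |(l - l') * (l + l') * Wf k g l x y| ≤ |l - l'| * 2 * M := by
    rw [abs_mul, abs_mul]
    have b1 : |l + l'| ≤ 2 := by
      rw [abs_of_nonneg (by linarith)]
      linarith
    exact mul_le_mul (mul_le_mul_of_nonneg_left b1 (abs_nonneg _)) h3 (abs_nonneg _)
      (by positivity)
  have a2 : |l' ^ 2 * (Wf k g l x y - Wf k g l' x' y)| ≤ |Wf k g l x y - Wf k g l' x' y| := by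
    rw [abs_mul, abs_of_nonneg (sq_nonneg l')]
    have b2 : l' ^ 2 ≤ 1 := pow_le_one₀ (by linarith) hl1'
    calc l' ^ 2 * |Wf k g l x y - Wf k g l' x' y| ≤ 1 * |Wf k g l x y - Wf k g l' x' y| :=
          mul_le_mul_of_nonneg_right b2 (abs_nonneg _)
      _ = _ := one_mul _
  refine (abs_add_le _ _).trans ((add_le_add a1 (a2.trans h2)).trans ?_)
  obtain ⟨A, hA⟩ : ∃ A, A = |l - l'| := ⟨_, rfl⟩
  obtain ⟨B, hB⟩ : ∃ B, B = |x - x'| := ⟨_, rfl⟩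
  obtain ⟨Y, hY⟩ : ∃ Y, Y = |y| := ⟨_, rfl⟩
  have hA0 : 0 ≤ A := by
    rw [hA]
    exact abs_nonneg _
  have hB0 : 0 ≤ B := by
    rw [hB]
    exact abs_nonneg _
  have hY0 : 0 ≤ Y := by
    rw [hY]
    exact abs_nonneg _
  rw [← hA, ← hB, ← hY]
  have e3 : M * (K + 3) * (A + B) * (1 + Y) - (A * 2 * M + M * (K + 1) * (A + B) * (1 + Y)) =
      M * (2 * A * Y + 2 * B + 2 * B * Y) := by ring
  have h5 : 0 ≤ M * (2 * A * Y + 2 * B + 2 * B * Y) := by positivity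
  linarith

/-- the single solution as a (trivial) family -/
theorem uf_of_app {k : ℕ} {T α : ℝ} {U e : ℝ → ℝ → ℝ} (h : App k T α U e) :
    UF k T α 0 (fun _ => U) (fun _ => e) := by
  refine ⟨fun _ _ => h, fun j => ⟨0, fun a _ a' _ t _ x => ?_⟩⟩
  simp

theorem app_bound {k : ℕ} {T α : ℝ} {U e : ℝ → ℝ → ℝ} (h : App k T α U e) (j : ℕ) :
    ∃ C : ℝ, 0 ≤ C ∧ ∀ t ∈ Icc 0 T, ∀ x, |iteratedDeriv j (U t) x| ≤ C * bd (α / 2) (1 / 16) x ∧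
      |iteratedDeriv j (e t) x| ≤ C * bd (α / 2) (1 / 16) x := by
  obtain ⟨C, hC, h1⟩ := UF_bound le_rfl (uf_of_app h) j
  exact ⟨C, hC, fun t ht x => h1 0 ⟨by simp, le_rfl⟩ t ht x⟩

theorem app_jc {k : ℕ} {T α : ℝ} {U e : ℝ → ℝ → ℝ} (hα : 0 ≤ α) (h : App k T α U e) (j : ℕ) :
    ContinuousOn (fun z : ℝ × ℝ => iteratedDeriv j (U z.1) z.2) (Icc 0 T ×ˢ univ) ∧
    ContinuousOn (fun z : ℝ × ℝ => iteratedDeriv j (e z.1) z.2) (Icc 0 T ×ˢ univ) := by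
  obtain ⟨h1, h2⟩ := UF_jc hα le_rfl (uf_of_app h) j
  constructor
  · refine h1.comp (f := fun z : ℝ × ℝ => ((0, z.1, z.2) : ℝ × ℝ × ℝ)) (by fun_prop) ?_
    rintro ⟨s, w⟩ ⟨hs, hw⟩
    exact ⟨⟨by simp, le_rfl⟩, hs, hw⟩
  · refine h2.comp (f := fun z : ℝ × ℝ => ((0, z.1, z.2) : ℝ × ℝ × ℝ)) (by fun_prop) ?_
    rintro ⟨s, w⟩ ⟨hs, hw⟩
    exact ⟨⟨by simp, le_rfl⟩, hs, hw⟩

theorem app_unif {k : ℕ} {T α : ℝ} {U e : ℝ → ℝ → ℝ} (hα : 0 ≤ α)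
    (h : App k T α U e) : ∃ M : ℝ, 0 ≤ M ∧ ∀ t ∈ Icc 0 T,
      ((∀ x, |U t x| ≤ M) ∧ (∀ x x', |U t x - U t x'| ≤ M * |x - x'|)) ∧
      ((∀ x, |e t x| ≤ M) ∧ (∀ x x', |e t x - e t x'| ≤ M * |x - x'|)) := by
  obtain ⟨M, hM, h1⟩ := VFr_unif le_rfl hα (uf_of_app h)
  exact ⟨M, hM, fun t ht => h1 0 ⟨by simp, le_rfl⟩ t ht⟩

theorem VG_props {k : ℕ} {φ : ℝ → ℝ} {d T α lo hi X₀ : ℝ} {U e : ℝ → ℝ → ℝ} (hk : 2 ≤ k)
    (hφ : Cl 1 1 φ) (hd : 0 < d) (hα : 0 ≤ α) (hlo : 0 < lo) (hlh : lo ≤ hi)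
    (hhi : hi ≤ 1) (h : App k T α U e) : ∃ L : ℝ,
    (∀ t ∈ Icc 0 T, ∀ P, ‖VG k φ d lo hi X₀ U e t P‖ ≤ L) ∧
    (∀ t ∈ Icc 0 T, ∀ P P',
      ‖VG k φ d lo hi X₀ U e t P - VG k φ d lo hi X₀ U e t P'‖ ≤ L * ‖P - P'‖) ∧
    (∀ P, ContinuousOn (fun t => VG k φ d lo hi X₀ U e t P) (Icc 0 T)) := by
  obtain ⟨M, hM, hU⟩ := app_unif hα h
  obtain ⟨C₁, hC₁, hbf⟩ := wfn_lip (show 1 ≤ k by omega) hφ hd M
  obtain ⟨K, hK⟩ : ∃ K, K = 2 / (k : ℝ) * lo ^ (2 / (k : ℝ) - 1) := ⟨_, rfl⟩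
  have hK0 : 0 ≤ K := by
    rw [hK]
    exact mul_nonneg (VFg_s hk).1 (Real.rpow_nonneg hlo.le _)
  obtain ⟨C, hC⟩ : ∃ C, C = M * (K + 3) + 1 := ⟨_, rfl⟩
  have hC1 : 1 ≤ C := by
    rw [hC]
    have : 0 ≤ M * (K + 3) := by positivity
    linarith
  have hlm : ∀ s, lo ≤ clp lo hi s ∧ clp lo hi s ≤ 1 := fun s =>
    ⟨(VFr_clp_mem hlh s).1, (VFr_clp_mem hlh s).2.trans hhi⟩
  have hl0 : ∀ s, 0 < clp lo hi s := fun s => lt_of_lt_of_le hlo (hlm s).1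
  have hUc : ∀ t ∈ Icc 0 T, Continuous (U t) ∧ Continuous (e t) :=
    fun t ht => ⟨(h.smooth t ht).continuous, (h.smooth' t ht).continuous⟩
  have hlo2 : 0 < lo ^ 2 := by positivity
  have hlo4 : 0 < lo ^ 4 := by positivity
  obtain ⟨L, hL⟩ : ∃ L, L = (1 + C₁) / lo ^ 2 + (C₁ + 2 * (1 + C₁)) / lo ^ 4 * (2 * C) :=
    ⟨_, rfl⟩
  have hp1 : 0 ≤ (1 + C₁) / lo ^ 2 := by positivity
  have hp2 : 0 ≤ (C₁ + 2 * (1 + C₁)) / lo ^ 4 * (2 * C) := by positivity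
  -- bound of the functionals
  have hB : ∀ t ∈ Icc 0 T, ∀ P : ℝ × ℝ,
      |wfn k φ d (clp lo hi P.1) (Wf k (U t) (clp lo hi P.1) (clp (-X₀) X₀ P.2))
        (ef k (e t) (clp lo hi P.1) (clp (-X₀) X₀ P.2))| ≤ C₁ ∧
      |nfn k φ d (clp lo hi P.1) (Wf k (U t) (clp lo hi P.1) (clp (-X₀) X₀ P.2))
        (ef k (e t) (clp lo hi P.1) (clp (-X₀) X₀ P.2))| ≤ C₁ := by
    intro t ht P
    obtain ⟨⟨u0, u1⟩, ⟨v0, v1⟩⟩ := hU t ht
    obtain ⟨c1, c2⟩ := hUc t ht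
    have h1 := hbf (clp lo hi P.1) (clp lo hi P.1)
      (Wf k (U t) (clp lo hi P.1) (clp (-X₀) X₀ P.2))
      (Wf k (U t) (clp lo hi P.1) (clp (-X₀) X₀ P.2))
      (ef k (e t) (clp lo hi P.1) (clp (-X₀) X₀ P.2))
      (ef k (e t) (clp lo hi P.1) (clp (-X₀) X₀ P.2)) 0 (hl0 _).le (hlm _).2 (hl0 _).le
      (hlm _).2 le_rfl (by simp) (VFr_Wc k c1 _ _) (VFr_Wc k c1 _ _) (VFr_ec k c2 _ _)
      (VFr_ec k c2 _ _) (VFg_Wb hk u0 (hl0 _) (hlm _).2 _) (VFg_Wb hk u0 (hl0 _) (hlm _).2 _)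
      (VFg_eb hk v0 (hl0 _) (hlm _).2 _) (VFg_eb hk v0 (hl0 _) (hlm _).2 _) (by simp) (by simp)
    exact ⟨h1.1, h1.2.1⟩
  refine ⟨L, ?_, ?_, ?_⟩
  · intro t ht P
    obtain ⟨h1, h2⟩ := hB t ht P
    unfold VG
    rw [norm_prod_le_iff]
    constructor
    · have h3 := VFr_div1 hlo (hlm P.1).1 (N := -(wfn k φ d (clp lo hi P.1)
        (Wf k (U t) (clp lo hi P.1) (clp (-X₀) X₀ P.2))
        (ef k (e t) (clp lo hi P.1) (clp (-X₀) X₀ P.2)))) (C := 1 + C₁) (by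
          rw [abs_neg]
          linarith)
      rw [Real.norm_eq_abs]
      refine h3.trans ?_
      rw [hL]
      linarith
    · have h3 := VFr_div1 hlo (hlm P.1).1 (N := 1 + nfn k φ d (clp lo hi P.1)
        (Wf k (U t) (clp lo hi P.1) (clp (-X₀) X₀ P.2))
        (ef k (e t) (clp lo hi P.1) (clp (-X₀) X₀ P.2))) (C := 1 + C₁) (by
          refine (abs_add_le _ _).trans ?_
          rw [abs_one]
          linarith)
      rw [Real.norm_eq_abs]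
      refine h3.trans ?_
      rw [hL]
      linarith
  · intro t ht P P'
    obtain ⟨⟨u0, u1⟩, ⟨v0, v1⟩⟩ := hU t ht
    obtain ⟨c1, c2⟩ := hUc t ht
    obtain ⟨h1, h2⟩ := hB t ht P'
    obtain ⟨l, hl⟩ : ∃ l, l = clp lo hi P.1 := ⟨_, rfl⟩
    obtain ⟨l', hl'⟩ : ∃ l', l' = clp lo hi P'.1 := ⟨_, rfl⟩
    obtain ⟨x, hx⟩ : ∃ x, x = clp (-X₀) X₀ P.2 := ⟨_, rfl⟩
    obtain ⟨x', hx'⟩ : ∃ x', x' = clp (-X₀) X₀ P'.2 := ⟨_, rfl⟩
    have hle : |l - l'| ≤ |P.1 - P'.1| := by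
      rw [hl, hl']
      exact VFr_clp_lip _ _ _ _
    have hxe : |x - x'| ≤ |P.2 - P'.2| := by
      rw [hx, hx']
      exact VFr_clp_lip _ _ _ _
    have hl1 := hlm P.1
    have hl1' := hlm P'.1
    have hl2 := hl0 P.1
    have hl2' := hl0 P'.1
    rw [← hl] at hl1 hl2
    rw [← hl'] at hl1' hl2' h1 h2
    rw [← hx'] at h1 h2
    obtain ⟨dd, hdd⟩ : ∃ dd, dd = C * (|l - l'| + |x - x'|) := ⟨_, rfl⟩
    have hs0 : 0 ≤ |l - l'| + |x - x'| := by positivity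
    have hld : |l - l'| ≤ dd := by
      rw [hdd]
      have h3 := mul_le_mul_of_nonneg_right hC1 hs0
      have h4 := abs_nonneg (x - x')
      linarith
    have hd0 : 0 ≤ dd := (abs_nonneg _).trans hld
    have hMC : M * (K + 3) ≤ C := by
      rw [hC]
      linarith
    have hMC' : M * (K + 1) ≤ C := by
      refine le_trans ?_ hMC
      exact mul_le_mul_of_nonneg_left (by linarith) hM
    have hW : ∀ y, |Wf k (U t) l x y - Wf k (U t) l' x' y| ≤ dd * (1 + |y|) := by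
      intro y
      have h3 := VFg_Wl hk hM hlo u0 u1 hl1.1 hl1'.1 hl1'.2 x x' y
      rw [← hK] at h3
      refine h3.trans ?_
      rw [hdd]
      exact mul_le_mul_of_nonneg_right (mul_le_mul_of_nonneg_right hMC' hs0) (by positivity)
    have hE : ∀ y, |ef k (e t) l x y - ef k (e t) l' x' y| ≤ dd * (1 + |y|) := by
      intro y
      have h3 := VFg_el hk hM hlo v0 v1 hl1.1 hl1.2 hl1'.1 hl1'.2 x x' y
      rw [← hK] at h3
      refine h3.trans ?_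
      rw [hdd]
      exact mul_le_mul_of_nonneg_right (mul_le_mul_of_nonneg_right hMC hs0) (by positivity)
    obtain ⟨-, -, g3, g4⟩ := hbf l l' (Wf k (U t) l x) (Wf k (U t) l' x')
      (ef k (e t) l x) (ef k (e t) l' x') dd hl2.le hl1.2 hl2'.le hl1'.2 hd0 hld
      (VFr_Wc k c1 _ _) (VFr_Wc k c1 _ _) (VFr_ec k c2 _ _) (VFr_ec k c2 _ _)
      (VFg_Wb hk u0 hl2 hl1.2 _) (VFg_Wb hk u0 hl2' hl1'.2 _)
      (VFg_eb hk v0 hl2 hl1.2 _) (VFg_eb hk v0 hl2' hl1'.2 _) hW hE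
    have hdP : dd ≤ 2 * C * ‖P - P'‖ := by
      have n1 : |P.1 - P'.1| ≤ ‖P - P'‖ := norm_fst_le (P - P')
      have n2 : |P.2 - P'.2| ≤ ‖P - P'‖ := norm_snd_le (P - P')
      rw [hdd]
      calc C * (|l - l'| + |x - x'|) ≤ C * (‖P - P'‖ + ‖P - P'‖) :=
            mul_le_mul_of_nonneg_left (by linarith) (by linarith)
        _ = 2 * C * ‖P - P'‖ := by ring
    have hfin : (C₁ * dd + 2 * (1 + C₁) * dd) / lo ^ 4 ≤ L * ‖P - P'‖ := by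
      calc (C₁ * dd + 2 * (1 + C₁) * dd) / lo ^ 4 = (C₁ + 2 * (1 + C₁)) / lo ^ 4 * dd := by ring
        _ ≤ (C₁ + 2 * (1 + C₁)) / lo ^ 4 * (2 * C * ‖P - P'‖) :=
            mul_le_mul_of_nonneg_left hdP (by positivity)
        _ = (C₁ + 2 * (1 + C₁)) / lo ^ 4 * (2 * C) * ‖P - P'‖ := by ring
        _ ≤ L * ‖P - P'‖ := by
            refine mul_le_mul_of_nonneg_right ?_ (norm_nonneg _)
            rw [hL]
            linarith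
    unfold VG
    rw [← hl, ← hl', ← hx, ← hx']
    rw [Prod.mk_sub_mk, norm_prod_le_iff]
    constructor
    · rw [Real.norm_eq_abs]
      refine le_trans ?_ hfin
      refine VFr_div2 hlo hl1.1 hl1.2 hl1'.1 hl1'.2 ?_ ?_ hld
      · rw [abs_neg]
        linarith
      · rw [neg_sub_neg, abs_sub_comm]
        exact g3
    · rw [Real.norm_eq_abs]
      refine le_trans ?_ hfin
      refine VFr_div2 hlo hl1.1 hl1.2 hl1'.1 hl1'.2 ?_ ?_ hld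
      · refine (abs_add_le _ _).trans ?_
        rw [abs_one]
        linarith
      · rw [add_sub_add_left_eq_sub]
        exact g4
  · intro P
    obtain ⟨l, hl⟩ : ∃ l, l = clp lo hi P.1 := ⟨_, rfl⟩
    obtain ⟨x, hx⟩ : ∃ x, x = clp (-X₀) X₀ P.2 := ⟨_, rfl⟩
    have hl1 := hlm P.1
    have hl2 := hl0 P.1
    rw [← hl] at hl1 hl2
    obtain ⟨q1, q2⟩ := wfn_cont (show 1 ≤ k by omega) hφ hd (Icc 0 T) l M (fun t => Wf k (U t) l x)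
      (fun t => ef k (e t) l x)
      (fun t ht => VFr_Wc k (hUc t ht).1 _ _) (fun t ht => VFr_ec k (hUc t ht).2 _ _)
      (fun t ht => VFg_Wb hk (hU t ht).1.1 hl2 hl1.2 _)
      (fun t ht => VFg_eb hk (hU t ht).2.1 hl2 hl1.2 _)
      (fun y => by
        have h3 := h.cont 0 (l * y + x)
        simp only [iteratedDeriv_zero] at h3
        unfold Wf
        exact continuousOn_const.mul h3)
      (fun y => by
        have h3 := h.cont' 0 (l * y + x)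
        simp only [iteratedDeriv_zero] at h3
        unfold ef Wf
        exact continuousOn_const.mul (continuousOn_const.mul h3))
    unfold VG
    rw [← hl, ← hx]
    exact (q1.neg.div_const _).prodMk ((continuousOn_const.add q2).div_const _)

theorem tr_exists {k : ℕ} {φ : ℝ → ℝ} {d T α lo hi X₀ : ℝ} {U e : ℝ → ℝ → ℝ} (l₀ : ℝ)
    (hk : 2 ≤ k) (hφ : Cl 1 1 φ) (hd : 0 < d) (hT : 0 < T) (hα : 0 ≤ α) (hlo : 0 < lo)
    (hlh : lo ≤ hi) (hhi : hi ≤ 1) (h : App k T α U e) :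
    ∃ P L, Tr k φ d T l₀ lo hi X₀ U e P ∧
      ∀ t ∈ Icc 0 T, ∀ P, ‖VG k φ d lo hi X₀ U e t P‖ ≤ L := by
  obtain ⟨L, h1, h2, h4⟩ := VG_props (X₀ := X₀) hk hφ hd hα hlo hlh hhi h
  have hL : 0 ≤ L := le_trans (norm_nonneg _) (h1 0 ⟨le_rfl, hT.le⟩ (l₀, 0))
  lift L to NNReal using hL
  obtain ⟨P, p1, p2⟩ := OdeAbs_exists T L hT (fun t P => VG k φ d lo hi X₀ U e t P) (l₀, 0)
    h1 h2 h4
  exact ⟨P, L, ⟨p1, fun t ht => (p2 t ht).continuousWithinAt,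
    fun t ht => (p2 t ⟨ht.1.le, ht.2.le⟩).hasDerivAt (Icc_mem_nhds ht.1 ht.2)⟩, h1⟩

end H72KC
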