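import Pool.Agent.H68.KC.Stat4
import Pool.Agent.H72.KC.Glu4
import Pool.Agent.H72.KC.Trp
import Pool.Agent.H72.KC.VFg

/-! # Core of the case k = 4: the trap along the trajectory gives a contradiction -/

open MeasureTheory Filter Topology Set
open scoped ContDiff

namespace H72KC

open H98KB H72KB H68KC

theorem core4_c0 : 0 < c0 := by
  unfold c0 cnu
  have : 0 ≤ 16 * (∫ y, (deriv (Qf 4) y) ^ 2) / Iq ^ 2 := by
    have h : 0 ≤ ∫ y, (deriv (Qf 4) y) ^ 2 := integral_nonneg fun _ => sq_nonneg _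
    positivity
  linarith

theorem core4 {Pp Ee : ℝ → ℝ} (hp : Prof Pp Ee)
    {η γ δ M B K0 K9 KE Ca KN K5 σ δ0 ν₁ : ℝ} (hB : 0 < B) (hδ : 0 < δ) (hK9 : 0 < K9)
    (hKE : 0 < KE) (hδ0 : 0 < δ0) (hν₁ : 0 < ν₁) {r₀ T α rm X₀ : ℝ} (hr₀ : 0 < r₀)
    (hr₀' : 2 * r₀ ^ 8 ≤ 1) (hT : T = r₀ ^ 20 / (2 * c0)) (hα : 1 ≤ α) (hrm : 0 < rm)
    (hrm' : rm ≤ r₀) (hX₀ : X₀ = 2 + 2 / (rm ^ 8) ^ 2 * T) {U e : ℝ → ℝ → ℝ} {P : ℝ → ℝ × ℝ}
    (h : App 4 T α U e) (hP : Tr 4 nrh d4 T (r₀ ^ 8) (rm ^ 8 / 2) (2 * r₀ ^ 8) X₀ U e P) (L : ℝ)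
    (hL : ∀ t ∈ Icc 0 T, ∀ P, ‖VG 4 nrh d4 (rm ^ 8 / 2) (2 * r₀ ^ 8) X₀ U e t P‖ ≤ L)
    (hdyn : ∀ t ∈ Icc 0 T, rm ^ 8 / 2 < (P t).1 → (P t).1 < 2 * r₀ ^ 8 → |(P t).2| < X₀ →
      Trd Pp Ee η γ δ M B K0 K9 KE Ca KN K5 σ t (rt (rm ^ 8 / 2) (2 * r₀ ^ 8) P t)
        (Wt 4 (rm ^ 8 / 2) (2 * r₀ ^ 8) X₀ U P t) →
      |ip (Wt 4 (rm ^ 8 / 2) (2 * r₀ ^ 8) X₀ U P t) (deriv (Qf 4))| < ν₁ →
      |ip (fun y => Wt 4 (rm ^ 8 / 2) (2 * r₀ ^ 8) X₀ U P t y - Qf 4 y) rho| < ν₁ →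
      rm ≤ rt (rm ^ 8 / 2) (2 * r₀ ^ 8) P t ∧
      Dyn4 Pp Ee η γ δ M B K0 K9 KE KN K5 δ0 (rt (rm ^ 8 / 2) (2 * r₀ ^ 8) P t)
        (wt' 4 nrh d4 (rm ^ 8 / 2) (2 * r₀ ^ 8) X₀ U e P t)
        (mt' 4 nrh d4 (rm ^ 8 / 2) (2 * r₀ ^ 8) X₀ U e P t)
        (Wt 4 (rm ^ 8 / 2) (2 * r₀ ^ 8) X₀ U P t) (ft 4 (rm ^ 8 / 2) (2 * r₀ ^ 8) X₀ e P t) ∧
      ip (ze (wt' 4 nrh d4 (rm ^ 8 / 2) (2 * r₀ ^ 8) X₀ U e P t)
        (mt' 4 nrh d4 (rm ^ 8 / 2) (2 * r₀ ^ 8) X₀ U e P t)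
        ((rt (rm ^ 8 / 2) (2 * r₀ ^ 8) P t) ^ 8)
        (Wt 4 (rm ^ 8 / 2) (2 * r₀ ^ 8) X₀ U P t) (ft 4 (rm ^ 8 / 2) (2 * r₀ ^ 8) X₀ e P t)) rho
        = 0 ∧
      ip (ze (wt' 4 nrh d4 (rm ^ 8 / 2) (2 * r₀ ^ 8) X₀ U e P t)
        (mt' 4 nrh d4 (rm ^ 8 / 2) (2 * r₀ ^ 8) X₀ U e P t)
        ((rt (rm ^ 8 / 2) (2 * r₀ ^ 8) P t) ^ 8)
        (Wt 4 (rm ^ 8 / 2) (2 * r₀ ^ 8) X₀ U P t) (ft 4 (rm ^ 8 / 2) (2 * r₀ ^ 8) X₀ e P t))
        (deriv (Qf 4)) = 0)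
    (hini : Trd Pp Ee η γ δ M B K0 K9 KE Ca KN K5 σ 0 r₀
      (Wt 4 (rm ^ 8 / 2) (2 * r₀ ^ 8) X₀ U P 0) ∧
      |ip (Wt 4 (rm ^ 8 / 2) (2 * r₀ ^ 8) X₀ U P 0) (deriv (Qf 4))| < ν₁ ∧
      |ip (fun y => Wt 4 (rm ^ 8 / 2) (2 * r₀ ^ 8) X₀ U P 0 y - Qf 4 y) rho| < ν₁) :
    False := by
  have hc0 := core4_c0
  have hT0 : 0 < T := by rw [hT]; positivity
  have hX0 : 0 ≤ X₀ := by rw [hX₀]; positivity
  have hlo : 0 < rm ^ 8 / 2 := by positivity
  have hle8 : rm ^ 8 ≤ r₀ ^ 8 := pow_le_pow_left₀ hrm.le hrm' 8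
  have hlh : rm ^ 8 / 2 ≤ 2 * r₀ ^ 8 := by
    have : 0 < r₀ ^ 8 := by positivity
    linarith
  obtain ⟨c1, c2, c3, c4, c5, c6, c7, c8, c9, c10, c11, c12⟩ :=
    con_all4 hp hα hlo hlh hr₀' hX0 h hP hB hδ η γ M K0
  set lo : ℝ := rm ^ 8 / 2 with hlod
  set hi : ℝ := 2 * r₀ ^ 8 with hhid
  obtain ⟨r, hr⟩ : ∃ r : ℝ → ℝ, r = rt lo hi P := ⟨_, rfl⟩
  obtain ⟨W, hW⟩ : ∃ W : ℝ → ℝ → ℝ, W = Wt 4 lo hi X₀ U P := ⟨_, rfl⟩
  obtain ⟨F, hF⟩ : ∃ F : ℝ → ℝ → ℝ, F = ft 4 lo hi X₀ e P := ⟨_, rfl⟩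
  obtain ⟨w, hw⟩ : ∃ w : ℝ → ℝ, w = wt' 4 nrh d4 lo hi X₀ U e P := ⟨_, rfl⟩
  obtain ⟨m, hm⟩ : ∃ m : ℝ → ℝ, m = mt' 4 nrh d4 lo hi X₀ U e P := ⟨_, rfl⟩
  have hder := fun t ht g1 g2 g3 => der_all4 hp hT0 hα hlo hlh hr₀' hX0 h hP L hL hB hδ η γ M K0
    (t := t) ht g1 g2 g3 (r := r t) (w := w t) (m := m t) (W := W t) (E := F t)
    (by rw [hr]) (by rw [hw]) (by rw [hm]) (by rw [hW]) (by rw [hF])
  have hrp : ∀ t, 0 < r t := fun t => by
    rw [hr]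
    exact (rt_pow hlo P t).1
  have hr8 : ∀ t, (r t) ^ 8 = lt lo hi P t := fun t => by
    rw [hr]
    exact (rt_pow hlo P t).2
  rw [← hr] at c3 c4 c5 c7 c8 hder
  rw [← hW] at c4 c5 c6 c7 c8 c9 c10 c11 c12 hder
  simp only [← hr, ← hW, ← hF, ← hw, ← hm] at hdyn hini
  clear_value lo hi
  -- the barrier functions
  set gv : Fin 15 → ℝ → ℝ := ![
    fun t => K9 * (r t) ^ 10 - LL4 Pp Ee η γ δ M B K0 (r t) (W t),
    fun t => 4 * c0 * (r t) ^ 4 - bq ((r t) ^ 2) (W t),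
    fun t => bq ((r t) ^ 2) (W t) - 2 * c0 * (r t) ^ 4,
    fun t => KE * (r t) ^ 4 - EW (W t),
    fun t => (Ca + KN * t) - Nn ((r t) ^ 2) (W t) / (r t) ^ 16,
    fun t => (f0 + σ) - alf ((r t) ^ 2) (W t) / (r t) ^ 4 - K5 * r t,
    fun t => alf ((r t) ^ 2) (W t) / (r t) ^ 4 - K5 * r t - (f0 - σ),
    fun t => (r t) ^ 2 - Xn (fun y => W t y - Qf 4 y),
    fun t => 1 - ∫ y, (W t y - Qf 4 y) ^ 2,
    fun t => hi - (P t).1,
    fun t => (P t).1 - lo,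
    fun t => 1 + 2 / (rm ^ 8) ^ 2 * t - (P t).2,
    fun t => 1 + (P t).2,
    fun t => ν₁ ^ 2 - (ip (W t) (deriv (Qf 4))) ^ 2,
    fun t => ν₁ ^ 2 - (ip (fun y => W t y - Qf 4 y) rho) ^ 2] with hgv
  have hall : ∀ t, (∀ i, 0 < gv i t) ↔ (
      0 < K9 * (r t) ^ 10 - LL4 Pp Ee η γ δ M B K0 (r t) (W t) ∧
      0 < 4 * c0 * (r t) ^ 4 - bq ((r t) ^ 2) (W t) ∧
      0 < bq ((r t) ^ 2) (W t) - 2 * c0 * (r t) ^ 4 ∧
      0 < KE * (r t) ^ 4 - EW (W t) ∧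
      0 < (Ca + KN * t) - Nn ((r t) ^ 2) (W t) / (r t) ^ 16 ∧
      0 < (f0 + σ) - alf ((r t) ^ 2) (W t) / (r t) ^ 4 - K5 * r t ∧
      0 < alf ((r t) ^ 2) (W t) / (r t) ^ 4 - K5 * r t - (f0 - σ) ∧
      0 < (r t) ^ 2 - Xn (fun y => W t y - Qf 4 y) ∧
      0 < 1 - (∫ y, (W t y - Qf 4 y) ^ 2) ∧
      0 < hi - (P t).1 ∧ 0 < (P t).1 - lo ∧ 0 < 1 + 2 / (rm ^ 8) ^ 2 * t - (P t).2 ∧
      0 < 1 + (P t).2 ∧ 0 < ν₁ ^ 2 - (ip (W t) (deriv (Qf 4))) ^ 2 ∧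
      0 < ν₁ ^ 2 - (ip (fun y => W t y - Qf 4 y) rho) ^ 2) := by
    intro t
    constructor
    · intro h
      exact ⟨h 0, h 1, h 2, h 3, h 4, h 5, h 6, h 7, h 8, h 9, h 10, h 11, h 12, h 13, h 14⟩
    · rintro ⟨h0, h1, h2, h3, h4, h5, h6, h7, h8, h9, h10, h11, h12, h13, h14⟩ i
      fin_cases i
      · exact h0
      · exact h1
      · exact h2
      · exact h3
      · exact h4
      · exact h5
      · exact h6
      · exact h7
      · exact h8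
      · exact h9
      · exact h10
      · exact h11
      · exact h12
      · exact h13
      · exact h14
  -- the state in the region
  have key : ∀ t ∈ Icc 0 T, (∀ i, 0 < gv i t) →
      (lo < (P t).1 ∧ (P t).1 < hi ∧ |(P t).2| < X₀ ∧ rm ≤ r t ∧ (P t).1 = (r t) ^ 8 ∧
      Dyn4 Pp Ee η γ δ M B K0 K9 KE KN K5 δ0 (r t) (w t) (m t) (W t) (F t) ∧
      ip (ze (w t) (m t) ((r t) ^ 8) (W t) (F t)) rho = 0 ∧
      ip (ze (w t) (m t) ((r t) ^ 8) (W t) (F t)) (deriv (Qf 4)) = 0) := by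
    intro t ht hh
    rw [hall] at hh
    obtain ⟨h0, h1, h2, h3, h4, h5, h6, h7, h8, h9, h10, h11, h12, h13, h14⟩ := hh
    have hr0 := hrp t
    have g1 : lo < (P t).1 := by linarith
    have g2 : (P t).1 < hi := by linarith
    have g3 : |(P t).2| < X₀ := by
      have ht2 : 2 / (rm ^ 8) ^ 2 * t ≤ 2 / (rm ^ 8) ^ 2 * T :=
        mul_le_mul_of_nonneg_left ht.2 (by positivity)
      rw [hX₀, abs_lt]
      have : 0 ≤ 2 / (rm ^ 8) ^ 2 * T := by positivity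
      constructor <;> linarith
    have g5 : (P t).1 = (r t) ^ 8 := by
      rw [hr8 t]
      exact (FlowR_clp g1 g2).symm
    have e4 : Nn ((r t) ^ 2) (W t) < (Ca + KN * t) * (r t) ^ 16 := by
      have h41 : Nn ((r t) ^ 2) (W t) / (r t) ^ 16 < Ca + KN * t := by linarith
      rwa [div_lt_iff₀ (by positivity)] at h41
    have e5 : alf ((r t) ^ 2) (W t) + K5 * (r t) ^ 5 < (f0 + σ) * (r t) ^ 4 := by
      have h51 : alf ((r t) ^ 2) (W t) / (r t) ^ 4 < f0 + σ - K5 * r t := by linarith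
      rw [div_lt_iff₀ (by positivity)] at h51
      have h52 : (f0 + σ - K5 * r t) * (r t) ^ 4 = (f0 + σ) * (r t) ^ 4 - K5 * (r t) ^ 5 := by
        ring
      linarith
    have e6 : (f0 - σ) * (r t) ^ 4 < alf ((r t) ^ 2) (W t) - K5 * (r t) ^ 5 := by
      have h61 : f0 - σ + K5 * r t < alf ((r t) ^ 2) (W t) / (r t) ^ 4 := by linarith
      rw [lt_div_iff₀ (by positivity)] at h61
      have h62 : (f0 - σ + K5 * r t) * (r t) ^ 4 = (f0 - σ) * (r t) ^ 4 + K5 * (r t) ^ 5 := by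
        ring
      linarith
    have htrd : Trd Pp Ee η γ δ M B K0 K9 KE Ca KN K5 σ t (r t) (W t) :=
      ⟨by linarith, by linarith, by linarith, by linarith, e4, e5, e6, by linarith,
        by linarith⟩
    have hq : |ip (W t) (deriv (Qf 4))| < ν₁ := abs_lt_of_sq_lt_sq (by linarith) hν₁.le
    have hrr : |ip (fun y => W t y - Qf 4 y) rho| < ν₁ :=
      abs_lt_of_sq_lt_sq (by linarith) hν₁.le
    obtain ⟨k1, k2, k3, k4⟩ := hdyn t ht g1 g2 g3 htrd hq hrr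
    exact ⟨g1, g2, g3, k1, g5, k2, k3, k4⟩
  have hsub : ∀ t, t ∈ Ioo (0:ℝ) T → t ∈ Icc (0:ℝ) T := fun t h => ⟨h.1.le, h.2.le⟩
  have hP0 : (P 0).1 = r₀ ^ 8 ∧ (P 0).2 = 0 := by
    rw [hP.init]
    exact ⟨rfl, rfl⟩
  have h8pos : 0 < r₀ ^ 8 := by positivity
  have hr00 : r 0 = r₀ := by
    have h1 : (r 0) ^ 8 = r₀ ^ 8 := by
      rw [hr8 0]
      show clp lo hi (P 0).1 = _
      rw [hP0.1]
      exact FlowR_clp (by linarith) (by linarith)
    exact (pow_left_inj₀ (hrp 0).le hr₀.le (by norm_num)).1 h1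
  have htrap := trap hT0 gv ?_ ?_ ?_
  · -- contradiction
    have hc : ContinuousOn (fun s => (r s) ^ 20) (Icc 0 T) := c3.pow 20
    have hd : ∀ t ∈ Ioo 0 T, ∃ d, d ≤ -(5 / 2 * c0) ∧ HasDerivAt (fun s => (r s) ^ 20) d t := by
      intro t ht
      obtain ⟨g1, g2, g3, g4, g5, g6, -, -⟩ := key t (hsub t ht)
        (fun i => htrap i t (hsub t ht))
      obtain ⟨-, -, d3, -⟩ := hder t ht g1 g2 g3
      have p1 := hrp t
      refine ⟨_, ?_, d3.pow 20⟩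
      have hw1 := g6.w1
      generalize w t = ww at hw1 ⊢
      generalize r t = rr at hw1 p1 ⊢
      have e1 : ((20 : ℕ) : ℝ) * rr ^ (20 - 1) * (-(ww * rr / 8) / rr ^ 24) =
          -(5 / 2 * (ww / rr ^ 4)) := by
        push_cast
        field_simp
        ring
      rw [e1]
      have e2 : c0 ≤ ww / rr ^ 4 := by
        rw [le_div_iff₀ (by positivity)]
        exact hw1
      linarith
    have hmv := Convex.image_sub_le_mul_sub_of_deriv_le (convex_Icc (0:ℝ) T) hc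
      (fun t ht => by
        rw [interior_Icc] at ht
        obtain ⟨d, _, hd2⟩ := hd t ht
        exact hd2.differentiableAt.differentiableWithinAt)
      (C := -(5 / 2 * c0))
      (fun t ht => by
        rw [interior_Icc] at ht
        obtain ⟨d, hd1, hd2⟩ := hd t ht
        rw [hd2.deriv]
        exact hd1)
      0 ⟨le_refl _, hT0.le⟩ T ⟨hT0.le, le_refl _⟩ hT0.le
    simp only [hr00] at hmv
    have h6 : 2 * c0 * T = r₀ ^ 20 := by
      rw [hT]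
      field_simp
    have h7 : 0 < (r T) ^ 20 := pow_pos (hrp T) 20
    have h8 : 0 < r₀ ^ 20 := by positivity
    linarith only [hmv, h6, h7, h8]
  · -- continuity
    have hne : ∀ (n : ℕ), ∀ t ∈ Icc 0 T, (r t) ^ n ≠ 0 := fun n t _ => (pow_pos (hrp t) n).ne'
    intro i
    fin_cases i
    · exact (continuousOn_const.mul (c3.pow 10)).sub c4
    · exact (continuousOn_const.mul (c3.pow 4)).sub c5
    · exact c5.sub (continuousOn_const.mul (c3.pow 4))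
    · exact (continuousOn_const.mul (c3.pow 4)).sub c6
    · exact (continuousOn_const.add (continuousOn_const.mul continuousOn_id)).sub
        (c7.div (c3.pow 16) (hne 16))
    · exact (continuousOn_const.sub (c8.div (c3.pow 4) (hne 4))).sub (continuousOn_const.mul c3)
    · exact ((c8.div (c3.pow 4) (hne 4)).sub (continuousOn_const.mul c3)).sub continuousOn_const
    · exact (c3.pow 2).sub c11
    · exact continuousOn_const.sub c12
    · exact continuousOn_const.sub c1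
    · exact c1.sub continuousOn_const
    · exact (continuousOn_const.add (continuousOn_const.mul continuousOn_id)).sub c2
    · exact continuousOn_const.add c2
    · exact continuousOn_const.sub (c9.pow 2)
    · exact continuousOn_const.sub (c10.pow 2)
  · -- initial positivity
    rw [hall]
    obtain ⟨ht, hq, hrr⟩ := hini
    rw [hr00, hP0.1, hP0.2]
    have e4 : Nn (r₀ ^ 2) (W 0) / r₀ ^ 16 < Ca + KN * 0 := by
      rw [div_lt_iff₀ (by positivity)]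
      exact ht.g5
    have e5 : alf (r₀ ^ 2) (W 0) / r₀ ^ 4 < f0 + σ - K5 * r₀ := by
      rw [div_lt_iff₀ (by positivity)]
      have := ht.g6
      have h52 : (f0 + σ - K5 * r₀) * r₀ ^ 4 = (f0 + σ) * r₀ ^ 4 - K5 * r₀ ^ 5 := by ring
      linarith
    have e6 : f0 - σ + K5 * r₀ < alf (r₀ ^ 2) (W 0) / r₀ ^ 4 := by
      rw [lt_div_iff₀ (by positivity)]
      have := ht.g7
      have h62 : (f0 - σ + K5 * r₀) * r₀ ^ 4 = (f0 - σ) * r₀ ^ 4 + K5 * r₀ ^ 5 := by ring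
      linarith
    have hq2 : (ip (W 0) (deriv (Qf 4))) ^ 2 < ν₁ ^ 2 :=
      sq_lt_sq' (abs_lt.1 hq).1 (abs_lt.1 hq).2
    have hr2 : (ip (fun y => W 0 y - Qf 4 y) rho) ^ 2 < ν₁ ^ 2 :=
      sq_lt_sq' (abs_lt.1 hrr).1 (abs_lt.1 hrr).2
    have f1 := ht.g1
    have f2 := ht.g2
    have f3 := ht.g3
    have f4 := ht.g4
    have f8 := ht.g8
    have f9 := ht.g9
    refine ⟨by linarith, by linarith, by linarith, by linarith, by linarith, by linarith,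
      by linarith, by linarith, by linarith, by linarith, by linarith, by norm_num, by norm_num,
      by linarith, by linarith⟩
  · -- barriers
    have hrm8 : ∀ t, rm ≤ r t → rm ^ 8 ≤ (r t) ^ 8 := fun t ht => pow_le_pow_left₀ hrm.le ht 8
    have hw0 : ∀ t ∈ Ioo 0 T, (∀ j, 0 < gv j t) → 0 ≤ w t := by
      intro t ht hh
      obtain ⟨-, -, -, -, -, g6, -, -⟩ := key t (hsub t ht) hh
      have := g6.w1
      have hr4 : 0 < (r t) ^ 4 := pow_pos (hrp t) 4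
      have : 0 ≤ c0 * (r t) ^ 4 := by positivity
      linarith
    intro i
    fin_cases i
    · refine ⟨K9 / 2 * rm ^ 10, by positivity, ?_⟩
      intro t ht hh hlt
      obtain ⟨g1, g2, g3, g4, g5, g6, g7, g8⟩ := key t (hsub t ht) hh
      obtain ⟨d1, d2, d3, d4, d5, d6, d7, d8, d9, d10⟩ := hder t ht g1 g2 g3
      have hlt' : K9 * (r t) ^ 10 - LL4 Pp Ee η γ δ M B K0 (r t) (W t) < K9 / 2 * rm ^ 10 := hlt
      have h10 : rm ^ 10 ≤ (r t) ^ 10 := pow_le_pow_left₀ hrm.le g4 10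
      have h11 : K9 / 2 * rm ^ 10 ≤ K9 / 2 * (r t) ^ 10 :=
        mul_le_mul_of_nonneg_left h10 (by positivity)
      have hh1 := g6.d1 (by linarith)
      have p1 := hrp t
      refine ⟨_, ?_, ((d3.pow 10).const_mul K9).sub d4⟩
      generalize DLL4 Pp Ee η γ δ M B K0 (r t) (w t) (W t)
        (ze (w t) (m t) ((r t) ^ 8) (W t) (F t)) = D at hh1 ⊢
      generalize w t = ww at hh1 ⊢
      generalize r t = rr at hh1 p1 ⊢
      have e1 : K9 * (((10 : ℕ) : ℝ) * rr ^ (10 - 1) * (-(ww * rr / 8) / rr ^ 24)) - D / rr ^ 24 =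
          (-(5 / 4) * ww * K9 * rr ^ 10 - D) / rr ^ 24 := by
        push_cast
        field_simp
        ring
      rw [e1]
      exact div_nonneg (by linarith) (by positivity)
    · refine ⟨δ0 * rm ^ 4, by positivity, ?_⟩
      intro t ht hh hlt
      obtain ⟨g1, g2, g3, g4, g5, g6, g7, g8⟩ := key t (hsub t ht) hh
      obtain ⟨d1, d2, d3, d4, d5, d6, d7, d8, d9, d10⟩ := hder t ht g1 g2 g3
      have hlt' : 4 * c0 * (r t) ^ 4 - bq ((r t) ^ 2) (W t) < δ0 * rm ^ 4 := hlt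
      have h10 : rm ^ 4 ≤ (r t) ^ 4 := pow_le_pow_left₀ hrm.le g4 4
      have h11 : δ0 * rm ^ 4 ≤ δ0 * (r t) ^ 4 := mul_le_mul_of_nonneg_left h10 hδ0.le
      have hh1 := g6.d2 (by
        have : (4 * c0 - δ0) * (r t) ^ 4 = 4 * c0 * (r t) ^ 4 - δ0 * (r t) ^ 4 := by ring
        linarith)
      have p1 := hrp t
      refine ⟨_, ?_, ((d3.pow 4).const_mul (4 * c0)).sub d5⟩
      generalize bqD ((r t) ^ 2) (w t) (W t)
        (ze (w t) (m t) ((r t) ^ 8) (W t) (F t)) = D at hh1 ⊢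
      generalize w t = ww at hh1 ⊢
      generalize r t = rr at hh1 p1 ⊢
      have e1 : 4 * c0 * (((4 : ℕ) : ℝ) * rr ^ (4 - 1) * (-(ww * rr / 8) / rr ^ 24)) -
          D / rr ^ 24 = -(D + 2 * c0 * ww * rr ^ 4) / rr ^ 24 := by
        push_cast
        field_simp
        ring
      rw [e1]
      exact div_nonneg (by linarith) (by positivity)
    · refine ⟨δ0 * rm ^ 4, by positivity, ?_⟩
      intro t ht hh hlt
      obtain ⟨g1, g2, g3, g4, g5, g6, g7, g8⟩ := key t (hsub t ht) hh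
      obtain ⟨d1, d2, d3, d4, d5, d6, d7, d8, d9, d10⟩ := hder t ht g1 g2 g3
      have hlt' : bq ((r t) ^ 2) (W t) - 2 * c0 * (r t) ^ 4 < δ0 * rm ^ 4 := hlt
      have h10 : rm ^ 4 ≤ (r t) ^ 4 := pow_le_pow_left₀ hrm.le g4 4
      have h11 : δ0 * rm ^ 4 ≤ δ0 * (r t) ^ 4 := mul_le_mul_of_nonneg_left h10 hδ0.le
      have hh1 := g6.d3 (by
        have : (2 * c0 + δ0) * (r t) ^ 4 = 2 * c0 * (r t) ^ 4 + δ0 * (r t) ^ 4 := by ring
        linarith)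
      have p1 := hrp t
      refine ⟨_, ?_, d5.sub ((d3.pow 4).const_mul (2 * c0))⟩
      generalize bqD ((r t) ^ 2) (w t) (W t)
        (ze (w t) (m t) ((r t) ^ 8) (W t) (F t)) = D at hh1 ⊢
      generalize w t = ww at hh1 ⊢
      generalize r t = rr at hh1 p1 ⊢
      have e1 : D / rr ^ 24 - 2 * c0 * (((4 : ℕ) : ℝ) * rr ^ (4 - 1) *
          (-(ww * rr / 8) / rr ^ 24)) = (D + c0 * ww * rr ^ 4) / rr ^ 24 := by
        push_cast
        field_simp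
        ring
      rw [e1]
      exact div_nonneg (by linarith) (by positivity)
    · refine ⟨KE / 2 * rm ^ 4, by positivity, ?_⟩
      intro t ht hh hlt
      obtain ⟨g1, g2, g3, g4, g5, g6, g7, g8⟩ := key t (hsub t ht) hh
      obtain ⟨d1, d2, d3, d4, d5, d6, d7, d8, d9, d10⟩ := hder t ht g1 g2 g3
      have hlt' : KE * (r t) ^ 4 - EW (W t) < KE / 2 * rm ^ 4 := hlt
      have h10 : rm ^ 4 ≤ (r t) ^ 4 := pow_le_pow_left₀ hrm.le g4 4
      have h11 : KE / 2 * rm ^ 4 ≤ KE / 2 * (r t) ^ 4 :=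
        mul_le_mul_of_nonneg_left h10 (by positivity)
      have hh1 := g6.d4 (by linarith)
      have p1 := hrp t
      refine ⟨_, ?_, ((d3.pow 4).const_mul KE).sub d6⟩
      generalize DEW (W t) (ze (w t) (m t) ((r t) ^ 8) (W t) (F t)) = D at hh1 ⊢
      generalize w t = ww at hh1 ⊢
      generalize r t = rr at hh1 p1 ⊢
      have e1 : KE * (((4 : ℕ) : ℝ) * rr ^ (4 - 1) * (-(ww * rr / 8) / rr ^ 24)) - D / rr ^ 24 =
          (-(1 / 2) * ww * KE * rr ^ 4 - D) / rr ^ 24 := by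
        push_cast
        field_simp
        ring
      rw [e1]
      exact div_nonneg (by linarith) (by positivity)
    · refine ⟨1, one_pos, ?_⟩
      intro t ht hh hlt
      obtain ⟨g1, g2, g3, g4, g5, g6, g7, g8⟩ := key t (hsub t ht) hh
      obtain ⟨d1, d2, d3, d4, d5, d6, d7, d8, d9, d10⟩ := hder t ht g1 g2 g3
      have hh1 := g6.d5
      have p1 := hrp t
      refine ⟨_, ?_, (((hasDerivAt_id t).const_mul KN).const_add Ca).sub
        (d7.div (d3.pow 16) (pow_pos p1 16).ne')⟩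
      generalize DNn ((r t) ^ 2) (w t) (W t)
        (ze (w t) (m t) ((r t) ^ 8) (W t) (F t)) = D at hh1 ⊢
      try simp only [Pi.pow_apply]
      generalize Nn ((r t) ^ 2) (W t) = N at hh1 ⊢
      generalize w t = ww at hh1 ⊢
      generalize r t = rr at hh1 p1 ⊢
      have e1 : KN * 1 - (D / rr ^ 24 * rr ^ 16 - N * (((16 : ℕ) : ℝ) * rr ^ (16 - 1) *
          (-(ww * rr / 8) / rr ^ 24))) / (rr ^ 16) ^ 2 =
          (KN * rr ^ 40 - (D + 2 * ww * N)) / rr ^ 40 := by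
        push_cast
        field_simp
        ring
      rw [e1]
      exact div_nonneg (by linarith) (by positivity)
    · refine ⟨1, one_pos, ?_⟩
      intro t ht hh hlt
      obtain ⟨g1, g2, g3, g4, g5, g6, g7, g8⟩ := key t (hsub t ht) hh
      obtain ⟨d1, d2, d3, d4, d5, d6, d7, d8, d9, d10⟩ := hder t ht g1 g2 g3
      have hh1 := (abs_le.1 g6.d6).2
      have p1 := hrp t
      refine ⟨_, ?_, (((d8.div (d3.pow 4) (pow_pos p1 4).ne')).const_sub (f0 + σ)).sub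
        (d3.const_mul K5)⟩
      unfold alm at hh1
      generalize alD ((r t) ^ 2) (w t) (W t)
        (ze (w t) (m t) ((r t) ^ 8) (W t) (F t)) = D at hh1 ⊢
      try simp only [Pi.pow_apply]
      generalize alf ((r t) ^ 2) (W t) = N at hh1 ⊢
      generalize w t = ww at hh1 ⊢
      generalize r t = rr at hh1 p1 ⊢
      have e1 : -((D / rr ^ 24 * rr ^ 4 - N * (((4 : ℕ) : ℝ) * rr ^ (4 - 1) *
          (-(ww * rr / 8) / rr ^ 24))) / (rr ^ 4) ^ 2) - K5 * (-(ww * rr / 8) / rr ^ 24) =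
          (K5 / 8 * ww * rr ^ 5 - (D + 1 / 2 * ww * N)) / rr ^ 28 := by
        push_cast
        field_simp
        ring
      rw [e1]
      exact div_nonneg (by linarith) (by positivity)
    · refine ⟨1, one_pos, ?_⟩
      intro t ht hh hlt
      obtain ⟨g1, g2, g3, g4, g5, g6, g7, g8⟩ := key t (hsub t ht) hh
      obtain ⟨d1, d2, d3, d4, d5, d6, d7, d8, d9, d10⟩ := hder t ht g1 g2 g3
      have hh1 := (abs_le.1 g6.d6).1
      have p1 := hrp t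
      refine ⟨_, ?_, ((d8.div (d3.pow 4) (pow_pos p1 4).ne').sub
        (d3.const_mul K5)).sub_const (f0 - σ)⟩
      unfold alm at hh1
      generalize alD ((r t) ^ 2) (w t) (W t)
        (ze (w t) (m t) ((r t) ^ 8) (W t) (F t)) = D at hh1 ⊢
      try simp only [Pi.pow_apply]
      generalize alf ((r t) ^ 2) (W t) = N at hh1 ⊢
      generalize w t = ww at hh1 ⊢
      generalize r t = rr at hh1 p1 ⊢
      have e1 : (D / rr ^ 24 * rr ^ 4 - N * (((4 : ℕ) : ℝ) * rr ^ (4 - 1) *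
          (-(ww * rr / 8) / rr ^ 24))) / (rr ^ 4) ^ 2 - K5 * (-(ww * rr / 8) / rr ^ 24) =
          (K5 / 8 * ww * rr ^ 5 + (D + 1 / 2 * ww * N)) / rr ^ 28 := by
        push_cast
        field_simp
        ring
      rw [e1]
      exact div_nonneg (by linarith) (by positivity)
    · refine ⟨rm ^ 2 / 2, by positivity, ?_⟩
      intro t ht hh hlt
      obtain ⟨g1, g2, g3, g4, g5, g6, g7, g8⟩ := key t (hsub t ht) hh
      have hlt' : (r t) ^ 2 - Xn (fun y => W t y - Qf 4 y) < rm ^ 2 / 2 := hlt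
      have h10 : rm ^ 2 ≤ (r t) ^ 2 := pow_le_pow_left₀ hrm.le g4 2
      have := g6.s8
      exfalso
      linarith
    · refine ⟨1 / 4, by norm_num, ?_⟩
      intro t ht hh hlt
      obtain ⟨g1, g2, g3, g4, g5, g6, g7, g8⟩ := key t (hsub t ht) hh
      have hlt' : 1 - (∫ y, (W t y - Qf 4 y) ^ 2) < 1 / 4 := hlt
      have := g6.s9
      exfalso
      linarith
    · refine ⟨1, one_pos, ?_⟩
      intro t ht hh hlt
      obtain ⟨g1, g2, g3, g4, g5, g6, g7, g8⟩ := key t (hsub t ht) hh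
      obtain ⟨d1, -⟩ := hder t ht g1 g2 g3
      have p2 := hw0 t ht hh
      refine ⟨_, ?_, d1.const_sub hi⟩
      rw [neg_div, neg_neg]
      positivity
    · refine ⟨rm ^ 8 / 2, by positivity, ?_⟩
      intro t ht hh hlt
      obtain ⟨g1, g2, g3, g4, g5, g6, g7, g8⟩ := key t (hsub t ht) hh
      have hlt' : (P t).1 - lo < rm ^ 8 / 2 := hlt
      have := hrm8 t g4
      exfalso
      rw [g5] at hlt'
      linarith
    · refine ⟨1, one_pos, ?_⟩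
      intro t ht hh hlt
      obtain ⟨g1, g2, g3, g4, g5, g6, g7, g8⟩ := key t (hsub t ht) hh
      obtain ⟨-, d2, -⟩ := hder t ht g1 g2 g3
      refine ⟨_, ?_, (((hasDerivAt_id t).const_mul (2 / (rm ^ 8) ^ 2)).const_add 1).sub d2⟩
      have hm1 := (abs_le.mp g6.m1).2
      have h9 := hrm8 t g4
      have : (1 + m t) / (P t).1 ^ 2 ≤ 2 / (rm ^ 8) ^ 2 := by
        apply div_le_div₀ (by norm_num) (by linarith) (by positivity)
        rw [g5]
        exact pow_le_pow_left₀ (by positivity) h9 2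
      linarith
    · refine ⟨1, one_pos, ?_⟩
      intro t ht hh hlt
      obtain ⟨g1, g2, g3, g4, g5, g6, g7, g8⟩ := key t (hsub t ht) hh
      obtain ⟨-, d2, -⟩ := hder t ht g1 g2 g3
      refine ⟨_, ?_, d2.const_add 1⟩
      have hm1 := (abs_le.mp g6.m1).1
      exact div_nonneg (by linarith) (by positivity)
    · refine ⟨1, one_pos, ?_⟩
      intro t ht hh hlt
      obtain ⟨g1, g2, g3, g4, g5, g6, g7, g8⟩ := key t (hsub t ht) hh
      obtain ⟨d1, d2, d3, d4, d5, d6, d7, d8, d9, d10⟩ := hder t ht g1 g2 g3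
      refine ⟨_, ?_, (d9.pow 2).const_sub (ν₁ ^ 2)⟩
      rw [g8]
      simp
    · refine ⟨1, one_pos, ?_⟩
      intro t ht hh hlt
      obtain ⟨g1, g2, g3, g4, g5, g6, g7, g8⟩ := key t (hsub t ht) hh
      obtain ⟨d1, d2, d3, d4, d5, d6, d7, d8, d9, d10⟩ := hder t ht g1 g2 g3
      refine ⟨_, ?_, (d10.pow 2).const_sub (ν₁ ^ 2)⟩
      rw [g7]
      simp

end H72KC
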