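import Pool.Agent.H72.KC.VFg
import Pool.Agent.H72.KB.FlowR

/-!
# Along the trajectory, near a time where the clips are inactive, `W - Q` is a `Flow` (with `R = 0`)
(generic test function, single solution; copy of `KB/FlowR`)
-/

open MeasureTheory Filter Topology Set
open scoped ContDiff

namespace H72KC

open H98KB H72KB

theorem Flg_pow {k : ℕ} (hk : 1 ≤ k) {l : ℝ} (hl : 0 < l) :
    (l ^ (2 / (k : ℝ))) ^ (k + 1) = l ^ (2 / (k : ℝ)) * l ^ 2 := by
  have hk0 : (k : ℝ) ≠ 0 := by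
    have : k ≠ 0 := by omega
    exact_mod_cast this
  rw [pow_succ, ← Real.rpow_natCast (l ^ (2 / (k : ℝ))) k, ← Real.rpow_mul hl.le]
  have e : 2 / (k : ℝ) * (k : ℝ) = 2 := by field_simp
  rw [e, mul_comm]
  norm_num

theorem Flg_fl {k : ℕ} (hk : 1 ≤ k) {l : ℝ} (hl : 0 < l) (v : ℝ) :
    fl k (l ^ (2 / (k : ℝ)) * v) = l ^ (2 / (k : ℝ)) * l ^ 2 * fl k v := by
  unfold fl
  rw [mul_pow, Flg_pow hk hl]
  ring

theorem Flg_gf {k : ℕ} (hk : 1 ≤ k) {U : ℝ → ℝ} (hU : ContDiff ℝ ∞ U) {l : ℝ} (hl : 0 < l)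
    (x : ℝ) : gf k (epf k U l x) = fun y =>
      -(l ^ (2 / (k : ℝ)) * l ^ 2 * iteratedDeriv 2 U (l * y + x))
        + l ^ (2 / (k : ℝ)) * U (l * y + x)
        - l ^ (2 / (k : ℝ)) * l ^ 2 * fl k (U (l * y + x)) := by
  funext y
  have hk1 : 1 ≤ k := by omega
  have hQ := qbas_smooth hk1
  have hW : ContDiff ℝ ∞ (Wf k U l x) := contDiff_const.mul (FlowR_sm hU l x)
  have e1 : deriv (deriv (epf k U l x)) y =
      l ^ (2 / (k : ℝ)) * l ^ 2 * iteratedDeriv 2 U (l * y + x) -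
        (Qf k y - fl k (Qf k y)) := by
    have e2 : deriv (deriv (epf k U l x)) y = iteratedDeriv 2 (epf k U l x) y := by
      rw [iteratedDeriv_succ, iteratedDeriv_one]
    have e3 : iteratedDeriv 2 (Qf k) y = deriv (deriv (Qf k)) y := by
      rw [iteratedDeriv_succ, iteratedDeriv_one]
    have e4 : iteratedDeriv 2 (epf k U l x) y =
        iteratedDeriv 2 (Wf k U l x) y - iteratedDeriv 2 (Qf k) y :=
      iteratedDeriv_fun_sub (ClB_at hW 2 y) (ClB_at hQ 2 y)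
    rw [e2, e4, e3, Q_ode hk1, iter_Wf hU]
  have e5 : Df k (epf k U l x) y = l ^ (2 / (k : ℝ)) * l ^ 2 * fl k (U (l * y + x)) -
      fl k (Qf k y) := by
    unfold Df
    have e6 : Qf k y + epf k U l x y = l ^ (2 / (k : ℝ)) * U (l * y + x) := by
      unfold epf Wf
      ring
    rw [e6, Flg_fl hk hl]
  unfold gf
  rw [e1, e5]
  unfold epf Wf
  ring

theorem Flg_zeta {k : ℕ} (hk : 1 ≤ k) {U E : ℝ → ℝ} (hU : ContDiff ℝ ∞ U)
    (hE : ContDiff ℝ ∞ E) (b m : ℝ) {l : ℝ} (hl : 0 < l) (x : ℝ) :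
    zeta k b m l (epf k U l x) (ef k E l x) = fun y =>
      ((l ^ (2 / (k : ℝ)) * l ^ 3) * FlowR_H k U E (l * y + x)
        + ((1 + m) * l ^ (2 / (k : ℝ))) * deriv (fun y => U (l * y + x)) y)
        - ((b * l ^ (2 / (k : ℝ))) * (y * deriv (fun y => U (l * y + x)) y)
        + (b * (2 / (k : ℝ)) * l ^ (2 / (k : ℝ))) * U (l * y + x)) := by
  funext y
  have hk1 : 1 ≤ k := by omega
  have hQ := qbas_smooth hk1
  have hW : ContDiff ℝ ∞ (Wf k U l x) := contDiff_const.mul (FlowR_sm hU l x)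
  have d1 : deriv (fun y => U (l * y + x)) y = l * deriv U (l * y + x) :=
    (FlowR_comp1 hU l x y).deriv
  have d2 : deriv (gf k (epf k U l x)) y =
      -(l ^ (2 / (k : ℝ)) * l ^ 2 * (l * iteratedDeriv 3 U (l * y + x)))
        + l ^ (2 / (k : ℝ)) * (l * deriv U (l * y + x))
        - l ^ (2 / (k : ℝ)) * l ^ 2 * (l * deriv (fun z' => fl k (U z')) (l * y + x)) := by
    rw [Flg_gf hk hU hl x]
    have f1 := (FlowR_comp1 (FlowR_its hU 2) l x y).const_mul (l ^ (2 / (k : ℝ)) * l ^ 2)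
    have f2 := (FlowR_comp1 hU l x y).const_mul (l ^ (2 / (k : ℝ)))
    have f3 := (FlowR_comp1 (FlowR_fls (k := k) hU) l x y).const_mul
      (l ^ (2 / (k : ℝ)) * l ^ 2)
    have f4 := ((f1.neg.add f2).sub f3).deriv
    refine Eq.trans ?_ (f4.trans ?_)
    · rfl
    · have f5 : iteratedDeriv 3 U = deriv (iteratedDeriv 2 U) := iteratedDeriv_succ
      rw [f5]
  have hWd : ∀ j : ℕ, iteratedDeriv j (epf k U l x) y =
      l ^ (2 / (k : ℝ)) * l ^ j * iteratedDeriv j U (l * y + x) - iteratedDeriv j (Qf k) y := by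
    intro j
    have e4 : iteratedDeriv j (epf k U l x) y =
        iteratedDeriv j (Wf k U l x) y - iteratedDeriv j (Qf k) y :=
      iteratedDeriv_fun_sub (ClB_at hW j y) (ClB_at hQ j y)
    rw [e4, iter_Wf hU]
  have e0 : epf k U l x y = l ^ (2 / (k : ℝ)) * U (l * y + x) - Qf k y := rfl
  have e1 : deriv (epf k U l x) y = l ^ (2 / (k : ℝ)) * l * deriv U (l * y + x) -
      deriv (Qf k) y := by
    have := hWd 1
    rw [iteratedDeriv_one, iteratedDeriv_one, iteratedDeriv_one, pow_one] at this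
    exact this
  have e2 : deriv (deriv (epf k U l x)) y =
      l ^ (2 / (k : ℝ)) * l ^ 2 * iteratedDeriv 2 U (l * y + x) - deriv (deriv (Qf k)) y := by
    have h2 := hWd 2
    have e3 : ∀ f : ℝ → ℝ, iteratedDeriv 2 f = deriv (deriv f) := by
      intro f
      rw [iteratedDeriv_succ, iteratedDeriv_one]
    rw [e3 (epf k U l x), e3 (Qf k)] at h2
    exact h2
  have e4 : deriv (ef k E l x) y = l ^ 2 * (l ^ (2 / (k : ℝ)) * (l * deriv E (l * y + x))) :=
    (((FlowR_comp1 hE l x y).const_mul (l ^ (2 / (k : ℝ)))).const_mul (l ^ 2)).deriv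
  unfold zeta Nf Lam
  rw [d2, e0, e1, e2, e4]
  simp only [d1]
  unfold FlowR_H
  ring

theorem Flg_zetaj {k : ℕ} (hk : 1 ≤ k) {U E : ℝ → ℝ} (hU : ContDiff ℝ ∞ U)
    (hE : ContDiff ℝ ∞ E) (b m : ℝ) {l : ℝ} (hl : 0 < l) (x : ℝ) (j : ℕ) (y : ℝ) :
    iteratedDeriv j (zeta k b m l (epf k U l x) (ef k E l x)) y =
      (l ^ (2 / (k : ℝ)) * l ^ 3) * (l ^ j * iteratedDeriv j (FlowR_H k U E) (l * y + x))
        + ((1 + m) * l ^ (2 / (k : ℝ))) * (l ^ (j + 1) * iteratedDeriv (j + 1) U (l * y + x))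
        - ((b * l ^ (2 / (k : ℝ))) * (y * (l ^ (j + 1) * iteratedDeriv (j + 1) U (l * y + x))
            + j * (l ^ j * iteratedDeriv j U (l * y + x)))
        + (b * (2 / (k : ℝ)) * l ^ (2 / (k : ℝ))) *
            (l ^ j * iteratedDeriv j U (l * y + x))) := by
  rw [Flg_zeta hk hU hE b m hl x]
  have hu := FlowR_sm hU l x
  have hdu : ContDiff ℝ ∞ (deriv (fun y => U (l * y + x))) := (contDiff_infty_iff_deriv.1 hu).2
  have hyd : ContDiff ℝ ∞ (fun y => y * deriv (fun y => U (l * y + x)) y) :=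
    contDiff_fun_id.mul hdu
  have hH : ContDiff ℝ ∞ (fun y => FlowR_H k U E (l * y + x)) := FlowR_sm (FlowR_Hs hU hE) l x
  have s1 : ContDiff ℝ ∞ (fun y => (l ^ (2 / (k : ℝ)) * l ^ 3) * FlowR_H k U E (l * y + x)) :=
    contDiff_const.mul hH
  have s2 : ContDiff ℝ ∞ (fun y => ((1 + m) * l ^ (2 / (k : ℝ))) *
      deriv (fun y => U (l * y + x)) y) := contDiff_const.mul hdu
  have s3 : ContDiff ℝ ∞ (fun y => (b * l ^ (2 / (k : ℝ))) *
      (y * deriv (fun y => U (l * y + x)) y)) := contDiff_const.mul hyd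
  have s4 : ContDiff ℝ ∞ (fun y => (b * (2 / (k : ℝ)) * l ^ (2 / (k : ℝ))) *
      U (l * y + x)) := contDiff_const.mul hu
  rw [iteratedDeriv_fun_sub (ClB_at (s1.add s2) j y) (ClB_at (s3.add s4) j y),
    iteratedDeriv_fun_add (ClB_at s1 j y) (ClB_at s2 j y),
    iteratedDeriv_fun_add (ClB_at s3 j y) (ClB_at s4 j y),
    iteratedDeriv_const_mul_field, iteratedDeriv_const_mul_field,
    iteratedDeriv_const_mul_field, iteratedDeriv_const_mul_field,
    iter_comp (FlowR_Hs hU hE), FlowR_ymul hu, iter_comp hU, iter_comp hU]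
  have e1 : iteratedDeriv j (fun y => deriv (fun y => U (l * y + x)) y) y =
      iteratedDeriv (j + 1) (fun y => U (l * y + x)) y := by
    rw [iteratedDeriv_succ']
  rw [e1, iter_comp hU]

/-- along the trajectory: uniform bounds and continuity on `[0,T]` -/
theorem fam_Wt {k : ℕ} {φ : ℝ → ℝ} {d T α l₀ lo hi X₀ : ℝ} {U e : ℝ → ℝ → ℝ} {P : ℝ → ℝ × ℝ}
    (hα : 1 ≤ α) (hlo : 0 < lo) (hlh : lo ≤ hi) (hhi : hi ≤ 1) (hX : 0 ≤ X₀)
    (h : App k T α U e) (hP : Tr k φ d T l₀ lo hi X₀ U e P) :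
    ContinuousOn (fun t => lt lo hi P t) (Icc 0 T) ∧
    (∀ t ∈ Icc 0 T, ContDiff ℝ ∞ (Wt k lo hi X₀ U P t)) ∧
    (∀ j : ℕ, ∃ C : ℝ, 0 ≤ C ∧ ∀ t ∈ Icc 0 T, ∀ y,
      |iteratedDeriv j (Wt k lo hi X₀ U P t) y| ≤ C * bd (lo / 16) (lo / 16) y ∧
      |iteratedDeriv j (ft k lo hi X₀ e P t) y| ≤ C * bd (lo / 16) (lo / 16) y) ∧
    (∀ (j : ℕ) (y : ℝ), ContinuousOn (fun t => iteratedDeriv j (Wt k lo hi X₀ U P t) y)
      (Icc 0 T)) := by
  have hlb : ∀ t, lo ≤ lt lo hi P t := fun t => FamR_clp_lo _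
  have hlb' : ∀ t, lt lo hi P t ≤ hi := fun t => FamR_clp_hi hlh _
  have hxb : ∀ t, |xt X₀ P t| ≤ X₀ := fun t =>
    abs_le.2 ⟨FamR_clp_lo _, FamR_clp_hi (by linarith) _⟩
  have hcl : ContinuousOn (fun t => lt lo hi P t) (Icc 0 T) :=
    (FamR_clp_cont lo hi).comp_continuousOn (continuous_fst.comp_continuousOn hP.cont)
  have hcx : ContinuousOn (fun t => xt X₀ P t) (Icc 0 T) :=
    (FamR_clp_cont (-X₀) X₀).comp_continuousOn (continuous_snd.comp_continuousOn hP.cont)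
  refine ⟨hcl, fun t ht => FamR_smooth (h.smooth t ht) _ _, ?_, ?_⟩
  · intro j
    obtain ⟨C, hC0, hC⟩ := app_bound h j
    refine ⟨C * Real.exp ((α / 2 + 1 / 16) * X₀), by positivity, fun t ht y => ?_⟩
    have hl0 := hlb t
    have hl1 := hlb' t
    have hx := hxb t
    show |iteratedDeriv j (Wf k (U t) (lt lo hi P t) (xt X₀ P t)) y| ≤ _ ∧
      |iteratedDeriv j (ef k (e t) (lt lo hi P t) (xt X₀ P t)) y| ≤ _
    set l := lt lo hi P t with hl
    set x := xt X₀ P t with hxd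
    have hlpos : 0 < l := lt_of_lt_of_le hlo hl0
    have hl1' : l ≤ 1 := hl1.trans hhi
    have hα0 : 0 ≤ α / 2 := by linarith
    have key : ∀ v : ℝ, |v| ≤ C * bd (α / 2) (1 / 16) (l * y + x) →
        |v| ≤ C * Real.exp ((α / 2 + 1 / 16) * X₀) * bd (lo / 16) (lo / 16) y := by
      intro v hv
      refine hv.trans ?_
      rw [mul_assoc]
      refine mul_le_mul_of_nonneg_left ?_ hC0
      refine (bd_shift hα0 (by norm_num) hlpos.le x y).trans ?_
      have h2 : Real.exp ((α / 2 + 1 / 16) * |x|) ≤ Real.exp ((α / 2 + 1 / 16) * X₀) :=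
        Real.exp_le_exp.2 (mul_le_mul_of_nonneg_left hx (by linarith))
      have h3 : bd (l * (α / 2)) (l * (1 / 16)) y ≤ bd (lo / 16) (lo / 16) y := by
        refine bd_anti ?_ ?_ y
        · nlinarith
        · linarith
      exact mul_le_mul h2 h3 (bd_pos _ _ _).le (Real.exp_pos _).le
    have h4 : |l ^ (2 / (k : ℝ)) * l ^ j| ≤ 1 := by
      rw [abs_of_nonneg (by positivity)]
      have h5 : l ^ (2 / (k : ℝ)) ≤ 1 := Real.rpow_le_one hlpos.le hl1' (by positivity)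
      have h6 : l ^ j ≤ 1 := pow_le_one₀ hlpos.le hl1'
      exact mul_le_one₀ h5 (by positivity) h6
    constructor
    · rw [iter_Wf (h.smooth t ht), abs_mul]
      exact (mul_le_of_le_one_left (abs_nonneg _) h4).trans (key _ ((hC t ht _).1))
    · have e1 : iteratedDeriv j (ef k (e t) l x) y =
          l ^ 2 * (l ^ (2 / (k : ℝ)) * l ^ j * iteratedDeriv j (e t) (l * y + x)) := by
        rw [← iter_Wf (h.smooth' t ht)]
        exact iteratedDeriv_const_mul_field _ _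
      rw [e1, abs_mul, abs_mul]
      have p1 : |l ^ 2| ≤ 1 := by
        rw [abs_of_pos (by positivity)]
        exact pow_le_one₀ hlpos.le hl1'
      refine (mul_le_of_le_one_left (by positivity) p1).trans ?_
      exact (mul_le_of_le_one_left (abs_nonneg _) h4).trans (key _ ((hC t ht _).2))
  · intro j y
    have hjc := (app_jc (by linarith) h j).1
    have e : ∀ t ∈ Icc 0 T,
        iteratedDeriv j (Wt k lo hi X₀ U P t) y =
        (lt lo hi P t) ^ (2 / (k : ℝ)) * (lt lo hi P t) ^ j *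
          iteratedDeriv j (U t) (lt lo hi P t * y + xt X₀ P t) := by
      intro t ht
      exact iter_Wf (h.smooth t ht) _ _ j y
    refine ContinuousOn.congr ?_ e
    have c1 : ContinuousOn (fun t => (lt lo hi P t) ^ (2 / (k : ℝ))) (Icc 0 T) := by
      refine hcl.rpow_const (fun t _ => Or.inl ?_)
      have := hlb t
      linarith
    have c2 : ContinuousOn (fun t => (lt lo hi P t) ^ j) (Icc 0 T) := hcl.pow j
    have c3 : ContinuousOn (fun t => ((t, lt lo hi P t * y + xt X₀ P t) : ℝ × ℝ)) (Icc 0 T) :=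
      continuousOn_id.prodMk ((hcl.mul continuousOn_const).add hcx)
    have c4 : ContinuousOn (fun t => iteratedDeriv j (U t) (lt lo hi P t * y + xt X₀ P t))
        (Icc 0 T) := hjc.comp c3 (fun t ht => ⟨ht, mem_univ _⟩)
    exact (c1.mul c2).mul c4

theorem flow_et {k : ℕ} {φ : ℝ → ℝ} {d T α l₀ lo hi X₀ : ℝ} {U e : ℝ → ℝ → ℝ} {P : ℝ → ℝ × ℝ}
    (hk : 1 ≤ k) (hT : 0 < T) (hα : 1 ≤ α) (hlo : 0 < lo) (hlh : lo ≤ hi) (hhi : hi ≤ 1)
    (hX : 0 ≤ X₀) (h : App k T α U e) (hP : Tr k φ d T l₀ lo hi X₀ U e P) (L : ℝ)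
    (hL : ∀ t ∈ Icc 0 T, ∀ P, ‖VG k φ d lo hi X₀ U e t P‖ ≤ L)
    {t₀ : ℝ} (ht₀ : t₀ ∈ Ioo 0 T) (h1 : lo < (P t₀).1)
    (h2 : (P t₀).1 < hi) (h3 : |(P t₀).2| < X₀) :
    ∃ J : Set ℝ, t₀ ∈ J ∧ J ⊆ Ioo 0 T ∧ (∀ t ∈ J, lo < (P t).1 ∧ (P t).1 < hi ∧ |(P t).2| < X₀) ∧
      Flow k 0 (lo / 16) J (fun t => lt lo hi P t) (fun t => wt' k φ d lo hi X₀ U e P t)
        (fun t => mt' k φ d lo hi X₀ U e P t) (fun t => et k lo hi X₀ U P t)
        (fun t => ft k lo hi X₀ e P t) := by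
  obtain ⟨hF1, hF2, hF3, hF4⟩ := fam_Wt hα hlo hlh hhi hX h hP
  have hL0 : 0 ≤ L := le_trans (norm_nonneg _) (hL 0 ⟨le_rfl, hT.le⟩ (P 0))
  have hcl : ∀ t, lt lo hi P t ≤ hi := fun t => max_le hlh (min_le_right _ _)
  have hcl2 : ∀ t, lo ≤ lt lo hi P t := fun t => le_max_left _ _
  have hP1 : ∀ t ∈ Ioo 0 T, HasDerivAt (fun s => (P s).1)
      (-(wt' k φ d lo hi X₀ U e P t) / (lt lo hi P t) ^ 2) t := by
    intro t ht
    exact hasFDerivAt_fst.comp_hasDerivAt t (hP.ode t ht)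
  have hP2 : ∀ t ∈ Ioo 0 T, HasDerivAt (fun s => (P s).2)
      ((1 + mt' k φ d lo hi X₀ U e P t) / (lt lo hi P t) ^ 2) t := by
    intro t ht
    exact hasFDerivAt_snd.comp_hasDerivAt t (hP.ode t ht)
  refine ⟨{t | t ∈ Ioo 0 T ∧ (lo < (P t).1 ∧ (P t).1 < hi ∧ |(P t).2| < X₀)},
    ⟨ht₀, h1, h2, h3⟩, fun t ht => ht.1, fun t ht => ht.2, ?_⟩
  have hJo : ∀ t ∈ {t | t ∈ Ioo 0 T ∧ (lo < (P t).1 ∧ (P t).1 < hi ∧ |(P t).2| < X₀)},
      {t | t ∈ Ioo 0 T ∧ (lo < (P t).1 ∧ (P t).1 < hi ∧ |(P t).2| < X₀)} ∈ 𝓝 t := by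
    rintro t ⟨ht, g1, g2, g3⟩
    have c1 := (hP1 t ht).continuousAt
    have c2 := (hP2 t ht).continuousAt
    filter_upwards [Ioo_mem_nhds ht.1 ht.2, continuousAt_const.eventually_lt c1 g1,
      c1.eventually_lt continuousAt_const g2, c2.abs.eventually_lt continuousAt_const g3]
      with s hs a1 a2 a3
    exact ⟨hs, a1, a2, a3⟩
  have hIcc : ∀ t, t ∈ Ioo 0 T → t ∈ Icc 0 T := fun t ht => ⟨ht.1.le, ht.2.le⟩
  have hdl : ∀ t ∈ {t | t ∈ Ioo 0 T ∧ (lo < (P t).1 ∧ (P t).1 < hi ∧ |(P t).2| < X₀)},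
      HasDerivAt (fun t => lt lo hi P t)
        (-(wt' k φ d lo hi X₀ U e P t) / (lt lo hi P t) ^ 2) t := by
    intro t ht
    refine (hP1 t ht.1).congr_of_eventuallyEq ?_
    filter_upwards [hJo t ht] with s hs
    exact FlowR_clp hs.2.1 hs.2.2.1
  have hdx : ∀ t ∈ {t | t ∈ Ioo 0 T ∧ (lo < (P t).1 ∧ (P t).1 < hi ∧ |(P t).2| < X₀)},
      HasDerivAt (fun t => xt X₀ P t)
        ((1 + mt' k φ d lo hi X₀ U e P t) / (lt lo hi P t) ^ 2) t := by
    intro t ht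
    refine (hP2 t ht.1).congr_of_eventuallyEq ?_
    filter_upwards [hJo t ht] with s hs
    have h4 := abs_lt.1 hs.2.2.2
    exact FlowR_clp h4.1 h4.2
  have hQ : ContDiff ℝ ∞ (Qf k) := qbas_smooth hk
  have hlo1 : lo ≤ 1 := hlh.trans hhi
  have hab : ∀ t y, H98KB.bd (0 * lt lo hi P t + lo / 16) (lo / 16) y =
      bd (lo / 16) (lo / 16) y := by
    intro t y
    rw [zero_mul, zero_add]
  refine ⟨?_, le_rfl, by linarith, ?_, ?_, ?_, hdl, ?_, ?_, ?_, ?_, ?_, ?_⟩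
  · rw [isOpen_iff_mem_nhds]
    exact hJo
  · intro t ht
    have := hcl2 t
    linarith
  · intro t ht
    exact (hcl t).trans hhi
  · intro t ht
    linarith
  · refine ⟨L + 1, fun t ht => ?_⟩
    have hv := hL t ⟨ht.1.1.le, ht.1.2.le⟩ (P t)
    have hl0 : 0 < lt lo hi P t := lt_of_lt_of_le hlo (hcl2 t)
    have hl1 : lt lo hi P t ≤ 1 := (hcl t).trans hhi
    have hl2 : (lt lo hi P t) ^ 2 ≤ 1 := by nlinarith
    have hl3 : 0 < (lt lo hi P t) ^ 2 := by positivity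
    have v1 : |-(wt' k φ d lo hi X₀ U e P t) / (lt lo hi P t) ^ 2| ≤ L :=
      (norm_fst_le _).trans hv
    have v2 : |(1 + mt' k φ d lo hi X₀ U e P t) / (lt lo hi P t) ^ 2| ≤ L :=
      (norm_snd_le _).trans hv
    rw [abs_div, abs_neg, abs_of_pos hl3, div_le_iff₀ hl3] at v1
    rw [abs_div, abs_of_pos hl3, div_le_iff₀ hl3] at v2
    have v3 : L * (lt lo hi P t) ^ 2 ≤ L := by nlinarith
    refine ⟨by linarith, ?_⟩
    have v4 : |mt' k φ d lo hi X₀ U e P t| ≤ |1 + mt' k φ d lo hi X₀ U e P t| + |(1 : ℝ)| := by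
      have := abs_sub (1 + mt' k φ d lo hi X₀ U e P t) 1
      rw [add_sub_cancel_left] at this
      exact this
    rw [abs_one] at v4
    linarith
  · intro t ht
    exact (hF2 t (hIcc t ht.1)).sub hQ
  · intro t ht
    have hs := h.smooth' t ⟨ht.1.1.le, ht.1.2.le⟩
    exact contDiff_const.mul (contDiff_const.mul (FlowR_sm hs _ _))
  · intro j
    obtain ⟨C, hC0, hC⟩ := hF3 j
    obtain ⟨D, hD0, hD⟩ := ClB_pos (Q_cl hk) j
    refine ⟨C + D, fun t ht y => ?_⟩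
    rw [hab]
    have e4 : iteratedDeriv j (et k lo hi X₀ U P t) y =
        iteratedDeriv j (Wt k lo hi X₀ U P t) y - iteratedDeriv j (Qf k) y :=
      iteratedDeriv_fun_sub (ClB_at (hF2 t (hIcc t ht.1)) j y) (ClB_at hQ j y)
    rw [e4]
    refine (abs_sub _ _).trans ?_
    rw [add_mul]
    refine add_le_add (hC t (hIcc t ht.1) y).1 ?_
    exact (hD y).trans (mul_le_mul_of_nonneg_left (bd_anti (by linarith) (by linarith) y) hD0)
  · intro j
    obtain ⟨C, hC0, hC⟩ := hF3 j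
    refine ⟨C, fun t ht y => ?_⟩
    rw [hab]
    exact (hC t (hIcc t ht.1) y).2
  · intro j t ht y
    have hl0 : 0 < lt lo hi P t := lt_of_lt_of_le hlo (hcl2 t)
    have htI : t ∈ Icc 0 T := ⟨ht.1.1.le, ht.1.2.le⟩
    have hU := h.smooth t htI
    have hE := h.smooth' t htI
    have hz : HasDerivAt (fun s => lt lo hi P s * y + xt X₀ P s)
        (-(wt' k φ d lo hi X₀ U e P t) / (lt lo hi P t) ^ 2 * y +
          (1 + mt' k φ d lo hi X₀ U e P t) / (lt lo hi P t) ^ 2) t :=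
      ((hdl t ht).mul_const y).add (hdx t ht)
    have hev := h.evol j t ht.1 (lt lo hi P t * y + xt X₀ P t)
    have hcont : ContinuousAt (fun q : ℝ × ℝ => iteratedDeriv (j + 1) (U q.1) q.2)
        (t, lt lo hi P t * y + xt X₀ P t) :=
      (app_jc (by linarith) h (j + 1)).1.continuousAt
        (prod_mem_nhds (Icc_mem_nhds ht.1.1 ht.1.2) univ_mem)
    have hch := FlowR_chain (V := fun τ w => iteratedDeriv j (U τ) w)
      (V' := fun τ w => iteratedDeriv (j + 1) (U τ) w)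
      (z := fun s => lt lo hi P s * y + xt X₀ P s) (Ioo_mem_nhds ht.1.1 ht.1.2) hev
      (fun τ hτ w => FlowR_dit (h.smooth τ ⟨hτ.1.le, hτ.2.le⟩) j w) hcont hz
    have hpw : HasDerivAt (fun s => (lt lo hi P s) ^ (2 / (k : ℝ) + (j : ℝ)))
        (-(wt' k φ d lo hi X₀ U e P t) / (lt lo hi P t) ^ 2 * (2 / (k : ℝ) + (j : ℝ)) *
          (lt lo hi P t) ^ (2 / (k : ℝ) + (j : ℝ) - 1)) t :=
      (hdl t ht).rpow_const (Or.inl hl0.ne')
    have hall := (hpw.mul hch).sub_const (iteratedDeriv j (Qf k) y)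
    have hpj : ∀ s, (lt lo hi P s) ^ (2 / (k : ℝ) + (j : ℝ)) =
        (lt lo hi P s) ^ (2 / (k : ℝ)) * (lt lo hi P s) ^ j := fun s =>
      Real.rpow_add_natCast (lt_of_lt_of_le hlo (hcl2 s)).ne' _ _
    have hval : iteratedDeriv j (zeta k (wt' k φ d lo hi X₀ U e P t)
        (mt' k φ d lo hi X₀ U e P t)
        (lt lo hi P t) (et k lo hi X₀ U P t) (ft k lo hi X₀ e P t)) y = _ :=
      Flg_zetaj hk hU hE (wt' k φ d lo hi X₀ U e P t) (mt' k φ d lo hi X₀ U e P t) hl0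
        (xt X₀ P t) j y
    rw [hval]
    refine (hall.congr_deriv ?_).congr_of_eventuallyEq ?_
    · rw [Real.rpow_sub_one hl0.ne', hpj t]
      have eH : iteratedDeriv j (fun z => -iteratedDeriv 3 (U t) z +
          iteratedDeriv 2 (U t) z - deriv (fun z' => fl k (U t z')) z -
          deriv (e t) z) = iteratedDeriv j (FlowR_H k (U t) (e t)) := rfl
      rw [eH]
      field_simp
      ring
    · filter_upwards [hJo t ht] with s hs
      have hsI : s ∈ Icc 0 T := ⟨hs.1.1.le, hs.1.2.le⟩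
      have hUs := h.smooth s hsI
      have e4 : iteratedDeriv j (et k lo hi X₀ U P s) y =
          iteratedDeriv j (Wf k (U s) (lt lo hi P s) (xt X₀ P s)) y -
            iteratedDeriv j (Qf k) y :=
        iteratedDeriv_fun_sub (ClB_at (hF2 s hsI) j y) (ClB_at hQ j y)
      rw [e4, iter_Wf hUs]
      simp only [Pi.mul_apply]
      rw [hpj s]

end H72KC
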