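import Pool.Agent.H72.KC.PLg
import Pool.Agent.H72.KB.PCon

/-!
# Continuity of `wfn`, `nfn` along a pointwise continuous bounded family (copy of `KB/PCon`)
-/

open MeasureTheory Filter Topology Set
open scoped ContDiff

namespace H72KC

open H98KB H72KB

theorem wfn_cont {k : ℕ} (hk : 1 ≤ k) {φ : ℝ → ℝ} (hφ : Cl 1 1 φ) {dd : ℝ} (hc : 0 < dd) (J : Set ℝ) (l C₀ : ℝ) (W E : ℝ → ℝ → ℝ)
    (hW : ∀ t ∈ J, Continuous (W t)) (hE : ∀ t ∈ J, Continuous (E t))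
    (bW : ∀ t ∈ J, ∀ y, |W t y| ≤ C₀) (bE : ∀ t ∈ J, ∀ y, |E t y| ≤ C₀)
    (cW : ∀ y, ContinuousOn (fun t => W t y) J) (cE : ∀ y, ContinuousOn (fun t => E t y) J) :
    ContinuousOn (fun t => wfn k φ dd l (W t) (E t)) J ∧
      ContinuousOn (fun t => nfn k φ dd l (W t) (E t)) J := by
  have hQ' : Cl 1 1 (deriv (Qf k)) := Cl_deriv (Q_cl hk)
  have a1 := PCon_I1 k J l C₀ W E _ hφ hW hE bW bE cW cE
  have a2 := PCon_I1 k J l C₀ W E _ hQ' hW hE bW bE cW cE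
  have b1 := PCon_IA k J C₀ W _ hφ hW bW cW
  have b2 := PCon_IA k J C₀ W _ hQ' hW bW cW
  have c1 := PCon_IB J C₀ W _ hφ hW bW cW
  have c2 := PCon_IB J C₀ W _ hQ' hW bW cW
  have hD : ContinuousOn (fun t => Dt k φ (W t)) J := by
    unfold Dt
    exact (b1.mul c2).sub (b2.mul c1)
  have hM : ContinuousOn (fun t => max (Dt k φ (W t)) dd) J := hD.sup continuousOn_const
  have hne : ∀ t ∈ J, max (Dt k φ (W t)) dd ≠ 0 := fun t _ =>
    (lt_of_lt_of_le hc (le_max_right _ _)).ne'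
  constructor
  · unfold wfn
    exact ((a1.mul c2).sub (a2.mul c1)).div hM hne
  · unfold nfn
    exact ((b1.mul a2).sub (b2.mul a1)).div hM hne

end H72KC
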