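import Pool.Agent.H72.KC.CIp
import Pool.Agent.H72.KC.CEw
import Pool.Agent.H72.KB.QBas

/-! # The family `W - Q`: continuity of `Xn`, `∫ (W-Q)^2`, pairings -/

open MeasureTheory Filter Topology Set
open scoped ContDiff

namespace H72KC

open H98KB H72KB H68KC

theorem fa_sub {θ : ℝ} {S : Set ℝ} {r : ℝ → ℝ} {W : ℝ → ℝ → ℝ} (F : Fa θ S r W) :
    Fa θ S r (fun t y => W t y - Qf 4 y) := by
  have hQ : Cl 1 1 (Qf 4) := Q_cl (by norm_num)
  have hi : ∀ (j : ℕ), ∀ t ∈ S, ∀ y, iteratedDeriv j (fun y => W t y - Qf 4 y) y =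
      iteratedDeriv j (W t) y - iteratedDeriv j (Qf 4) y := fun j t ht y =>
    iteratedDeriv_fun_sub (ClB_at (F.sm t ht) j y) (ClB_at hQ.1 j y)
  refine ⟨F.θ0, F.θ1, F.lo, F.hi, F.cr, fun t ht => (F.sm t ht).sub hQ.1, ?_, ?_⟩
  · intro j
    obtain ⟨C, hC0, hC⟩ := F.bd j
    obtain ⟨D, hD0, hD⟩ := ClB_pos hQ j
    refine ⟨C + D, by positivity, fun t ht y => ?_⟩
    rw [hi j t ht y, add_mul]
    refine (abs_sub _ _).trans (add_le_add (hC t ht y) ?_)
    exact (hD y).trans (mul_le_mul_of_nonneg_left (bd_anti F.θ1 F.θ1 y) hD0)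
  · intro j y
    exact ((F.co j y).sub continuousOn_const).congr fun t ht => hi j t ht y

theorem con_sq {θ : ℝ} {S : Set ℝ} {r : ℝ → ℝ} {W : ℝ → ℝ → ℝ} (F : Fa θ S r W) :
    ContinuousOn (fun t => ∫ y, (W t y) ^ 2) S ∧ ContinuousOn (fun t => Xn (W t)) S := by
  have hbi : Integrable (bd θ θ) := bd_int F.θ0 F.θ0
  have key : ∀ (j : ℕ), ContinuousOn (fun t => ∫ y, (iteratedDeriv j (W t) y) ^ 2) S := by
    intro j
    obtain ⟨C, hC0, hC⟩ := F.bd j
    refine cInt (g := fun y => C * (C * bd θ θ y)) ((hbi.const_mul C).const_mul C) ?_ ?_ ?_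
    · intro τ hτ
      have h1 : ContDiff ℝ ∞ (iteratedDeriv j (W τ)) :=
        (Cl_iter (p := 0) (q := 0) (f := W τ) ⟨F.sm τ hτ, fun i => by
          obtain ⟨D, hD0, hD⟩ := F.bd i
          refine ⟨D, fun y => (hD τ hτ y).trans (mul_le_mul_of_nonneg_left ?_ hD0)⟩
          exact bd_anti F.θ0.le F.θ0.le y⟩ j).1
      exact h1.continuous.pow 2
    · intro τ hτ y
      have h1 := hC τ hτ y
      have h2 := bd_le_one F.θ0.le F.θ0.le y
      have h3 := bd_pos θ θ y
      have h4 : |iteratedDeriv j (W τ) y| ≤ C := h1.trans (mul_le_of_le_one_right hC0 h2)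
      rw [abs_pow, sq]
      exact mul_le_mul h4 h1 (abs_nonneg _) hC0
    · intro y
      exact (F.co j y).pow 2
  constructor
  · have h := key 0
    simp only [iteratedDeriv_zero] at h
    exact h
  · have h := key 1
    simp only [iteratedDeriv_one] at h
    exact h

end H72KC
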