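import Pool.Agent.H72.KC.Base4
import Pool.Agent.H72.KB.ClC

/-!
# Row WtZ: the weights

`Zf ξ = (1/cosh(ξ-2))^2`, `om4 B s y = Th B y * Zf (s*y)`, `Th B y = 1/(1+exp(-y/B)) ∈ (0,1)`, `Ph s y = Th 4 (y - 1/(2s))`.
Proof.  `cosh x ≥ e^{|x|}/2`, so `0 < Zf ξ ≤ 4 e^{-2|ξ-2|} ≤ 4 e^4 e^{-2|ξ|}`; for `s ≥ σ > 0`: `e^{-2 s |y|} ≤ e^{-2σ|y|} = bd (2σ) (2σ) y ≤ bd σ σ y`
(`bd a a y = exp(-a |y|)`: `max y 0 + max (-y) 0 = |y|`, `ClA_abs`).
`Zf' ξ = -2 tanh(ξ-2) Zf ξ` (derivative of `cosh^{-2}`), so `|Zf'| ≤ 2 Zf`.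
`Ph s y ≤ 1`; its derivative in `y` is `Th(1-Th)/4`, `|deriv (Ph s) y| ≤ 1`.
-/

open MeasureTheory Filter Topology Set
open scoped ContDiff

namespace H72KC

open H98KB H72KB H68KC

theorem zf_smooth : ContDiff ℝ ∞ Zf := by
  unfold Zf
  exact (contDiff_const.div (Real.contDiff_cosh.comp (contDiff_id.sub contDiff_const))
    (fun x => (Real.cosh_pos _).ne')).pow 2

theorem WtZ_hd (ξ : ℝ) : HasDerivAt Zf (-(2 * Real.sinh (ξ - 2)) / Real.cosh (ξ - 2) ^ 3) ξ := by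
  have h1 : HasDerivAt (fun ξ => Real.cosh (ξ - 2)) (Real.sinh (ξ - 2)) ξ := by
    have := (Real.hasDerivAt_cosh (ξ - 2)).comp ξ ((hasDerivAt_id ξ).sub_const 2)
    rw [mul_one] at this
    exact this
  have hc : Real.cosh (ξ - 2) ≠ 0 := (Real.cosh_pos _).ne'
  have h2 : HasDerivAt (fun ξ => 1 / Real.cosh (ξ - 2))
      (-Real.sinh (ξ - 2) / Real.cosh (ξ - 2) ^ 2) ξ := by
    have := h1.inv hc
    simpa only [one_div] using! this
  have h3 := h2.pow 2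
  have h4 : -(2 * Real.sinh (ξ - 2)) / Real.cosh (ξ - 2) ^ 3 =
      ((2 : ℕ) : ℝ) * (1 / Real.cosh (ξ - 2)) ^ (2 - 1) *
        (-Real.sinh (ξ - 2) / Real.cosh (ξ - 2) ^ 2) := by
    push_cast
    field_simp
  rw [h4]
  exact h3

theorem WtZ_sinh (x : ℝ) : |Real.sinh x| ≤ Real.cosh x := by
  rw [Real.abs_sinh, ← Real.cosh_abs]
  exact (Real.sinh_lt_cosh _).le

theorem zf_der (ξ : ℝ) : HasDerivAt Zf (deriv Zf ξ) ξ ∧ |deriv Zf ξ| ≤ 2 * Zf ξ ∧ 0 < Zf ξ ∧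
    Zf ξ ≤ 1 := by
  have h := WtZ_hd ξ
  have hc := Real.one_le_cosh (ξ - 2)
  have hc0 := Real.cosh_pos (ξ - 2)
  refine ⟨?_, ?_, ?_, ?_⟩
  · rw [h.deriv]
    exact h
  · rw [h.deriv]
    have h1 := WtZ_sinh (ξ - 2)
    have h2 : Zf ξ = 1 / Real.cosh (ξ - 2) ^ 2 := by
      unfold Zf
      rw [div_pow, one_pow]
    rw [h2, abs_div, abs_neg, abs_mul, abs_two, abs_of_pos (pow_pos hc0 3),
      div_le_iff₀ (pow_pos hc0 3)]
    have h3 : 2 * (1 / Real.cosh (ξ - 2) ^ 2) * Real.cosh (ξ - 2) ^ 3 =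
        2 * Real.cosh (ξ - 2) := by
      field_simp
    rw [h3]
    linarith
  · unfold Zf
    positivity
  · unfold Zf
    rw [div_pow, one_pow, div_le_one (pow_pos hc0 2)]
    exact one_le_pow₀ hc

theorem th_bnd (B y : ℝ) : 0 < Th B y ∧ Th B y < 1 := by
  unfold Th
  have h := Real.exp_pos (-y / B)
  constructor
  · positivity
  · rw [div_lt_one (by positivity)]
    linarith

theorem th_smooth (B : ℝ) : ContDiff ℝ ∞ (Th B) := by
  unfold Th
  refine contDiff_const.div ?_ ?_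
  · exact contDiff_const.add (Real.contDiff_exp.comp (contDiff_id.neg.div_const B))
  · intro y
    have h := Real.exp_pos (-y / B)
    positivity

theorem WtZ_up (ξ : ℝ) : Zf ξ ≤ 4 * Real.exp 4 * Real.exp (-(2 * |ξ|)) := by
  have h1 : Real.exp |ξ - 2| / 2 ≤ Real.cosh (ξ - 2) := by
    rw [← Real.cosh_abs, Real.cosh_eq]
    have := Real.exp_pos (-|ξ - 2|)
    linarith
  have h2 : 1 / Real.cosh (ξ - 2) ≤ 2 * Real.exp (-|ξ - 2|) := by
    rw [div_le_iff₀ (Real.cosh_pos _)]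
    have h3 := mul_le_mul_of_nonneg_left h1 (Real.exp_pos (-|ξ - 2|)).le
    have h4 : Real.exp (-|ξ - 2|) * (Real.exp |ξ - 2| / 2) = 1 / 2 := by
      rw [mul_div_assoc', ← Real.exp_add, neg_add_cancel, Real.exp_zero]
    linarith
  have h3 : Zf ξ ≤ (2 * Real.exp (-|ξ - 2|)) ^ 2 := by
    unfold Zf
    exact pow_le_pow_left₀ (by positivity) h2 2
  have h4 : (2 * Real.exp (-|ξ - 2|)) ^ 2 = 4 * Real.exp (-(2 * |ξ - 2|)) := by
    rw [mul_pow, ← Real.exp_nat_mul]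
    norm_num
  have h5 : |ξ| ≤ |ξ - 2| + 2 := by
    have := abs_add_le (ξ - 2) 2
    rw [sub_add_cancel, abs_two] at this
    exact this
  rw [h4] at h3
  refine h3.trans ?_
  rw [mul_assoc, ← Real.exp_add]
  refine mul_le_mul_of_nonneg_left (Real.exp_le_exp.2 ?_) (by norm_num)
  linarith

/-- the weight and its derivative in `s` are dominated by an integrable function, uniformly in
`s ≥ σ` -/
theorem om4_dom {σ : ℝ} (hσ : 0 < σ) : ∃ C : ℝ, 0 ≤ C ∧ ∀ B s y : ℝ, σ ≤ s →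
    |om4 B s y| ≤ C * bd (σ / 2) (σ / 2) y ∧ |y * Th B y * deriv Zf (s * y)| ≤ C * bd (σ / 2) (σ / 2) y := by
  refine ⟨4 * Real.exp 4 + 8 * Real.exp 4 / σ, by positivity, ?_⟩
  intro B s y hs
  have hbd : bd (σ / 2) (σ / 2) y = Real.exp (-(σ / 2 * |y|)) := by
    unfold bd
    rw [← ClA_abs y]
    congr 1
    ring
  have hT := th_bnd B y
  have hz := zf_der (s * y)
  have hup := WtZ_up (s * y)
  have hs0 : 0 < s := by linarith
  have hy0 := abs_nonneg y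
  have e1 : Real.exp (-(2 * |s * y|)) ≤ Real.exp (-(2 * σ * |y|)) := by
    rw [Real.exp_le_exp, abs_mul, abs_of_pos hs0]
    have := mul_le_mul_of_nonneg_right hs hy0
    linarith
  have e2 : Zf (s * y) ≤ 4 * Real.exp 4 * Real.exp (-(2 * σ * |y|)) :=
    hup.trans (mul_le_mul_of_nonneg_left e1 (by positivity))
  have e3 : Real.exp (-(2 * σ * |y|)) = Real.exp (-(3 / 2 * σ * |y|)) *
      Real.exp (-(σ / 2 * |y|)) := by
    rw [← Real.exp_add]
    congr 1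
    ring
  have e4 : Real.exp (-(3 / 2 * σ * |y|)) ≤ 1 := by
    rw [Real.exp_le_one_iff]
    have := mul_nonneg hσ.le hy0
    linarith
  have e5 : |y| * Real.exp (-(3 / 2 * σ * |y|)) ≤ 1 / σ := by
    have h1 := Real.add_one_le_exp (3 / 2 * σ * |y|)
    have h2 : σ * |y| ≤ Real.exp (3 / 2 * σ * |y|) := by
      have := mul_nonneg hσ.le hy0
      linarith
    have h3 := mul_le_mul_of_nonneg_right h2 (Real.exp_pos (-(3 / 2 * σ * |y|))).le
    rw [← Real.exp_add, add_neg_cancel, Real.exp_zero] at h3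
    rw [le_div_iff₀ hσ]
    linarith
  have hE := Real.exp_pos (-(σ / 2 * |y|))
  have h4 := Real.exp_pos (4 : ℝ)
  rw [hbd]
  constructor
  · unfold om4
    rw [abs_of_pos (mul_pos hT.1 hz.2.2.1)]
    have h5 : Th B y * Zf (s * y) ≤ 1 * Zf (s * y) :=
      mul_le_mul_of_nonneg_right hT.2.le hz.2.2.1.le
    have h6 : Real.exp (-(3 / 2 * σ * |y|)) * Real.exp (-(σ / 2 * |y|)) ≤
        1 * Real.exp (-(σ / 2 * |y|)) := mul_le_mul_of_nonneg_right e4 hE.le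
    have h7 : 4 * Real.exp 4 * Real.exp (-(2 * σ * |y|)) ≤
        4 * Real.exp 4 * Real.exp (-(σ / 2 * |y|)) := by
      rw [e3]
      refine mul_le_mul_of_nonneg_left ?_ (by positivity)
      linarith
    have h8 : 0 ≤ 8 * Real.exp 4 / σ * Real.exp (-(σ / 2 * |y|)) := by positivity
    rw [add_mul]
    linarith
  · rw [abs_mul, abs_mul, abs_of_pos hT.1]
    have h5 : |y| * Th B y ≤ |y| * 1 := mul_le_mul_of_nonneg_left hT.2.le hy0
    have h6 : |deriv Zf (s * y)| ≤ 2 * (4 * Real.exp 4 * Real.exp (-(2 * σ * |y|))) := by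
      linarith [hz.2.1]
    have h7 : |y| * Th B y * |deriv Zf (s * y)| ≤
        (|y| * 1) * (2 * (4 * Real.exp 4 * Real.exp (-(2 * σ * |y|)))) :=
      mul_le_mul h5 h6 (abs_nonneg _) (by positivity)
    have h8 : (|y| * 1) * (2 * (4 * Real.exp 4 * Real.exp (-(2 * σ * |y|)))) =
        8 * Real.exp 4 * ((|y| * Real.exp (-(3 / 2 * σ * |y|))) * Real.exp (-(σ / 2 * |y|))) := by
      rw [e3]
      ring
    have h9 : (|y| * Real.exp (-(3 / 2 * σ * |y|))) * Real.exp (-(σ / 2 * |y|)) ≤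
        1 / σ * Real.exp (-(σ / 2 * |y|)) := mul_le_mul_of_nonneg_right e5 hE.le
    have h10 := mul_le_mul_of_nonneg_left h9 (by positivity : 0 ≤ 8 * Real.exp 4)
    have h11 : 0 ≤ 4 * Real.exp 4 * Real.exp (-(σ / 2 * |y|)) := by positivity
    have h12 : 8 * Real.exp 4 * (1 / σ * Real.exp (-(σ / 2 * |y|))) =
        8 * Real.exp 4 / σ * Real.exp (-(σ / 2 * |y|)) := by ring
    rw [add_mul]
    linarith

theorem WtZ_Th (u : ℝ) : HasDerivAt (Th 4)
    (1 / 4 * Real.exp (-u / 4) / (1 + Real.exp (-u / 4)) ^ 2) u := by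
  have h0 := Real.exp_pos (-u / 4)
  have h1 : HasDerivAt (fun u : ℝ => -u / 4) (-1 / 4) u := by
    have := (hasDerivAt_id u).neg.div_const 4
    exact this
  have h2 : HasDerivAt (fun u : ℝ => 1 + Real.exp (-u / 4)) (Real.exp (-u / 4) * (-1 / 4)) u :=
    h1.exp.const_add 1
  have h3 := h2.inv (by positivity : 1 + Real.exp (-u / 4) ≠ 0)
  have h4 : 1 / 4 * Real.exp (-u / 4) / (1 + Real.exp (-u / 4)) ^ 2 =
      -(Real.exp (-u / 4) * (-1 / 4)) / (1 + Real.exp (-u / 4)) ^ 2 := by ring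
  rw [h4]
  have h5 : Th 4 = (fun u : ℝ => 1 + Real.exp (-u / 4))⁻¹ := by
    funext v
    unfold Th
    rw [one_div]
    rfl
  rw [h5]
  exact h3

/-- derivatives of the front `Ph s y = Th 4 (y - 1/(2s))` -/
theorem ph_der {s : ℝ} (hs : 0 < s) (y : ℝ) : HasDerivAt (Ph s) (deriv (Ph s) y) y ∧
    HasDerivAt (fun s => Ph s y) (deriv (Ph s) y * (1 / (2 * s ^ 2))) s ∧
    |deriv (Ph s) y| ≤ 1 ∧ 0 < Ph s y ∧ Ph s y < 1 ∧ Continuous (Ph s) ∧
    Continuous (deriv (Ph s)) := by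
  have hc : ContDiff ℝ ∞ (Ph s) := by
    unfold Ph
    exact (th_smooth 4).comp (contDiff_id.sub contDiff_const)
  have h1 : HasDerivAt (Ph s) (1 / 4 * Real.exp (-(y - 1 / (2 * s)) / 4) /
      (1 + Real.exp (-(y - 1 / (2 * s)) / 4)) ^ 2) y := by
    have h := (WtZ_Th (y - 1 / (2 * s))).comp y ((hasDerivAt_id y).sub_const (1 / (2 * s)))
    rw [mul_one] at h
    exact h
  have h2 : HasDerivAt (fun s : ℝ => y - 1 / (2 * s)) (1 / (2 * s ^ 2)) s := by
    have h3 : HasDerivAt (fun s : ℝ => 2 * s) 2 s := by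
      have := (hasDerivAt_id s).const_mul 2
      rw [mul_one] at this
      exact this
    have h4 := (h3.inv (by positivity : 2 * s ≠ 0)).const_sub y
    have h5 : 1 / (2 * s ^ 2) = -(-2 / (2 * s) ^ 2) := by
      field_simp
    rw [h5]
    simpa only [one_div] using! h4
  refine ⟨?_, ?_, ?_, (th_bnd 4 _).1, (th_bnd 4 _).2, hc.continuous, ?_⟩
  · rw [h1.deriv]
    exact h1
  · rw [h1.deriv]
    exact (WtZ_Th (y - 1 / (2 * s))).comp s h2
  · rw [h1.deriv]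
    have h0 := Real.exp_pos (-(y - 1 / (2 * s)) / 4)
    rw [abs_of_pos (by positivity), div_le_one (by positivity)]
    nlinarith
  · exact hc.continuous_deriv (by simp)

end H72KC
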